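import Mathlib

/-!
# Overlap functions of rank one over a field: self-duality and line sums
-/

set_option autoImplicit false

namespace Pool.Agent.Helper23.SIC

open Finset

variable {L : Type*} [Field L] {p : ℕ} [Fact p.Prime]

/-- the overlap function of a pair of vectors -/
def ov (χ : AddChar (ZMod p) L) (w u : ZMod p → L) (a b : ZMod p) : L :=
  ∑ x, w x * u (x + a) * χ (b * x)

/-- the twisted products of the overlap function -/
def FF (χ : AddChar (ZMod p) L) (A : ZMod p → ZMod p → L) (c d a b : ZMod p) : L :=
  χ (a * (b - d)) * A a b * A (c - a) (d - b)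

theorem sum_chi {χ : AddChar (ZMod p) L} (hχ : χ.IsPrimitive) (a : ZMod p) :
    ∑ x, χ (x * a) = if a = 0 then (p : L) else 0 := by
  rw [AddChar.sum_mulShift a hχ, ZMod.card]
  split_ifs <;> simp

theorem FF_SD {χ : AddChar (ZMod p) L} (hχ : χ.IsPrimitive) (w u : ZMod p → L)
    (c d a b : ZMod p) : (p : L) * FF χ (ov χ w u) c d a b
      = ∑ c', ∑ d', χ (b * c' - a * d') * FF χ (ov χ w u) c d c' d' := by
  have h3 : ∀ c' : ZMod p, ∑ d', χ (b * c' - a * d') * FF χ (ov χ w u) c d c' d'
      = (p : L) * ∑ x, χ (b * c' + d * x - d * a) *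
        (w x * u (x + c') * w (x + c' - a) * u (x + c - a)) := by
    intro c'
    calc ∑ d', χ (b * c' - a * d') * FF χ (ov χ w u) c d c' d'
        = ∑ d', ∑ x, ∑ y, (χ (b * c' - c' * d + d * y) *
          (w x * u (x + c') * w y * u (y + (c - c')))) * χ (d' * (x - y + c' - a)) := by
          apply Finset.sum_congr rfl
          intro d' _
          rw [FF, ov, ov, mul_assoc (χ (c' * (d' - d))), Finset.sum_mul_sum, Finset.mul_sum,
            Finset.mul_sum]
          apply Finset.sum_congr rfl
          intro x _
          rw [Finset.mul_sum, Finset.mul_sum]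
          apply Finset.sum_congr rfl
          intro y _
          have e1 : χ (b * c' - c' * d + d * y) * χ (d' * (x - y + c' - a))
              = χ (b * c' - a * d') * χ (c' * (d' - d)) * χ (d' * x) * χ ((d - d') * y) := by
            rw [← AddChar.map_add_eq_mul, ← AddChar.map_add_eq_mul, ← AddChar.map_add_eq_mul,
              ← AddChar.map_add_eq_mul]
            congr 1; ring
          calc _ = (χ (b * c' - a * d') * χ (c' * (d' - d)) * χ (d' * x) * χ ((d - d') * y)) *
                (w x * u (x + c') * w y * u (y + (c - c'))) := by ring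
            _ = _ := by rw [← e1]; ring
      _ = ∑ x, ∑ y, (χ (b * c' - c' * d + d * y) *
          (w x * u (x + c') * w y * u (y + (c - c')))) * ∑ d' : ZMod p, χ (d' * (x - y + c' - a)) := by
          rw [Finset.sum_comm]
          apply Finset.sum_congr rfl
          intro x _
          rw [Finset.sum_comm]
          apply Finset.sum_congr rfl
          intro y _
          rw [Finset.mul_sum]
      _ = ∑ x, (χ (b * c' + d * x - d * a) *
          (w x * u (x + c') * w (x + c' - a) * u (x + c - a))) * (p : L) := by
          apply Finset.sum_congr rfl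
          intro x _
          rw [Finset.sum_eq_single (x + c' - a)]
          · rw [sum_chi hχ, if_pos (by ring)]
            have e1 : b * c' - c' * d + d * (x + c' - a) = b * c' + d * x - d * a := by ring
            have e2 : x + c' - a + (c - c') = x + c - a := by ring
            rw [e1, e2]
          · intro y _ hy
            rw [sum_chi hχ, if_neg, mul_zero]
            intro h
            apply hy
            linear_combination -h
          · intro h; exact absurd (mem_univ _) h
      _ = _ := by
          rw [Finset.mul_sum]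
          apply Finset.sum_congr rfl
          intro x _
          ring
  simp_rw [h3]
  rw [← Finset.mul_sum]
  congr 1
  rw [Finset.sum_comm, FF, ov, ov, mul_assoc (χ (a * (b - d))), Finset.sum_mul_sum,
    Finset.mul_sum, Finset.sum_comm]
  simp_rw [Finset.mul_sum]
  conv_lhs => rw [Finset.sum_comm]
  conv_rhs => rw [Finset.sum_comm]
  apply Finset.sum_congr rfl
  intro x _
  rw [← Equiv.sum_comp (Equiv.addRight (x - a))]
  apply Finset.sum_congr rfl
  intro y _
  simp only [Equiv.coe_addRight]
  have e0 : y + (x - a) + a = x + y := by ring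
  have e0' : y + (x - a) = x + y - a := by ring
  have e0'' : x + (c - a) = x + c - a := by ring
  have e1 : χ (b * y + d * x - d * a) = χ (a * (b - d)) * χ (b * (y + (x - a))) *
      χ ((d - b) * x) := by
    rw [← AddChar.map_add_eq_mul, ← AddChar.map_add_eq_mul]
    congr 1; ring
  rw [e0, e1, e0'', e0']
  ring

/-- line sums of a self-dual function -/
theorem SD_line [CharZero L] {χ : AddChar (ZMod p) L} (hχ : χ.IsPrimitive)
    {e : ZMod p → ZMod p → L}
    (he : ∀ a b, (p : L) * e a b = ∑ c, ∑ d, χ (b * c - a * d) * e c d) (x0 y0 v w : ZMod p)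
    (hvw : v ≠ 0 ∨ w ≠ 0) : ∑ t, e (x0 + t * v) (y0 + t * w)
      = ∑ t, χ (t * (y0 * v - x0 * w)) * e (t * v) (t * w) := by
  classical
  have hp : p.Prime := Fact.out
  have hp0 : (p : L) ≠ 0 := by exact_mod_cast hp.ne_zero
  apply mul_left_cancel₀ hp0
  rw [Finset.mul_sum]
  calc ∑ t, (p : L) * e (x0 + t * v) (y0 + t * w)
      = ∑ t, ∑ z : ZMod p × ZMod p, (χ (y0 * z.1 - x0 * z.2) * e z.1 z.2) *
          χ (t * (w * z.1 - v * z.2)) := by
        apply Finset.sum_congr rfl
        intro t _
        rw [he, Fintype.sum_prod_type]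
        apply Finset.sum_congr rfl
        intro c _
        apply Finset.sum_congr rfl
        intro d _
        have h2 : χ ((y0 + t * w) * c - (x0 + t * v) * d)
            = χ (y0 * c - x0 * d) * χ (t * (w * c - v * d)) := by
          rw [← AddChar.map_add_eq_mul]; congr 1; ring
        rw [h2]
        ring
    _ = ∑ z : ZMod p × ZMod p, (χ (y0 * z.1 - x0 * z.2) * e z.1 z.2) *
          (if w * z.1 - v * z.2 = 0 then (p : L) else 0) := by
        rw [Finset.sum_comm]
        apply Finset.sum_congr rfl
        intro z _
        rw [← Finset.mul_sum, sum_chi hχ]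
    _ = ∑ z ∈ (univ : Finset (ZMod p × ZMod p)).filter (fun z => w * z.1 - v * z.2 = 0),
          (p : L) * (χ (y0 * z.1 - x0 * z.2) * e z.1 z.2) := by
        rw [Finset.sum_filter]
        apply Finset.sum_congr rfl
        intro z _
        split_ifs
        · ring
        · rw [mul_zero]
    _ = ∑ t, (p : L) * (χ (t * (y0 * v - x0 * w)) * e (t * v) (t * w)) := by
        symm
        apply Finset.sum_bij (fun t _ => (t * v, t * w))
        · intro t _
          simp only [Finset.mem_filter, mem_univ, true_and]
          ring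
        · intro s _ t _ hst
          simp only [Prod.mk.injEq] at hst
          rcases hvw with h | h
          · exact mul_right_cancel₀ h hst.1
          · exact mul_right_cancel₀ h hst.2
        · intro z hz
          simp only [Finset.mem_filter, mem_univ, true_and] at hz
          rcases hvw with h | h
          · refine ⟨z.1 * v⁻¹, mem_univ _, Prod.ext ?_ ?_⟩
            · simp [h]
            · show z.1 * v⁻¹ * w = z.2
              apply mul_left_cancel₀ h
              calc v * (z.1 * v⁻¹ * w) = (v * v⁻¹) * (w * z.1) := by ring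
                _ = w * z.1 := by rw [mul_inv_cancel₀ h, one_mul]
                _ = v * z.2 := by linear_combination hz
          · refine ⟨z.2 * w⁻¹, mem_univ _, Prod.ext ?_ ?_⟩
            · show z.2 * w⁻¹ * v = z.1
              apply mul_left_cancel₀ h
              calc w * (z.2 * w⁻¹ * v) = (w * w⁻¹) * (v * z.2) := by ring
                _ = v * z.2 := by rw [mul_inv_cancel₀ h, one_mul]
                _ = w * z.1 := by linear_combination -hz
            · simp [h]
        · intro t _
          congr 3
          ring
    _ = _ := by rw [Finset.mul_sum]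

/-- the opposite overlap -/
theorem ov_neg (χ : AddChar (ZMod p) L) (w u : ZMod p → L) (a b : ZMod p) :
    ov χ w u (-a) (-b) = χ (-(a * b)) * ∑ x, u x * w (x + a) * χ (-(b * x)) := by
  rw [ov, ← Equiv.sum_comp (Equiv.addRight a), Finset.mul_sum]
  apply Finset.sum_congr rfl
  intro x _
  simp only [Equiv.coe_addRight, add_neg_cancel_right]
  have e1 : χ (-b * (x + a)) = χ (-(a * b)) * χ (-(b * x)) := by
    rw [← AddChar.map_add_eq_mul]; congr 1; ring
  rw [e1]; ring

/-- overlaps after a shear and a Fourier transform -/
theorem ov_rotate [CharZero L] {χ : AddChar (ZMod p) L} (hχ : χ.IsPrimitive) (hp2 : p ≠ 2)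
    (w u : ZMod p → L) (m : ZMod p) :
    ∃ w' u' : ZMod p → L, ∀ a b, ∃ j, ov χ w' u' a b = χ j * ov χ w u (-b) (a - m * b) := by
  have hp : p.Prime := Fact.out
  have hp0 : (p : L) ≠ 0 := by exact_mod_cast hp.ne_zero
  have h2 : (2 : ZMod p) ≠ 0 := by
    intro h
    have h3 : ((2 : ℕ) : ZMod p) = 0 := by exact_mod_cast h
    rw [ZMod.natCast_eq_zero_iff] at h3
    exact hp2 ((Nat.prime_dvd_prime_iff_eq hp Nat.prime_two).mp h3)
  obtain ⟨q, hq⟩ : ∃ q : ZMod p, 2 * q = m := ⟨m / 2, by field_simp⟩
  refine ⟨fun y => (p : L)⁻¹ * ∑ x, w x * χ (-(q * x ^ 2)) * χ (-(x * y)),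
    fun y => ∑ x, u x * χ (q * x ^ 2) * χ (x * y), ?_⟩
  intro a b
  refine ⟨q * b ^ 2 - a * b, ?_⟩
  rw [ov]
  calc ∑ y, ((p : L)⁻¹ * ∑ x, w x * χ (-(q * x ^ 2)) * χ (-(x * y))) *
        (∑ x, u x * χ (q * x ^ 2) * χ (x * (y + a))) * χ (b * y)
      = ∑ y, ∑ x, ∑ x', ((p : L)⁻¹ * (w x * u x' * (χ (-(q * x ^ 2)) * χ (q * x' ^ 2) *
          χ (x' * a)))) * χ (y * (x' - x + b)) := by
        apply Finset.sum_congr rfl
        intro y _
        rw [mul_assoc, mul_assoc, Finset.sum_mul, Finset.mul_sum]
        apply Finset.sum_congr rfl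
        intro x _
        rw [Finset.sum_mul, Finset.mul_sum, Finset.mul_sum]
        apply Finset.sum_congr rfl
        intro x' _
        have e1 : χ (x' * a) * χ (y * (x' - x + b)) = χ (-(x * y)) * χ (x' * (y + a)) * χ (b * y) := by
          rw [← AddChar.map_add_eq_mul, ← AddChar.map_add_eq_mul, ← AddChar.map_add_eq_mul]
          congr 1; ring
        calc _ = (p : L)⁻¹ * (w x * u x') * (χ (-(q * x ^ 2)) * χ (q * x' ^ 2)) *
              (χ (-(x * y)) * χ (x' * (y + a)) * χ (b * y)) := by ring
          _ = _ := by rw [← e1]; ring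
    _ = ∑ x, ∑ x', ((p : L)⁻¹ * (w x * u x' * (χ (-(q * x ^ 2)) * χ (q * x' ^ 2) *
          χ (x' * a)))) * ∑ y, χ (y * (x' - x + b)) := by
        rw [Finset.sum_comm]
        apply Finset.sum_congr rfl
        intro x _
        rw [Finset.sum_comm]
        apply Finset.sum_congr rfl
        intro x' _
        rw [Finset.mul_sum]
    _ = ∑ x, (w x * u (x - b) * (χ (-(q * x ^ 2)) * χ (q * (x - b) ^ 2) * χ ((x - b) * a))) := by
        apply Finset.sum_congr rfl
        intro x _
        rw [Finset.sum_eq_single (x - b)]
        · rw [sum_chi hχ, if_pos (by ring)]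
          field_simp
        · intro y _ hy
          rw [sum_chi hχ, if_neg, mul_zero]
          intro h
          apply hy
          linear_combination h
        · intro h; exact absurd (mem_univ _) h
    _ = _ := by
        rw [ov, Finset.mul_sum]
        apply Finset.sum_congr rfl
        intro x _
        have e1 : χ (-(q * x ^ 2)) * χ (q * (x - b) ^ 2) * χ ((x - b) * a)
            = χ (q * b ^ 2 - a * b) * χ ((a - m * b) * x) := by
          rw [← AddChar.map_add_eq_mul, ← AddChar.map_add_eq_mul, ← AddChar.map_add_eq_mul, ← hq]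
          congr 1; ring
        rw [e1, ← sub_eq_add_neg]
        ring

end Pool.Agent.Helper23.SIC
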