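import Pool.Agent.Helper23.SIC.Main

/-!
# Algebraicity and finiteness of the solutions
-/

set_option autoImplicit false

namespace Pool.Agent.Helper23.SIC

open Finset Polynomial

/-- an element of all valuation rings of residue characteristic zero is algebraic over `ℚ` -/
theorem alg_of_mem {L : Type*} [Field L] [CharZero L] (z : L)
    (hz : ∀ O : ValuationSubring L, CZ O → z ∈ O) : IsAlgebraic ℚ z := by
  by_contra htr
  have hz0 : z ≠ 0 := by
    intro h
    rw [h] at htr
    exact htr isAlgebraic_zero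
  let A : Subring L := (Algebra.adjoin ℚ {z⁻¹}).toSubring
  have h3 : z⁻¹ ∈ A := Algebra.self_mem_adjoin_singleton ℚ z⁻¹
  have hI : Ideal.span {(⟨z⁻¹, h3⟩ : A)} ≠ ⊤ := by
    intro htop
    have h1 : (1 : A) ∈ Ideal.span {(⟨z⁻¹, h3⟩ : A)} := by rw [htop]; trivial
    rw [Ideal.mem_span_singleton'] at h1
    obtain ⟨⟨a, ha'⟩, ha⟩ := h1
    have h2 : a * z⁻¹ = 1 := congrArg Subtype.val ha
    have h4 : a ∈ Algebra.adjoin ℚ {z⁻¹} := ha'
    rw [Algebra.adjoin_singleton_eq_range_aeval] at h4
    obtain ⟨q, hq⟩ := h4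
    have h5 : aeval z⁻¹ (q * X - 1) = 0 := by
      rw [map_sub, map_mul, aeval_X, map_one, ← h2, ← hq]
      exact sub_self _
    apply htr
    have h6 : IsAlgebraic ℚ z⁻¹ := by
      refine ⟨q * X - 1, ?_, h5⟩
      intro h6
      have h7 := congrArg (eval 0) h6
      simp at h7
    have h7 := h6.inv
    rwa [inv_inv] at h7
  obtain ⟨B, hAB, hB⟩ := Ideal.image_subset_nonunits_valuationSubring _ hI
  have h4 : z⁻¹ ∈ B.nonunits := hB ⟨⟨z⁻¹, h3⟩, Ideal.subset_span rfl, rfl⟩
  have hCZ : CZ B := by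
    intro n hn
    have hn0 : (n : L) ≠ 0 := Nat.cast_ne_zero.mpr hn
    apply le_antisymm
    · exact (mem_iff_le B).mp (natCast_mem B n)
    · have h5 : ((n : L))⁻¹ ∈ B := by
        apply hAB
        have h6 : algebraMap ℚ L ((n : ℚ)⁻¹) ∈ Algebra.adjoin ℚ {z⁻¹} := Subalgebra.algebraMap_mem _ _
        rw [map_inv₀, map_natCast] at h6
        exact h6
      rw [mem_iff_le, map_inv₀] at h5
      have h6 : B.valuation (n : L) ≠ 0 := (Valuation.ne_zero_iff _).mpr hn0
      calc (1 : B.ValueGroup) = (B.valuation (n : L))⁻¹ * B.valuation (n : L) := (inv_mul_cancel₀ h6).symm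
        _ ≤ 1 * B.valuation (n : L) := mul_le_mul' h5 le_rfl
        _ = _ := one_mul _
  have h7 := hz B hCZ
  rw [ValuationSubring.mem_nonunits_iff, map_inv₀] at h4
  rw [mem_iff_le] at h7
  have h8 : B.valuation z ≠ 0 := (Valuation.ne_zero_iff _).mpr hz0
  have h9 : (1 : B.ValueGroup) < 1 := by
    calc (1 : B.ValueGroup) = (B.valuation z)⁻¹ * B.valuation z := (inv_mul_cancel₀ h8).symm
      _ ≤ (B.valuation z)⁻¹ * 1 := mul_le_mul' le_rfl h7
      _ = (B.valuation z)⁻¹ := mul_one _
      _ < 1 := h4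
  exact lt_irrefl _ h9

theorem algebraic5 {L : Type*} [Field L] [CharZero L] {p : ℕ} [Fact p.Prime]
    {χ : AddChar (ZMod p) L} (hχ : χ.IsPrimitive) (hp5 : 5 ≤ p) {w u : ZMod p → L}
    (hS : Sic χ w u) (x y : ZMod p) : IsAlgebraic ℚ (w x * u y) :=
  alg_of_mem _ (fun _ hO => integral hO hχ hp5 hS x y)

/-- the case `p = 2` -/
theorem algebraic2 {L : Type*} [Field L] [CharZero L]
    {χ : AddChar (ZMod 2) L} (hχ : χ.IsPrimitive) {w u : ZMod 2 → L}
    (hS : Sic χ w u) (x y : ZMod 2) : IsAlgebraic ℚ (w x * u y) := by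
  have h11 : (1 : ZMod 2) + 1 = 0 := by decide
  have hn1 : -(1 : ZMod 2) = 1 := by decide
  have hne : ∀ a b : ZMod 2, a = 1 ∨ b = 1 → ¬ (a = 0 ∧ b = 0) := by decide
  have hc0 : χ 0 = 1 := AddChar.map_zero_eq_one χ
  have hc1 : χ 1 = -1 := by
    have h1 := sum_chi hχ (1 : ZMod 2)
    rw [if_neg (by decide)] at h1
    have h2 : ∑ x : ZMod 2, χ (x * 1) = χ (0 * 1) + χ (1 * 1) := Fin.sum_univ_two _
    rw [h2, zero_mul, one_mul, hc0] at h1
    linear_combination h1
  have hov : ∀ a b : ZMod 2, ov χ w u a b = w 0 * u a + w 1 * u (1 + a) * χ b := by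
    intro a b
    have h2 : ov χ w u a b = w 0 * u (0 + a) * χ (b * 0) + w 1 * u (1 + a) * χ (b * 1) :=
      Fin.sum_univ_two _
    rw [h2, zero_add, mul_zero, mul_one, hc0, mul_one]
  have halg : ∀ z : L, ∀ c : ℚ, z * z = (c : L) → IsAlgebraic ℚ z := by
    intro z c h
    refine ⟨X ^ 2 - C c, X_pow_sub_C_ne_zero (by norm_num) c, ?_⟩
    rw [map_sub, map_pow, aeval_X, aeval_C, pow_two, h]
    exact sub_self _
  have e0 := hS.zero
  have e01 := hS.flat 0 1 (hne _ _ (Or.inr rfl))
  have e10 := hS.flat 1 0 (hne _ _ (Or.inl rfl))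
  have e11 := hS.flat 1 1 (hne _ _ (Or.inr rfl))
  simp only [hn1, neg_zero, hov, add_zero, h11, hc0, hc1, mul_one, mul_zero] at e0 e01 e10 e11
  have a1 : IsAlgebraic ℚ (w 0 * u 0 + w 1 * u 1) := by rw [e0]; exact isAlgebraic_one
  have a2 : IsAlgebraic ℚ (w 0 * u 0 - w 1 * u 1) := halg _ (1 / 3) (by
    push_cast; push_cast at e01; linear_combination e01)
  have a3 : IsAlgebraic ℚ (w 0 * u 1 + w 1 * u 0) := halg _ (1 / 3) (by
    push_cast; push_cast at e10; linear_combination e10)
  have a4 : IsAlgebraic ℚ (w 0 * u 1 - w 1 * u 0) := halg _ (-1 / 3) (by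
    push_cast; push_cast at e11; linear_combination e11)
  have a5 : IsAlgebraic ℚ ((1 / 2 : ℚ) : L) := isAlgebraic_algebraMap (1 / 2 : ℚ)
  have b00 : IsAlgebraic ℚ (w 0 * u 0) := by
    have e : w 0 * u 0 = ((1 / 2 : ℚ) : L) * ((w 0 * u 0 + w 1 * u 1) + (w 0 * u 0 - w 1 * u 1)) := by
      rw [Rat.cast_div, Rat.cast_one, Rat.cast_ofNat]; ring
    rw [e]
    exact a5.mul (a1.add a2)
  have b11 : IsAlgebraic ℚ (w 1 * u 1) := by
    have e : w 1 * u 1 = ((1 / 2 : ℚ) : L) * ((w 0 * u 0 + w 1 * u 1) - (w 0 * u 0 - w 1 * u 1)) := by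
      rw [Rat.cast_div, Rat.cast_one, Rat.cast_ofNat]; ring
    rw [e]
    exact a5.mul (a1.sub a2)
  have b01 : IsAlgebraic ℚ (w 0 * u 1) := by
    have e : w 0 * u 1 = ((1 / 2 : ℚ) : L) * ((w 0 * u 1 + w 1 * u 0) + (w 0 * u 1 - w 1 * u 0)) := by
      rw [Rat.cast_div, Rat.cast_one, Rat.cast_ofNat]; ring
    rw [e]
    exact a5.mul (a3.add a4)
  have b10 : IsAlgebraic ℚ (w 1 * u 0) := by
    have e : w 1 * u 0 = ((1 / 2 : ℚ) : L) * ((w 0 * u 1 + w 1 * u 0) - (w 0 * u 1 - w 1 * u 0)) := by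
      rw [Rat.cast_div, Rat.cast_one, Rat.cast_ofNat]; ring
    rw [e]
    exact a5.mul (a3.sub a4)
  have hx : ∀ z : ZMod 2, z = 0 ∨ z = 1 := by decide
  rcases hx x with rfl | rfl <;> rcases hx y with rfl | rfl
  · exact b00
  · exact b01
  · exact b10
  · exact b11

/-- **Algebraicity**: all the solutions over a field of characteristic zero are algebraic, in every
prime dimension other than three. -/
theorem algebraic {L : Type*} [Field L] [CharZero L] {p : ℕ} [Fact p.Prime]
    {χ : AddChar (ZMod p) L} (hχ : χ.IsPrimitive) (hp3 : p ≠ 3) {w u : ZMod p → L}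
    (hS : Sic χ w u) (x y : ZMod p) : IsAlgebraic ℚ (w x * u y) := by
  have hp : p.Prime := Fact.out
  rcases lt_or_ge p 5 with h | h
  · have h2 := hp.two_le
    have h4 : p ≠ 4 := by rintro rfl; revert hp; norm_num
    have h5 : p = 2 := by omega
    subst h5
    exact algebraic2 hχ hS x y
  · exact algebraic5 hχ h hS x y

/-- **Finiteness**: there are only finitely many solutions, up to scaling, in every prime
dimension other than three. -/
theorem finite_sol {K : Type*} [Field K] [CharZero K] {p : ℕ} [Fact p.Prime]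
    {χ : AddChar (ZMod p) K} (hχ : χ.IsPrimitive) (hp3 : p ≠ 3) :
    {M : ZMod p → ZMod p → K | ∃ w u : ZMod p → K, Sic χ w u ∧ ∀ i j, M i j = w i * u j}.Finite := by
  by_contra hinf
  have hinf' : Set.Infinite {M : ZMod p → ZMod p → K | ∃ w u : ZMod p → K, Sic χ w u ∧
      ∀ i j, M i j = w i * u j} := hinf
  let f := hinf'.natEmbedding
  have hf : Function.Injective (fun n => (f n : ZMod p → ZMod p → K)) :=
    Subtype.val_injective.comp f.injective
  choose w u hS hM using fun n => (f n).2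
  let l : Filter ℕ := (Filter.hyperfilter ℕ : Filter ℕ)
  let L := Filter.Germ l K
  let φ : (ℕ → K) →+* L := Filter.Germ.coeRingHom l
  let c : K →+* L := φ.comp (RingHom.pi (fun _ => RingHom.id K))
  have hc : Function.Injective c := c.injective
  have : CharZero L := charZero_of_injective_ringHom hc
  let χ' : AddChar (ZMod p) L := (c : K →* L).compAddChar χ
  have hχ' : χ'.IsPrimitive := hχ.compMulHom_of_isPrimitive hc
  let W : ZMod p → L := fun x => φ (fun n => w n x)
  let U : ZMod p → L := fun x => φ (fun n => u n x)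
  have hov : ∀ a b, ov χ' W U a b = φ (fun n => ov χ (w n) (u n) a b) := by
    intro a b
    have h1 : (fun n => ov χ (w n) (u n) a b) = ∑ x, (fun n => w n x) * (fun n => u n (x + a)) *
        (fun _ => χ (b * x)) := by
      funext n
      rw [Finset.sum_apply, ov]
      rfl
    rw [h1, map_sum, ov]
    apply Finset.sum_congr rfl
    intro x _
    rw [RingHom.map_mul, RingHom.map_mul]
    rfl
  have hS' : Sic χ' W U := by
    constructor
    · rw [hov]
      have : (fun n => ov χ (w n) (u n) 0 0) = 1 := by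
        funext n
        exact (hS n).zero
      rw [this, map_one]
    · intro a b hab
      rw [hov, hov, ← map_mul]
      have : (fun n => ov χ (w n) (u n) a b) * (fun n => ov χ (w n) (u n) (-a) (-b))
          = (RingHom.pi (fun _ => RingHom.id K)) (χ (-(a * b)) * ((p : K) + 1)⁻¹) := by
        funext n
        exact (hS n).flat a b hab
      rw [this]
      change c (χ (-(a * b)) * ((p : K) + 1)⁻¹) = c (χ (-(a * b))) * ((p : L) + 1)⁻¹
      rw [map_mul, map_inv₀, map_add, map_natCast, map_one]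
  have halg := fun x y => algebraic hχ' hp3 hS' x y
  choose q hq0 hq using halg
  have hev : ∀ x y, ∀ᶠ n in l, (f n : ZMod p → ZMod p → K) x y ∈ (q x y).rootSet K := by
    intro x y
    have h1 : W x * U y = φ (fun n => w n x * u n y) := by
      rw [← map_mul]; rfl
    have h2 := hq x y
    rw [h1] at h2
    have h3 : aeval (φ (fun n => w n x * u n y)) (q x y)
        = φ (fun n => aeval (w n x * u n y) (q x y)) := by
      have h4 : aeval (φ (fun n => w n x * u n y)) (q x y)
          = φ (aeval (fun n => w n x * u n y) (q x y)) := by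
        rw [aeval_def, aeval_def, hom_eval₂]
        exact congrArg (fun r => eval₂ r _ _) (RingHom.ext_rat _ _)
      rw [h4]
      congr 1
      funext n
      rw [Polynomial.aeval_pi]
      rfl
    rw [h3] at h2
    have h5 : ∀ᶠ n in l, aeval (w n x * u n y) (q x y) = 0 := by
      have h6 : ((fun n => aeval (w n x * u n y) (q x y) : ℕ → K) : Filter.Germ l K)
        = ((fun _ => (0 : K) : ℕ → K) : Filter.Germ l K) := h2
      exact Filter.Germ.coe_eq.mp h6
    filter_upwards [h5] with n hn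
    rw [mem_rootSet]
    refine ⟨hq0 x y, ?_⟩
    rw [hM n x y]
    exact hn
  have hev2 : ∀ᶠ n in l, ∀ x y, (f n : ZMod p → ZMod p → K) x y ∈ (q x y).rootSet K := by
    rw [Filter.eventually_all]
    intro x
    rw [Filter.eventually_all]
    intro y
    exact hev x y
  let T : Set (ZMod p → ZMod p → K) := {M | ∀ x y, M x y ∈ (q x y).rootSet K}
  have hT : T.Finite := by
    exact Set.Finite.pi' (fun x => Set.Finite.pi' (fun y => rootSet_finite (q x y) K))
  have h1 : {n : ℕ | (f n : ZMod p → ZMod p → K) ∈ T}.Finite := hT.preimage hf.injOn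
  exact Filter.notMem_hyperfilter_of_finite h1 hev2

end Pool.Agent.Helper23.SIC
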