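import Pool.Agent.Helper23.SIC.Comb

/-!
# Functions `s` on the affine plane over `F_p` for which all products `s(h) s(g - h)` have equal
sums over parallel lines: moments and polynomial representation
-/

set_option autoImplicit false

namespace Pool.Agent.Helper23.SIC

open Finset Polynomial

variable {K : Type*} [Field K] {p : ℕ} [Fact p.Prime]

/-- all the functions `h ↦ s(h) s(g - h)` have equal sums over parallel lines -/
def LinProd (s : ZMod p → ZMod p → K) : Prop :=
  ∀ c d, Lin (fun x y => s x y * s (c - x) (d - y))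

/-- moments -/
noncomputable def mom (ι : ZMod p →+* K) (s : ZMod p → ZMod p → K) (i l : ℕ) : K :=
  ∑ x, ∑ y, s x y * ι x ^ i * ι y ^ l

theorem mom_shift (ι : ZMod p →+* K) (s : ZMod p → ZMod p → K) (i l : ℕ)
    (h0 : ∀ r q, r + q < i + l → mom ι s r q = 0) (x y : ZMod p) :
    ∑ c, ∑ d, s c d * (ι c + ι x) ^ i * (ι d + ι y) ^ l = mom ι s i l := by
  have h1 : ∀ c d : ZMod p, s c d * (ι c + ι x) ^ i * (ι d + ι y) ^ l
      = ∑ r ∈ range (i + 1), ∑ q ∈ range (l + 1),
        (ι x ^ (i - r) * (i.choose r : K) * (ι y ^ (l - q) * (l.choose q : K))) *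
          (s c d * ι c ^ r * ι d ^ q) := by
    intro c d
    rw [add_pow, add_pow, mul_assoc, Finset.sum_mul_sum, Finset.mul_sum]
    apply Finset.sum_congr rfl
    intro r _
    rw [Finset.mul_sum]
    apply Finset.sum_congr rfl
    intro q _
    ring
  simp_rw [h1]
  have h2 : ∑ c : ZMod p, ∑ d : ZMod p, ∑ r ∈ range (i + 1), ∑ q ∈ range (l + 1),
        (ι x ^ (i - r) * (i.choose r : K) * (ι y ^ (l - q) * (l.choose q : K))) *
          (s c d * ι c ^ r * ι d ^ q)
      = ∑ r ∈ range (i + 1), ∑ q ∈ range (l + 1),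
        (ι x ^ (i - r) * (i.choose r : K) * (ι y ^ (l - q) * (l.choose q : K))) *
          mom ι s r q := by
    have h3 : ∀ c : ZMod p, ∑ d : ZMod p, ∑ r ∈ range (i + 1), ∑ q ∈ range (l + 1),
        (ι x ^ (i - r) * (i.choose r : K) * (ι y ^ (l - q) * (l.choose q : K))) *
          (s c d * ι c ^ r * ι d ^ q)
        = ∑ r ∈ range (i + 1), ∑ q ∈ range (l + 1), ∑ d : ZMod p,
        (ι x ^ (i - r) * (i.choose r : K) * (ι y ^ (l - q) * (l.choose q : K))) *
          (s c d * ι c ^ r * ι d ^ q) := by
      intro c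
      rw [Finset.sum_comm]
      apply Finset.sum_congr rfl
      intro r _
      rw [Finset.sum_comm]
    simp_rw [h3]
    rw [Finset.sum_comm]
    apply Finset.sum_congr rfl
    intro r _
    rw [Finset.sum_comm]
    apply Finset.sum_congr rfl
    intro q _
    rw [mom, Finset.mul_sum]
    apply Finset.sum_congr rfl
    intro c _
    rw [Finset.mul_sum]
  rw [h2, Finset.sum_eq_single i]
  · rw [Finset.sum_eq_single l]
    · simp
    · intro q hq hql
      rw [Finset.mem_range] at hq
      rw [h0 i q (by omega), mul_zero]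
    · intro h; exact absurd (Finset.mem_range.mpr (by omega)) h
  · intro r hr hri
    rw [Finset.mem_range] at hr
    apply Finset.sum_eq_zero
    intro q hq
    rw [Finset.mem_range] at hq
    rw [h0 r q (by omega), mul_zero]
  · intro h; exact absurd (Finset.mem_range.mpr (by omega)) h

theorem mom_zero (ι : ZMod p →+* K) (s : ZMod p → ZMod p → K) (hs : LinProd s) :
    ∀ n i l, i + l = n → n + 2 ≤ p → mom ι s i l = 0 := by
  intro n
  induction n using Nat.strong_induction_on with
  | _ n ih =>
    intro i l hn hnp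
    have hlow : ∀ r q, r + q < i + l → mom ι s r q = 0 := by
      intro r q hrq
      exact ih (r + q) (by omega) r q rfl (by omega)
    have h1 : ∀ c d : ZMod p, ∑ x, ∑ y, s x y * s (c - x) (d - y) * ι x ^ i * ι y ^ l = 0 :=
      fun c d => moment ι _ (hs c d) i l (by omega)
    have h2 : ∑ c, ∑ d, (∑ x, ∑ y, s x y * s (c - x) (d - y) * ι x ^ i * ι y ^ l) *
        (ι c ^ i * ι d ^ l) = 0 := by
      apply Finset.sum_eq_zero; intro c _
      apply Finset.sum_eq_zero; intro d _
      rw [h1, zero_mul]
    have h3 : ∑ c, ∑ d, (∑ x, ∑ y, s x y * s (c - x) (d - y) * ι x ^ i * ι y ^ l) *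
        (ι c ^ i * ι d ^ l)
        = ∑ x, ∑ y, (s x y * ι x ^ i * ι y ^ l) *
          ∑ c, ∑ d, s c d * (ι c + ι x) ^ i * (ι d + ι y) ^ l := by
      calc _ = ∑ c, ∑ d, ∑ x, ∑ y, (s x y * ι x ^ i * ι y ^ l) *
              (s (c - x) (d - y) * ι c ^ i * ι d ^ l) := by
            apply Finset.sum_congr rfl; intro c _
            apply Finset.sum_congr rfl; intro d _
            rw [Finset.sum_mul]
            apply Finset.sum_congr rfl; intro x _
            rw [Finset.sum_mul]
            apply Finset.sum_congr rfl; intro y _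
            ring
        _ = ∑ x, ∑ y, ∑ c, ∑ d, (s x y * ι x ^ i * ι y ^ l) *
              (s (c - x) (d - y) * ι c ^ i * ι d ^ l) := by
            have e1 : ∀ c : ZMod p, ∑ d, ∑ x, ∑ y, (s x y * ι x ^ i * ι y ^ l) *
              (s (c - x) (d - y) * ι c ^ i * ι d ^ l) = ∑ x, ∑ y, ∑ d,
              (s x y * ι x ^ i * ι y ^ l) * (s (c - x) (d - y) * ι c ^ i * ι d ^ l) := by
              intro c
              rw [Finset.sum_comm]
              apply Finset.sum_congr rfl; intro x _
              rw [Finset.sum_comm]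
            simp_rw [e1]
            rw [Finset.sum_comm]
            apply Finset.sum_congr rfl; intro x _
            rw [Finset.sum_comm]
        _ = _ := by
            apply Finset.sum_congr rfl; intro x _
            apply Finset.sum_congr rfl; intro y _
            rw [Finset.mul_sum, ← Equiv.sum_comp (Equiv.addRight x)
              (fun c => ∑ d, (s x y * ι x ^ i * ι y ^ l) *
              (s (c - x) (d - y) * ι c ^ i * ι d ^ l))]
            apply Finset.sum_congr rfl; intro c _
            rw [Finset.mul_sum, ← Equiv.sum_comp (Equiv.addRight y)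
              (fun d => (s x y * ι x ^ i * ι y ^ l) *
              (s ((Equiv.addRight x) c - x) (d - y) * ι ((Equiv.addRight x) c) ^ i * ι d ^ l))]
            apply Finset.sum_congr rfl; intro d _
            simp only [Equiv.coe_addRight, add_sub_cancel_right, map_add]
    rw [h3] at h2
    simp_rw [mom_shift ι s i l hlow] at h2
    have h4 : ∑ x, ∑ y, (s x y * ι x ^ i * ι y ^ l) * mom ι s i l
        = mom ι s i l * mom ι s i l := by
      nth_rewrite 2 [mom]
      rw [Finset.sum_mul]
      apply Finset.sum_congr rfl; intro x _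
      rw [Finset.sum_mul]
    rw [h4] at h2
    exact mul_self_eq_zero.mp h2

/-- coefficients of the delta functions -/
noncomputable def ee (ι : ZMod p →+* K) (a : ℕ) (x : ZMod p) : K :=
  (if a = 0 then 1 else 0) - ι x ^ (p - 1 - a)

theorem cast_p (ι : ZMod p →+* K) : (p : K) = 0 := by
  have : ι (p : ZMod p) = 0 := by simp
  rwa [map_natCast] at this

theorem ee_delta (ι : ZMod p →+* K) (x X : ZMod p) :
    ∑ a ∈ range p, ee ι a x * ι X ^ a = if X = x then 1 else 0 := by
  have hp : p.Prime := Fact.out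
  have h1 : ∑ a ∈ range p, ee ι a x * ι X ^ a
      = 1 - ∑ a ∈ range p, ι X ^ a * ι x ^ (p - 1 - a) := by
    have h2 : ∑ a ∈ range p, (if a = 0 then (1 : K) else 0) * ι X ^ a = 1 := by
      rw [Finset.sum_eq_single 0]
      · simp
      · intro b _ hb; simp [hb]
      · intro h; exact absurd (Finset.mem_range.mpr hp.pos) h
    rw [← h2, ← Finset.sum_sub_distrib]
    apply Finset.sum_congr rfl
    intro a _
    rw [ee]; ring
  rw [h1]
  have h3 := Commute.geom_sum₂_mul (Commute.all (ι X) (ι x)) p
  split_ifs with h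
  · rw [h]
    have h4 : ∑ a ∈ range p, ι x ^ a * ι x ^ (p - 1 - a) = 0 := by
      have h5 : ∀ a ∈ range p, ι x ^ a * ι x ^ (p - 1 - a) = ι x ^ (p - 1) := by
        intro a ha
        rw [Finset.mem_range] at ha
        rw [← pow_add]; congr 1; omega
      rw [Finset.sum_congr rfl h5, Finset.sum_const, Finset.card_range, nsmul_eq_mul, cast_p ι,
        zero_mul]
    rw [h4, sub_zero]
  · have h6 : ι X - ι x ≠ 0 := by
      rw [← map_sub]
      intro h0
      have : X - x = 0 := by apply ι.injective; rw [h0, map_zero]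
      exact h (sub_eq_zero.mp this)
    rw [← map_pow, ← map_pow, ZMod.pow_card, ZMod.pow_card] at h3
    have h7 : ∑ a ∈ range p, ι X ^ a * ι x ^ (p - 1 - a) = 1 := by
      apply mul_right_cancel₀ h6
      rw [h3, one_mul]
    rw [h7, sub_self]

/-- coefficients of the polynomial representing `s` -/
noncomputable def cof (ι : ZMod p →+* K) (s : ZMod p → ZMod p → K) (a b : ℕ) : K :=
  ∑ x, ∑ y, s x y * ee ι a x * ee ι b y

theorem interp (ι : ZMod p →+* K) (s : ZMod p → ZMod p → K) (X Y : ZMod p) :
    s X Y = ∑ a ∈ range p, ∑ b ∈ range p, cof ι s a b * ι X ^ a * ι Y ^ b := by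
  have h1 : ∑ a ∈ range p, ∑ b ∈ range p, cof ι s a b * ι X ^ a * ι Y ^ b
      = ∑ x, ∑ y, s x y * (∑ a ∈ range p, ee ι a x * ι X ^ a) *
        (∑ b ∈ range p, ee ι b y * ι Y ^ b) := by
    symm
    calc ∑ x, ∑ y, s x y * (∑ a ∈ range p, ee ι a x * ι X ^ a) *
        (∑ b ∈ range p, ee ι b y * ι Y ^ b)
        = ∑ x, ∑ y, ∑ a ∈ range p, ∑ b ∈ range p,
          (s x y * ee ι a x * ee ι b y) * ι X ^ a * ι Y ^ b := by
          apply Finset.sum_congr rfl; intro x _
          apply Finset.sum_congr rfl; intro y _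
          rw [mul_assoc, Finset.sum_mul_sum, Finset.mul_sum]
          apply Finset.sum_congr rfl; intro a _
          rw [Finset.mul_sum]
          apply Finset.sum_congr rfl; intro b _
          ring
      _ = ∑ a ∈ range p, ∑ b ∈ range p, ∑ x, ∑ y,
          (s x y * ee ι a x * ee ι b y) * ι X ^ a * ι Y ^ b := by
          have e1 : ∀ x : ZMod p, ∑ y : ZMod p, ∑ a ∈ range p, ∑ b ∈ range p,
            (s x y * ee ι a x * ee ι b y) * ι X ^ a * ι Y ^ b
            = ∑ a ∈ range p, ∑ b ∈ range p, ∑ y : ZMod p,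
            (s x y * ee ι a x * ee ι b y) * ι X ^ a * ι Y ^ b := by
            intro x
            rw [Finset.sum_comm]
            apply Finset.sum_congr rfl; intro a _
            rw [Finset.sum_comm]
          simp_rw [e1]
          rw [Finset.sum_comm]
          apply Finset.sum_congr rfl; intro a _
          rw [Finset.sum_comm]
      _ = _ := by
          apply Finset.sum_congr rfl; intro a _
          apply Finset.sum_congr rfl; intro b _
          rw [cof, Finset.sum_mul, Finset.sum_mul]
          apply Finset.sum_congr rfl; intro x _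
          rw [Finset.sum_mul, Finset.sum_mul]
  rw [h1]
  simp_rw [ee_delta]
  rw [Finset.sum_eq_single X]
  · rw [Finset.sum_eq_single Y]
    · simp
    · intro y _ hy; simp [Ne.symm hy]
    · intro h; exact absurd (mem_univ _) h
  · intro x _ hx
    apply Finset.sum_eq_zero; intro y _
    rw [if_neg (fun h => hx h.symm), mul_zero, zero_mul]
  · intro h; exact absurd (mem_univ _) h

theorem cof_zero (ι : ZMod p →+* K) (s : ZMod p → ZMod p → K) (hs : LinProd s) (a b : ℕ)
    (ha : a < p) (hb : b < p) (hab : p ≤ a + b) : cof ι s a b = 0 := by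
  have h1 := mom_zero ι s hs ((p - 1 - a) + (p - 1 - b)) (p - 1 - a) (p - 1 - b) rfl (by omega)
  rw [mom] at h1
  rw [cof, ← h1]
  apply Finset.sum_congr rfl; intro x _
  apply Finset.sum_congr rfl; intro y _
  rw [ee, ee, if_neg (by omega), if_neg (by omega)]
  ring

/-- the coefficient polynomials of the powers of the second variable -/
noncomputable def AA (ι : ZMod p →+* K) (s : ZMod p → ZMod p → K) (b : ℕ) : K[X] :=
  ∑ a ∈ range (p - b), C (cof ι s a b) * X ^ a

/-- families of polynomials of total degree `< p` -/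
def Fam (p : ℕ) (β : ℕ → K[X]) : Prop := ∀ b a, p ≤ a + b → (β b).coeff a = 0

theorem AA_coeff (ι : ZMod p →+* K) (s : ZMod p → ZMod p → K) (a b : ℕ) :
    (AA ι s b).coeff a = if a + b < p then cof ι s a b else 0 := by
  rw [AA, finsetSum_coeff]
  simp_rw [coeff_C_mul_X_pow]
  by_cases h : a + b < p
  · rw [if_pos h, Finset.sum_eq_single a]
    · rw [if_pos rfl]
    · intro c _ hc; rw [if_neg (fun h => hc h.symm)]
    · intro h2; exact absurd (Finset.mem_range.mpr (by omega)) h2
  · rw [if_neg h]
    apply Finset.sum_eq_zero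
    intro c hc
    rw [Finset.mem_range] at hc
    rw [if_neg]
    omega

theorem AA_fam (ι : ZMod p →+* K) (s : ZMod p → ZMod p → K) : Fam p (AA ι s) := by
  intro b a h
  rw [AA_coeff, if_neg (by omega)]

/-- evaluation of a family -/
noncomputable def ev (p : ℕ) (β : ℕ → K[X]) (x y : K) : K := ∑ b ∈ range p, (β b).eval x * y ^ b

theorem AA_ev (ι : ZMod p →+* K) (s : ZMod p → ZMod p → K) (hs : LinProd s) (X Y : ZMod p) :
    ev p (AA ι s) (ι X) (ι Y) = s X Y := by
  rw [ev, interp ι s X Y, Finset.sum_comm]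
  apply Finset.sum_congr rfl
  intro b hb
  rw [Finset.mem_range] at hb
  rw [AA, eval_finsetSum, Finset.sum_mul]
  symm
  have h1 : range (p - b) ⊆ range p := by
    intro a ha; rw [Finset.mem_range] at *; omega
  rw [← Finset.sum_subset h1]
  · apply Finset.sum_congr rfl
    intro a _
    simp
  · intro a ha ha2
    rw [Finset.mem_range] at ha ha2
    rw [cof_zero ι s hs a b ha hb (by omega)]
    ring

omit [Fact p.Prime] in
theorem Fam.deg {β : ℕ → K[X]} (h : Fam p β) (b : ℕ) (hb : b < p) :
    (β b).natDegree + b < p := by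
  by_contra hcon
  push Not at hcon
  have h1 := h b _ hcon
  rw [coeff_natDegree, leadingCoeff_eq_zero] at h1
  rw [h1, natDegree_zero] at hcon
  omega

/-- a polynomial of degree `< p` which vanishes on `F_p` is zero -/
theorem poly_zero (ι : ZMod p →+* K) (P : K[X]) (hd : P.natDegree < p)
    (h : ∀ a, P.eval (ι a) = 0) : P = 0 :=
  eq_zero_of_natDegree_lt_card_of_eval_eq_zero P ι.injective h (by rw [ZMod.card]; exact hd)

/-- extension of the vanishing of moments to all shifts -/
theorem L_ext (ι : ZMod p →+* K) (s : ZMod p → ZMod p → K) (hs : LinProd s) (i l : ℕ)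
    (hil : i + l + 2 ≤ p) (g1 g2 : K) :
    ∑ x, ∑ y, s x y * ι x ^ i * ι y ^ l * ev p (AA ι s) (g1 - ι x) (g2 - ι y) = 0 := by
  have hp : p.Prime := Fact.out
  have hfam := AA_fam ι s
  have h0 : ∀ c d : ZMod p, ∑ x, ∑ y, s x y * ι x ^ i * ι y ^ l *
      ev p (AA ι s) (ι c - ι x) (ι d - ι y) = 0 := by
    intro c d
    rw [← moment ι _ (hs c d) i l hil]
    apply Finset.sum_congr rfl; intro x _
    apply Finset.sum_congr rfl; intro y _
    rw [← map_sub, ← map_sub, AA_ev ι s hs]
    ring
  have h1 : ∀ (g : K) (d : ZMod p), ∑ x, ∑ y, s x y * ι x ^ i * ι y ^ l *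
      ev p (AA ι s) (g - ι x) (ι d - ι y) = 0 := by
    intro g d
    set P : K[X] := ∑ x : ZMod p, ∑ y : ZMod p, C (s x y * ι x ^ i * ι y ^ l) *
      ∑ b ∈ range p, (AA ι s b).comp (X - C (ι x)) * C ((ι d - ι y) ^ b) with hP
    have hev : ∀ g : K, P.eval g = ∑ x, ∑ y, s x y * ι x ^ i * ι y ^ l *
        ev p (AA ι s) (g - ι x) (ι d - ι y) := by
      intro g
      rw [hP]
      simp only [eval_finsetSum, eval_mul, eval_C, eval_comp, eval_sub, eval_X, ev]
    have hdeg : P.natDegree < p := by
      have : P.natDegree ≤ p - 1 := by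
        rw [hP]
        apply natDegree_sum_le_of_forall_le; intro x _
        apply natDegree_sum_le_of_forall_le; intro y _
        refine (natDegree_C_mul_le _ _).trans ?_
        apply natDegree_sum_le_of_forall_le; intro b hb
        rw [Finset.mem_range] at hb
        refine (natDegree_mul_C_le _ _).trans ?_
        refine natDegree_comp_le.trans ?_
        have := hfam.deg b hb
        rw [natDegree_X_sub_C, mul_one]
        omega
      have := hp.two_le
      omega
    have hz := poly_zero ι P hdeg (fun c => by rw [hev]; exact h0 c d)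
    rw [← hev, hz, eval_zero]
  set P : K[X] := ∑ x : ZMod p, ∑ y : ZMod p, C (s x y * ι x ^ i * ι y ^ l) *
    ∑ b ∈ range p, C ((AA ι s b).eval (g1 - ι x)) * (X - C (ι y)) ^ b with hP
  have hev : ∀ g : K, P.eval g = ∑ x, ∑ y, s x y * ι x ^ i * ι y ^ l *
      ev p (AA ι s) (g1 - ι x) (g - ι y) := by
    intro g
    rw [hP]
    simp only [eval_finsetSum, eval_mul, eval_C, eval_pow, eval_sub, eval_X, ev]
  have hdeg : P.natDegree < p := by
    have : P.natDegree ≤ p - 1 := by
      rw [hP]
      apply natDegree_sum_le_of_forall_le; intro x _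
      apply natDegree_sum_le_of_forall_le; intro y _
      refine (natDegree_C_mul_le _ _).trans ?_
      apply natDegree_sum_le_of_forall_le; intro b hb
      rw [Finset.mem_range] at hb
      refine (natDegree_C_mul_le _ _).trans ?_
      rw [natDegree_pow, natDegree_X_sub_C, mul_one]
      omega
    have := hp.two_le
    omega
  have hz := poly_zero ι P hdeg (fun c => by rw [hev]; exact h1 g1 c)
  rw [← hev, hz, eval_zero]

/-! ### Power sums -/

theorem S_low (ι : ZMod p →+* K) {m : ℕ} (hm : m + 2 ≤ p) : ∑ x : ZMod p, ι x ^ m = 0 :=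
  sum_pow_zero ι hm

theorem S_mid (ι : ZMod p →+* K) : ∑ x : ZMod p, ι x ^ (p - 1) = -1 := by
  classical
  have hp : p.Prime := Fact.out
  have h1 : ∀ x : ZMod p, ι x ^ (p - 1) = 1 - (if x = 0 then 1 else 0) := by
    intro x
    split_ifs with h
    · rw [h, map_zero, zero_pow (by have := hp.two_le; omega)]; ring
    · rw [← map_pow, ZMod.pow_card_sub_one_eq_one h, map_one]; ring
  simp_rw [h1]
  rw [Finset.sum_sub_distrib, Finset.sum_const, Finset.card_univ, ZMod.card, nsmul_eq_mul,
    cast_p ι, Finset.sum_ite_eq']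
  simp

theorem S_high (ι : ZMod p →+* K) {m : ℕ} (h1 : p ≤ m) (h2 : m + 3 ≤ 2 * p) :
    ∑ x : ZMod p, ι x ^ m = 0 := by
  have h3 : ∀ x : ZMod p, ι x ^ m = ι x ^ (m - p + 1) := by
    intro x
    have : m = p + (m - p) := by omega
    rw [this, pow_add, ← map_pow ι x p, ZMod.pow_card, ← pow_succ']
    congr 1
    omega
  simp_rw [h3]
  exact S_low ι (by omega)

theorem T_mono (ι : ZMod p →+* K) (ρ : K) (A B : ℕ) (hAB : A + B + 4 ≤ 3 * p) :
    ∑ x, ∑ y, (ι x - ρ * ι y) ^ A * ι y ^ B = if A = p - 1 ∧ B = p - 1 then 1 else 0 := by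
  have hp : p.Prime := Fact.out
  have hp2 := hp.two_le
  have h1 : ∑ x, ∑ y, (ι x - ρ * ι y) ^ A * ι y ^ B
      = ∑ m ∈ range (A + 1), (((-ρ) ^ (A - m) * (A.choose m : K)) *
        (∑ x : ZMod p, ι x ^ m)) * ∑ y : ZMod p, ι y ^ (A - m + B) := by
    have h2 : ∀ x y : ZMod p, (ι x - ρ * ι y) ^ A * ι y ^ B
        = ∑ m ∈ range (A + 1), ((-ρ) ^ (A - m) * (A.choose m : K)) * ι x ^ m * ι y ^ (A - m + B) := by
      intro x y
      have : ι x - ρ * ι y = ι x + (-ρ) * ι y := by ring
      rw [this, add_pow, Finset.sum_mul]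
      apply Finset.sum_congr rfl
      intro m _
      rw [mul_pow, pow_add]
      ring
    simp_rw [h2]
    have h3 : ∀ x : ZMod p, ∑ y : ZMod p, ∑ m ∈ range (A + 1),
        ((-ρ) ^ (A - m) * (A.choose m : K)) * ι x ^ m * ι y ^ (A - m + B)
        = ∑ m ∈ range (A + 1), ∑ y : ZMod p,
        ((-ρ) ^ (A - m) * (A.choose m : K)) * ι x ^ m * ι y ^ (A - m + B) :=
      fun x => Finset.sum_comm
    simp_rw [h3]
    rw [Finset.sum_comm]
    apply Finset.sum_congr rfl
    intro m _
    rw [mul_assoc, Finset.sum_mul_sum, Finset.mul_sum]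
    apply Finset.sum_congr rfl
    intro x _
    rw [Finset.mul_sum]
    apply Finset.sum_congr rfl
    intro y _
    ring
  rw [h1]
  by_cases hA : p - 1 ≤ A
  · rw [Finset.sum_eq_single (p - 1)]
    · rw [S_mid]
      by_cases hB : A - (p - 1) + B = p - 1
      · rw [hB, S_mid]
        by_cases hA2 : A = p - 1
        · have hB2 : B = p - 1 := by omega
          rw [if_pos ⟨hA2, hB2⟩, hA2]
          simp
        · rw [if_neg (fun h => hA2 h.1)]
          have h4 : p ∣ A.choose (p - 1) :=
            Nat.Prime.dvd_choose hp (by omega) (by omega) (by omega)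
          obtain ⟨c, hc⟩ := h4
          rw [hc]
          push_cast
          rw [cast_p ι]
          ring
      · rw [if_neg (by omega)]
        have h5 : ∑ y : ZMod p, ι y ^ (A - (p - 1) + B) = 0 := by
          by_cases h6 : A - (p - 1) + B + 2 ≤ p
          · exact S_low ι h6
          · exact S_high ι (by omega) (by omega)
        rw [h5, mul_zero]
    · intro m hm hmp
      rw [Finset.mem_range] at hm
      by_cases h6 : m + 2 ≤ p
      · rw [S_low ι h6, mul_zero, zero_mul]
      · by_cases h7 : A - m + B + 2 ≤ p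
        · rw [S_low ι h7, mul_zero]
        · rw [S_high ι (m := m) (by omega) (by omega), mul_zero, zero_mul]
    · intro h; exact absurd (Finset.mem_range.mpr (by omega)) h
  · rw [if_neg (by omega)]
    apply Finset.sum_eq_zero
    intro m hm
    rw [Finset.mem_range] at hm
    rw [S_low ι (m := m) (by omega), mul_zero, zero_mul]

theorem T_poly (ι : ZMod p →+* K) (ρ : K) (f : K[X]) (B : ℕ) (hB : f.natDegree + B + 4 ≤ 3 * p) :
    ∑ x, ∑ y, f.eval (ι x - ρ * ι y) * ι y ^ B = if B = p - 1 then f.coeff (p - 1) else 0 := by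
  have h1 : ∀ x y : ZMod p, f.eval (ι x - ρ * ι y) * ι y ^ B
      = ∑ A ∈ range (f.natDegree + 1), f.coeff A * ((ι x - ρ * ι y) ^ A * ι y ^ B) := by
    intro x y
    rw [eval_eq_sum_range, Finset.sum_mul]
    apply Finset.sum_congr rfl
    intro A _
    ring
  simp_rw [h1]
  have h3 : ∀ x : ZMod p, ∑ y : ZMod p, ∑ A ∈ range (f.natDegree + 1),
      f.coeff A * ((ι x - ρ * ι y) ^ A * ι y ^ B)
      = ∑ A ∈ range (f.natDegree + 1), ∑ y : ZMod p,
      f.coeff A * ((ι x - ρ * ι y) ^ A * ι y ^ B) := fun x => Finset.sum_comm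
  simp_rw [h3]
  rw [Finset.sum_comm]
  have h4 : ∀ A ∈ range (f.natDegree + 1), ∑ x : ZMod p, ∑ y : ZMod p,
      f.coeff A * ((ι x - ρ * ι y) ^ A * ι y ^ B)
      = f.coeff A * (if A = p - 1 ∧ B = p - 1 then 1 else 0) := by
    intro A hA
    rw [Finset.mem_range] at hA
    rw [← T_mono ι ρ A B (by omega), Finset.mul_sum]
    apply Finset.sum_congr rfl; intro x _
    rw [Finset.mul_sum]
  rw [Finset.sum_congr rfl h4]
  by_cases hB2 : B = p - 1
  · rw [if_pos hB2]
    by_cases hf : p - 1 < f.natDegree + 1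
    · rw [Finset.sum_eq_single (p - 1)]
      · simp [hB2]
      · intro A _ hA; simp [hA]
      · intro h; exact absurd (Finset.mem_range.mpr hf) h
    · rw [coeff_eq_zero_of_natDegree_lt (by omega)]
      apply Finset.sum_eq_zero
      intro A hA
      rw [Finset.mem_range] at hA
      rw [if_neg (by omega), mul_zero]
  · rw [if_neg hB2]
    apply Finset.sum_eq_zero
    intro A _
    rw [if_neg (fun h => hB2 h.2), mul_zero]

end Pool.Agent.Helper23.SIC
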