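import Pool.Agent.Helper23.SIC.Cls1

/-!
# Change of coordinates `x = X - ρ Y` and the coefficient identities
-/

set_option autoImplicit false

namespace Pool.Agent.Helper23.SIC

open Finset Polynomial

variable {K : Type*} [Field K] {p : ℕ} [Fact p.Prime]

omit [Fact p.Prime] in
theorem coeff_sub_pow (r : K) (n k : ℕ) :
    ((X - C r) ^ n : K[X]).coeff k = (-r) ^ (n - k) * (n.choose k : K) := by
  rw [sub_eq_add_neg, ← C_neg, coeff_X_add_C_pow]

/-- the family of `α(x + ρ y, y)` -/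
noncomputable def sh (ρ : K) (α : ℕ → K[X]) (b : ℕ) : K[X] :=
  ∑ k ∈ range (b + 1), C (ρ ^ (b - k)) * hasseDeriv (b - k) (α k)

theorem sh_coeff (ρ : K) (α : ℕ → K[X]) (a b : ℕ) :
    (sh ρ α b).coeff a = ∑ k ∈ range (b + 1),
      ρ ^ (b - k) * (((a + (b - k)).choose (b - k) : ℕ) * (α k).coeff (a + (b - k))) := by
  rw [sh, finsetSum_coeff]
  apply Finset.sum_congr rfl
  intro k _
  rw [coeff_C_mul, hasseDeriv_coeff]

theorem sh_low (ρ : K) (α : ℕ → K[X]) (D : ℕ) (h : ∀ b a, D ≤ a + b → (α b).coeff a = 0) :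
    ∀ b a, D ≤ a + b → (sh ρ α b).coeff a = 0 := by
  intro b a hab
  rw [sh_coeff]
  apply Finset.sum_eq_zero
  intro k hk
  rw [Finset.mem_range] at hk
  rw [h k (a + (b - k)) (by omega), mul_zero, mul_zero]

omit [Fact p.Prime] in
theorem sh_fam (ρ : K) (α : ℕ → K[X]) (h : Fam p α) : Fam p (sh ρ α) := sh_low ρ α p h

omit [Fact p.Prime] in
theorem sh_ev (ρ : K) (α : ℕ → K[X]) (h : Fam p α) (x y : K) :
    ev p (sh ρ α) x y = ev p α (x + ρ * y) y := by
  have h1 : ∀ b ∈ range p, (α b).eval (x + ρ * y) * y ^ b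
      = ∑ r ∈ range (p - b), ρ ^ r * (hasseDeriv r (α b)).eval x * y ^ (b + r) := by
    intro b hb
    rw [Finset.mem_range] at hb
    have h2 : (α b).eval (x + ρ * y) = (taylor x (α b)).eval (ρ * y) := by
      rw [taylor_eval, add_comm]
    have h3 : (taylor x (α b)).natDegree < p - b := by
      rw [natDegree_taylor]
      have := h.deg b hb
      omega
    rw [h2, eval_eq_sum_range' h3, Finset.sum_mul]
    apply Finset.sum_congr rfl
    intro r _
    rw [taylor_coeff, mul_pow, pow_add]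
    ring
  rw [ev, ev, Finset.sum_congr rfl h1,
    ← Finset.sum_range_diag_flip p (fun b r => ρ ^ r * (hasseDeriv r (α b)).eval x * y ^ (b + r))]
  apply Finset.sum_congr rfl
  intro m _
  rw [sh, eval_finsetSum, Finset.sum_mul]
  apply Finset.sum_congr rfl
  intro k hk
  rw [Finset.mem_range] at hk
  rw [eval_mul, eval_C]
  have : k + (m - k) = m := by omega
  rw [this]

/-- the moments with respect to the coordinates `x = X - ρ Y` and `Y` vanish -/
theorem L_shear (ι : ZMod p →+* K) (s : ZMod p → ZMod p → K) (hs : LinProd s) (ρ : K) (i l : ℕ)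
    (hil : i + l + 2 ≤ p) (t : K) :
    ∑ x, ∑ y, s x y * (ι x - ρ * ι y) ^ i * ι y ^ l *
      ev p (sh ρ (AA ι s)) (-(ι x - ρ * ι y)) (t - ι y) = 0 := by
  have h1 : ∀ x y : ZMod p, s x y * (ι x - ρ * ι y) ^ i * ι y ^ l *
      ev p (sh ρ (AA ι s)) (-(ι x - ρ * ι y)) (t - ι y)
      = ∑ m ∈ range (i + 1), ((-ρ) ^ (i - m) * (i.choose m : K)) *
        (s x y * ι x ^ m * ι y ^ (i - m + l) * ev p (AA ι s) (ρ * t - ι x) (t - ι y)) := by
    intro x y
    have h2 : ι x - ρ * ι y = ι x + (-ρ) * ι y := by ring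
    have h3 : -(ι x - ρ * ι y) + ρ * (t - ι y) = ρ * t - ι x := by ring
    rw [sh_ev ρ _ (AA_fam ι s), h3, h2, add_pow, Finset.mul_sum, Finset.sum_mul, Finset.sum_mul]
    apply Finset.sum_congr rfl
    intro m _
    rw [mul_pow, pow_add]
    ring
  simp_rw [h1]
  have h3 : ∀ x : ZMod p, ∑ y : ZMod p, ∑ m ∈ range (i + 1),
      ((-ρ) ^ (i - m) * (i.choose m : K)) *
        (s x y * ι x ^ m * ι y ^ (i - m + l) * ev p (AA ι s) (ρ * t - ι x) (t - ι y))
      = ∑ m ∈ range (i + 1), ∑ y : ZMod p, ((-ρ) ^ (i - m) * (i.choose m : K)) *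
        (s x y * ι x ^ m * ι y ^ (i - m + l) * ev p (AA ι s) (ρ * t - ι x) (t - ι y)) :=
    fun x => Finset.sum_comm
  simp_rw [h3]
  rw [Finset.sum_comm]
  apply Finset.sum_eq_zero
  intro m hm
  rw [Finset.mem_range] at hm
  have h4 := L_ext ι s hs m (i - m + l) (by omega) (ρ * t) t
  calc _ = ((-ρ) ^ (i - m) * (i.choose m : K)) * ∑ x, ∑ y,
        (s x y * ι x ^ m * ι y ^ (i - m + l) * ev p (AA ι s) (ρ * t - ι x) (t - ι y)) := by
        rw [Finset.mul_sum]
        apply Finset.sum_congr rfl; intro x _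
        rw [Finset.mul_sum]
    _ = 0 := by rw [h4, mul_zero]

/-- **The coefficient identities.** -/
theorem starE [Infinite K] (ι : ZMod p →+* K) (s : ZMod p → ZMod p → K) (hs : LinProd s) (ρ : K)
    (u v j : ℕ) (hu : u + 1 ≤ p) (hv : v + 1 ≤ p) (huv : p ≤ u + v) :
    ∑ b ∈ range p, ∑ b' ∈ range p, (if b + b' = v + j then
      ((b'.choose j : ℕ) : K) * (-1) ^ (b' + j) *
        (sh ρ (AA ι s) b * (sh ρ (AA ι s) b').comp (-X)).coeff u else 0) = 0 := by
  have hp : p.Prime := Fact.out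
  have hp2 := hp.two_le
  set β := sh ρ (AA ι s) with hβ
  have hfam : Fam p β := sh_fam ρ _ (AA_fam ι s)
  have hsev : ∀ x y : ZMod p, s x y = ev p β (ι x - ρ * ι y) (ι y) := by
    intro x y
    rw [hβ, sh_ev ρ _ (AA_fam ι s), sub_add_cancel, AA_ev ι s hs]
  obtain ⟨i, hi⟩ : ∃ i, i = p - 1 - u := ⟨_, rfl⟩
  obtain ⟨l, hl⟩ : ∃ l, l = p - 1 - v := ⟨_, rfl⟩
  have hil : i + l + 2 ≤ p := by omega
  set P : K[X] := ∑ x : ZMod p, ∑ y : ZMod p, C (s x y * (ι x - ρ * ι y) ^ i * ι y ^ l) *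
    ∑ b' ∈ range p, C ((β b').eval (-(ι x - ρ * ι y))) * (X - C (ι y)) ^ b' with hP
  have hPz : P = 0 := by
    apply Polynomial.funext
    intro t
    rw [eval_zero, ← L_shear ι s hs ρ i l hil t, hP]
    simp only [eval_finsetSum, eval_mul, eval_C, eval_pow, eval_sub, eval_X, ev, hβ]
  have hc : P.coeff j = 0 := by rw [hPz, coeff_zero]
  rw [hP] at hc
  simp only [finsetSum_coeff, coeff_C_mul, coeff_sub_pow] at hc
  have h1 : ∀ x y : ZMod p, s x y * (ι x - ρ * ι y) ^ i * ι y ^ l *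
      ∑ b' ∈ range p, (β b').eval (-(ι x - ρ * ι y)) * ((-ι y) ^ (b' - j) * (b'.choose j : K))
      = ∑ b ∈ range p, ∑ b' ∈ range p, ((b'.choose j : ℕ) : K) * (-1) ^ (b' + j) *
        ((X ^ i * (β b * (β b').comp (-X))).eval (ι x - ρ * ι y) * ι y ^ (l + b + (b' - j))) := by
    intro x y
    rw [hsev x y]
    nth_rewrite 1 [ev]
    have e0 : (∑ b ∈ range p, (β b).eval (ι x - ρ * ι y) * ι y ^ b) * (ι x - ρ * ι y) ^ i * ι y ^ l *
      ∑ b' ∈ range p, (β b').eval (-(ι x - ρ * ι y)) * ((-ι y) ^ (b' - j) * (b'.choose j : K))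
      = ((ι x - ρ * ι y) ^ i * ι y ^ l) * ((∑ b ∈ range p, (β b).eval (ι x - ρ * ι y) * ι y ^ b) *
      ∑ b' ∈ range p, (β b').eval (-(ι x - ρ * ι y)) * ((-ι y) ^ (b' - j) * (b'.choose j : K))) := by
      ring
    rw [e0, Finset.sum_mul_sum, Finset.mul_sum]
    apply Finset.sum_congr rfl
    intro b _
    rw [Finset.mul_sum]
    apply Finset.sum_congr rfl
    intro b' _
    simp only [eval_mul, eval_pow, eval_X, eval_comp, eval_neg]
    by_cases hj : j ≤ b'
    · have e1 : (-1 : K) ^ (b' + j) = (-1) ^ (b' - j) := by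
        have : b' + j = (b' - j) + 2 * j := by omega
        rw [this, pow_add, pow_mul]
        norm_num
      rw [e1, neg_pow (ι y), pow_add, pow_add]
      ring
    · rw [Nat.choose_eq_zero_of_lt (by omega)]
      push_cast
      ring
  simp_rw [h1] at hc
  have h2 : ∑ x : ZMod p, ∑ y : ZMod p, ∑ b ∈ range p, ∑ b' ∈ range p,
      ((b'.choose j : ℕ) : K) * (-1) ^ (b' + j) *
        ((X ^ i * (β b * (β b').comp (-X))).eval (ι x - ρ * ι y) * ι y ^ (l + b + (b' - j)))
      = ∑ b ∈ range p, ∑ b' ∈ range p, ((b'.choose j : ℕ) : K) * (-1) ^ (b' + j) *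
        ∑ x : ZMod p, ∑ y : ZMod p,
        ((X ^ i * (β b * (β b').comp (-X))).eval (ι x - ρ * ι y) * ι y ^ (l + b + (b' - j))) := by
    have e1 : ∀ x : ZMod p, ∑ y : ZMod p, ∑ b ∈ range p, ∑ b' ∈ range p,
      ((b'.choose j : ℕ) : K) * (-1) ^ (b' + j) *
        ((X ^ i * (β b * (β b').comp (-X))).eval (ι x - ρ * ι y) * ι y ^ (l + b + (b' - j)))
      = ∑ b ∈ range p, ∑ b' ∈ range p, ∑ y : ZMod p,
      ((b'.choose j : ℕ) : K) * (-1) ^ (b' + j) *
        ((X ^ i * (β b * (β b').comp (-X))).eval (ι x - ρ * ι y) * ι y ^ (l + b + (b' - j))) := by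
      intro x
      rw [Finset.sum_comm]
      apply Finset.sum_congr rfl; intro b _
      rw [Finset.sum_comm]
    simp_rw [e1]
    rw [Finset.sum_comm]
    apply Finset.sum_congr rfl; intro b _
    rw [Finset.sum_comm]
    apply Finset.sum_congr rfl; intro b' _
    rw [Finset.mul_sum]
    apply Finset.sum_congr rfl; intro x _
    rw [Finset.mul_sum]
  rw [h2] at hc
  refine Eq.trans ?_ hc
  apply Finset.sum_congr rfl; intro b hb
  apply Finset.sum_congr rfl; intro b' hb'
  rw [Finset.mem_range] at hb hb'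
  by_cases hj : j ≤ b'
  · have hd : (X ^ i * (β b * (β b').comp (-X))).natDegree ≤ i + ((p - 1 - b) + (p - 1 - b')) := by
      refine natDegree_mul_le.trans ?_
      have e1 : (X ^ i : K[X]).natDegree ≤ i := natDegree_X_pow_le i
      have e2 : (β b * (β b').comp (-X)).natDegree ≤ (p - 1 - b) + (p - 1 - b') := by
        refine natDegree_mul_le.trans ?_
        have f1 := hfam.deg b hb
        have f2 := hfam.deg b' hb'
        have f3 : ((β b').comp (-X)).natDegree ≤ (β b').natDegree * 1 := by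
          refine natDegree_comp_le.trans ?_
          rw [natDegree_neg, natDegree_X]
        omega
      omega
    rw [T_poly ι ρ _ _ (by omega)]
    by_cases hE : b + b' = v + j
    · rw [if_pos hE, if_pos (by omega)]
      have e3 : (X ^ i * (β b * (β b').comp (-X))).coeff (p - 1)
          = (β b * (β b').comp (-X)).coeff u := by
        rw [coeff_X_pow_mul', if_pos (by omega)]
        congr 1
        omega
      rw [e3]
    · rw [if_neg hE, if_neg (by omega), mul_zero]
  · rw [Nat.choose_eq_zero_of_lt (by omega)]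
    push_cast
    simp

end Pool.Agent.Helper23.SIC
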