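import Pool.Agent.Helper23.SIC.Cls3

/-!
# Classification of the functions on `F_p × F_p` in characteristic `p` all of whose
autocorrelations have equal sums over parallel lines, with `s(h) s(-h)` constant
-/

set_option autoImplicit false

namespace Pool.Agent.Helper23.SIC

open Finset Polynomial

variable {K : Type*} [Field K] {p : ℕ}

theorem comp_negX_ne (q : K[X]) (hq : q ≠ 0) : q.comp (-X) ≠ 0 := by
  intro h
  apply hq
  ext n
  have h1 := coeff_comp_negX q n
  rw [h, coeff_zero] at h1
  rw [coeff_zero]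
  exact (mul_eq_zero.mp h1.symm).resolve_left (pow_ne_zero _ (neg_ne_zero.mpr one_ne_zero))

theorem natDegree_comp_negX (q : K[X]) : (q.comp (-X)).natDegree ≤ q.natDegree := by
  refine natDegree_comp_le.trans ?_
  rw [natDegree_neg, natDegree_X, mul_one]

/-- if `Φ(X) Φ(-X)` is constant then `Φ` is constant -/
theorem const_of_mul (Φ : K[X]) (κ : K) (h : Φ * Φ.comp (-X) = C κ) : Φ = C (Φ.coeff 0) := by
  apply eq_C_of_natDegree_eq_zero
  by_cases h0 : Φ = 0
  · rw [h0, natDegree_zero]
  · have h1 := natDegree_mul h0 (comp_negX_ne Φ h0)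
    rw [h, natDegree_C] at h1
    omega

variable [Fact p.Prime]

theorem root_card (ι : ZMod p →+* K) (ρ : K) (hρ : ρ ^ p = ρ) : ∃ r, ι r = ρ := by
  have hp : p.Prime := Fact.out
  by_contra hcon
  push Not at hcon
  have h1 : (X ^ p - X : K[X]) = 0 := by
    apply eq_zero_of_natDegree_lt_card_of_eval_eq_zero (X ^ p - X : K[X])
      (f := fun o : Option (ZMod p) => o.elim ρ ι)
    · intro a b hab
      rcases a with _ | a <;> rcases b with _ | b
      · rfl
      · exact absurd hab.symm (hcon b)
      · exact absurd hab (hcon a)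
      · exact congrArg some (ι.injective hab)
    · intro a
      rcases a with _ | a
      · simp [hρ]
      · simp only [Option.elim_some, eval_sub, eval_pow, eval_X]
        rw [← map_pow, ZMod.pow_card, sub_self]
    · rw [Fintype.card_option, ZMod.card]
      have : (X ^ p - X : K[X]).natDegree ≤ p := by
        refine (natDegree_sub_le _ _).trans ?_
        rw [natDegree_X_pow, natDegree_X]
        exact max_le le_rfl hp.one_le
      omega
  have h2 : (X ^ p - X : K[X]).coeff p = 1 := by
    rw [coeff_sub, coeff_X_pow, if_pos rfl, coeff_X, if_neg, sub_zero]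
    have := hp.two_le
    omega
  rw [h1, coeff_zero] at h2
  exact zero_ne_one h2

/-- the case of an irrational direction -/
theorem irr (ι : ZMod p →+* K) (s : ZMod p → ZMod p → K)
    (hs : LinProd s) (κ : K) (hκ : ∀ x y, s x y * s (-x) (-y) = κ) (ρ : K) (J : ℕ)
    (hJ : 2 * J + 1 ≤ p) (hmax : ∀ b, J < b → sh ρ (AA ι s) b = 0) (hρ : ∀ r, ι r ≠ ρ) :
    ∀ x y x' y', s x y = s x' y' := by
  have hp : p.Prime := Fact.out
  have hp2 := hp.two_le
  haveI : CharP K p := charP_of_injective_ringHom ι.injective p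
  have hfam : Fam p (sh ρ (AA ι s)) := sh_fam ρ _ (AA_fam ι s)
  have hsev : ∀ x y : ZMod p, s x y = ev p (sh ρ (AA ι s)) (ι x - ρ * ι y) (ι y) := by
    intro x y
    rw [sh_ev ρ _ (AA_fam ι s), sub_add_cancel, AA_ev ι s hs]
  set β := sh ρ (AA ι s) with hβ
  obtain ⟨θ, hθ⟩ : ∃ θ, θ = ρ ^ p - ρ := ⟨_, rfl⟩
  have hθ0 : θ ≠ 0 := by
    intro h
    rw [h] at hθ
    obtain ⟨r, hr⟩ := root_card ι ρ (sub_eq_zero.mp hθ.symm)
    exact hρ r hr
  obtain ⟨Φ, hΦ⟩ : ∃ Φ : K[X], Φ = ∑ b ∈ range p, β b * (C θ⁻¹ * (X - X ^ p)) ^ b := ⟨_, rfl⟩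
  have hev : ∀ x y : ZMod p, Φ.eval (ι x - ρ * ι y) = s x y := by
    intro x y
    rw [hsev, hΦ, ev, eval_finsetSum]
    apply Finset.sum_congr rfl
    intro b _
    rw [eval_mul, eval_pow, eval_mul, eval_C, eval_sub, eval_X, eval_pow, eval_X]
    have h1 : (ι x - ρ * ι y) ^ p = ι x - ρ ^ p * ι y := by
      rw [sub_pow_char, mul_pow, ← map_pow, ← map_pow, ZMod.pow_card, ZMod.pow_card]
    rw [h1]
    have h2 : θ⁻¹ * (ι x - ρ * ι y - (ι x - ρ ^ p * ι y)) = ι y := by
      have : ι x - ρ * ι y - (ι x - ρ ^ p * ι y) = θ * ι y := by rw [hθ]; ring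
      rw [this, ← mul_assoc, inv_mul_cancel₀ hθ0, one_mul]
    rw [h2]
  have hdeg : Φ.natDegree ≤ (p - 1) * (J + 1) := by
    rw [hΦ]
    apply natDegree_sum_le_of_forall_le
    intro b hb
    rw [Finset.mem_range] at hb
    by_cases hbJ : J < b
    · rw [hmax b hbJ, zero_mul, natDegree_zero]; exact Nat.zero_le _
    · push Not at hbJ
      have h1 := hfam.deg b hb
      have h2 : ((C θ⁻¹ * (X - X ^ p)) ^ b : K[X]).natDegree ≤ b * p := by
        refine natDegree_pow_le.trans ?_
        apply Nat.mul_le_mul_left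
        refine (natDegree_C_mul_le _ _).trans ?_
        refine (natDegree_sub_le _ _).trans ?_
        rw [natDegree_X_pow, natDegree_X]
        exact max_le hp.one_le le_rfl
      refine natDegree_mul_le.trans ?_
      have h3 : (p - 1) * (b + 1) ≤ (p - 1) * (J + 1) := Nat.mul_le_mul_left _ (by omega)
      have h4 : (p - 1) * (b + 1) = b * p + (p - 1) - b := by
        obtain ⟨q, rfl⟩ : ∃ q, p = q + 1 := ⟨p - 1, by omega⟩
        simp only [Nat.add_sub_cancel]
        have : b * (q + 1) + q - b = b * q + q := by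
          have : b * (q + 1) = b * q + b := by ring
          omega
        rw [this]; ring
      have h5 : b ≤ b * p := Nat.le_mul_of_pos_right _ (by omega)
      omega
  have hz : Φ * Φ.comp (-X) - C κ = 0 := by
    apply eq_zero_of_natDegree_lt_card_of_eval_eq_zero (Φ * Φ.comp (-X) - C κ)
      (f := fun z : ZMod p × ZMod p => ι z.1 - ρ * ι z.2)
    · rintro ⟨a, b⟩ ⟨c, d⟩ hab
      simp only at hab
      by_cases hbd : b = d
      · rw [hbd] at hab
        have : ι a = ι c := by linear_combination hab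
        rw [ι.injective this, hbd]
      · exfalso
        apply hρ ((a - c) / (b - d))
        have h1 : ι (b - d) ≠ 0 := by
          intro h
          apply hbd
          apply sub_eq_zero.mp
          apply ι.injective
          rw [h, map_zero]
        rw [map_div₀, div_eq_iff h1, map_sub, map_sub]
        linear_combination hab
    · rintro ⟨a, b⟩
      have h1 : -(ι a - ρ * ι b) = ι (-a) - ρ * ι (-b) := by rw [map_neg, map_neg]; ring
      simp only [eval_sub, eval_mul, eval_comp, eval_neg, eval_X, eval_C]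
      rw [h1, hev, hev, hκ, sub_self]
    · rw [Fintype.card_prod, ZMod.card]
      have h1 : (Φ * Φ.comp (-X) - C κ).natDegree ≤ (p - 1) * (J + 1) + (p - 1) * (J + 1) := by
        refine (natDegree_sub_le _ _).trans ?_
        rw [natDegree_C]
        apply max_le _ (Nat.zero_le _)
        refine natDegree_mul_le.trans ?_
        have := natDegree_comp_negX Φ
        omega
      have h2 : (p - 1) * (J + 1) + (p - 1) * (J + 1) = (p - 1) * (2 * J + 2) := by ring
      have h3 : (p - 1) * (2 * J + 2) ≤ (p - 1) * (p + 1) := Nat.mul_le_mul_left _ (by omega)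
      have h4 : (p - 1) * (p + 1) < p * p := by
        obtain ⟨q, rfl⟩ : ∃ q, p = q + 1 := ⟨p - 1, by omega⟩
        simp only [Nat.add_sub_cancel]
        nlinarith
      omega
  have hc := const_of_mul Φ κ (sub_eq_zero.mp hz)
  intro x y x' y'
  rw [← hev x y, ← hev x' y', hc, eval_C, eval_C]

end Pool.Agent.Helper23.SIC
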