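import Mathlib

/-!
# Functions on the affine plane over `F_p` with equal sums over parallel lines

Let `k` be a field of characteristic `p` (`p` an odd prime) and `c : F_p × F_p → k` a function whose
sums over parallel lines are equal.  If `c` is even, vanishes at the origin and is not zero, then
its support has at least `2 p - 2` points.
-/

set_option autoImplicit false

namespace Pool.Agent.Helper23.SIC

open Finset

variable {k : Type*} [Field k] {p : ℕ} [Fact p.Prime]

open Classical in
/-- a nonzero function on `F_p` whose moments of order `< r` vanish has more than `r` nonzero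
values -/
theorem vand (ι : ZMod p →+* k) (g : ZMod p → k) (r : ℕ)
    (hm : ∀ l < r, ∑ y, g y * ι y ^ l = 0) (hg : ∃ y, g y ≠ 0) :
    r + 1 ≤ (univ.filter (fun y => g y ≠ 0)).card := by
  by_contra hcon
  push Not at hcon
  obtain ⟨y0, hy0⟩ := hg
  set T := (univ.filter (fun y => g y ≠ 0)).erase y0 with hT
  set Q : Polynomial k := ∏ y ∈ T, (Polynomial.X - Polynomial.C (ι y)) with hQ
  have hmem : y0 ∈ univ.filter (fun y => g y ≠ 0) := by simp [hy0]
  have hTc : T.card + 1 = (univ.filter (fun y => g y ≠ 0)).card := by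
    rw [hT]; exact Finset.card_erase_add_one hmem
  have hdeg : Q.natDegree = T.card := by
    rw [hQ, Polynomial.natDegree_prod_of_monic _ _ (fun y _ => Polynomial.monic_X_sub_C _)]
    simp
  have h1 : ∑ y, g y * Q.eval (ι y) = 0 := by
    simp_rw [Polynomial.eval_eq_sum_range, Finset.mul_sum]
    rw [Finset.sum_comm]
    apply Finset.sum_eq_zero
    intro l hl
    rw [Finset.mem_range, hdeg] at hl
    have h2 := hm l (by omega)
    calc ∑ y, g y * (Q.coeff l * ι y ^ l) = Q.coeff l * ∑ y, g y * ι y ^ l := by
          rw [Finset.mul_sum]; exact Finset.sum_congr rfl (fun y _ => by ring)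
      _ = 0 := by rw [h2, mul_zero]
  have h3 : ∑ y, g y * Q.eval (ι y) = g y0 * Q.eval (ι y0) := by
    apply Finset.sum_eq_single y0
    · intro y _ hy
      by_cases hgy : g y = 0
      · rw [hgy, zero_mul]
      · have hyT : y ∈ T := by
          rw [hT, Finset.mem_erase]
          exact ⟨hy, by simp [hgy]⟩
        rw [hQ, Polynomial.eval_prod, Finset.prod_eq_zero hyT, mul_zero]
        simp
    · intro h; exact absurd (mem_univ _) h
  rw [h3] at h1
  rcases mul_eq_zero.mp h1 with h4 | h4
  · exact hy0 h4
  · rw [hQ, Polynomial.eval_prod, Finset.prod_eq_zero_iff] at h4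
    obtain ⟨y, hy, hy2⟩ := h4
    simp only [Polynomial.eval_sub, Polynomial.eval_X, Polynomial.eval_C] at hy2
    have h5 : y0 = y := ι.injective (sub_eq_zero.mp hy2)
    rw [hT, Finset.mem_erase] at hy
    exact hy.1 h5.symm

/-- the sums of `c` over parallel lines are equal -/
def Lin (c : ZMod p → ZMod p → k) : Prop :=
  ∀ x0 y0 v w : ZMod p, ∑ t, c (x0 + t * v) (y0 + t * w) = ∑ t, c (t * v) (t * w)

theorem choose_ne (ι : ZMod p →+* k) {n i : ℕ} (hn : n < p) (hi : i ≤ n) :
    ((n.choose i : ℕ) : k) ≠ 0 := by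
  have hp : p.Prime := Fact.out
  intro h
  have h1 : ι ((n.choose i : ℕ) : ZMod p) = 0 := by rw [map_natCast]; exact h
  have h2 : ((n.choose i : ℕ) : ZMod p) = 0 := by
    apply ι.injective; rw [h1, map_zero]
  rw [ZMod.natCast_eq_zero_iff] at h2
  have h3 : n.choose i ∣ n.factorial := by
    refine ⟨i.factorial * (n - i).factorial, ?_⟩
    rw [← mul_assoc]; exact (Nat.choose_mul_factorial_mul_factorial hi).symm
  have h4 := (hp.dvd_factorial).mp (h2.trans h3)
  omega

theorem sum_pow_zero (ι : ZMod p →+* k) {n : ℕ} (hn : n + 2 ≤ p) : ∑ s : ZMod p, ι s ^ n = 0 := by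
  have h := FiniteField.sum_pow_lt_card_sub_one (ZMod p) n (by rw [ZMod.card]; omega)
  have h2 : ι (∑ s : ZMod p, s ^ n) = 0 := by rw [h, map_zero]
  rw [map_sum] at h2
  simpa [map_pow] using h2

/-- the moments of order at most `p - 2` vanish -/
theorem moment (ι : ZMod p →+* k) (c : ZMod p → ZMod p → k) (hc : Lin c) (i l : ℕ)
    (h : i + l + 2 ≤ p) : ∑ x, ∑ y, c x y * ι x ^ i * ι y ^ l = 0 := by
  classical
  set n := i + l with hn
  have key : ∀ a : ZMod p, ∑ m ∈ range (n + 1),
      ((n.choose m : ℕ) : k) * (∑ x, ∑ y, c x y * ι x ^ m * ι y ^ (n - m)) * ι a ^ m = 0 := by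
    intro a
    have h1 : ∑ x, ∑ y, c x y * (ι (a * x) + ι y) ^ n = 0 := by
      have h2 : ∀ x : ZMod p, ∑ y, c x y * (ι (a * x) + ι y) ^ n
          = ∑ s, c x (s - a * x) * ι s ^ n := by
        intro x
        rw [← Equiv.sum_comp (Equiv.subRight (a * x))
          (fun y => c x y * (ι (a * x) + ι y) ^ n)]
        apply Finset.sum_congr rfl
        intro s _
        simp only [Equiv.subRight_apply]
        rw [← map_add]
        congr 3
        ring
      simp_rw [h2]
      rw [Finset.sum_comm]
      have h3 : ∀ s : ZMod p, ∑ x, c x (s - a * x) * ι s ^ n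
          = (∑ x, c x (-(a * x))) * ι s ^ n := by
        intro s
        rw [← Finset.sum_mul]
        congr 1
        have h4 := hc 0 s 1 (-a)
        have e1 : ∀ t : ZMod p, c (0 + t * 1) (s + t * (-a)) = c t (s - a * t) := by
          intro t; congr 1 <;> ring
        have e2 : ∀ t : ZMod p, c (t * 1) (t * (-a)) = c t (-(a * t)) := by
          intro t; congr 1 <;> ring
        simp_rw [e1, e2] at h4
        exact h4
      simp_rw [h3]
      rw [← Finset.mul_sum, sum_pow_zero ι (by omega), mul_zero]
    have h5 : ∀ x y : ZMod p, c x y * (ι (a * x) + ι y) ^ n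
        = ∑ m ∈ range (n + 1), ((n.choose m : ℕ) : k) * (c x y * ι x ^ m * ι y ^ (n - m)) * ι a ^ m := by
      intro x y
      rw [add_pow, Finset.mul_sum]
      apply Finset.sum_congr rfl
      intro m _
      rw [map_mul, mul_pow]
      ring
    simp_rw [h5] at h1
    rw [← h1]
    calc ∑ m ∈ range (n + 1),
          ((n.choose m : ℕ) : k) * (∑ x, ∑ y, c x y * ι x ^ m * ι y ^ (n - m)) * ι a ^ m
        = ∑ m ∈ range (n + 1), ∑ x, ∑ y,
          ((n.choose m : ℕ) : k) * (c x y * ι x ^ m * ι y ^ (n - m)) * ι a ^ m := by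
          apply Finset.sum_congr rfl
          intro m _
          rw [Finset.mul_sum, Finset.sum_mul]
          apply Finset.sum_congr rfl
          intro x _
          rw [Finset.mul_sum, Finset.sum_mul]
      _ = ∑ x, ∑ m ∈ range (n + 1), ∑ y,
          ((n.choose m : ℕ) : k) * (c x y * ι x ^ m * ι y ^ (n - m)) * ι a ^ m := Finset.sum_comm
      _ = _ := by
          apply Finset.sum_congr rfl
          intro x _
          exact Finset.sum_comm
  set P : Polynomial k := ∑ m ∈ range (n + 1), Polynomial.C (((n.choose m : ℕ) : k) *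
    (∑ x, ∑ y, c x y * ι x ^ m * ι y ^ (n - m))) * Polynomial.X ^ m with hP
  have hPdeg : P.natDegree ≤ n := by
    rw [hP]
    apply Polynomial.natDegree_sum_le_of_forall_le
    intro m hm
    rw [Finset.mem_range] at hm
    exact (Polynomial.natDegree_C_mul_X_pow_le _ _).trans (by omega)
  have hP0 : P = 0 := by
    apply Polynomial.eq_zero_of_natDegree_lt_card_of_eval_eq_zero P (ι.injective)
    · intro a
      rw [hP, Polynomial.eval_finsetSum]
      simp only [Polynomial.eval_mul, Polynomial.eval_C, Polynomial.eval_pow, Polynomial.eval_X]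
      exact key a
    · rw [ZMod.card]; omega
  have hcoef : P.coeff i = ((n.choose i : ℕ) : k) *
    (∑ x, ∑ y, c x y * ι x ^ i * ι y ^ (n - i)) := by
    rw [hP, Polynomial.finsetSum_coeff]
    rw [Finset.sum_eq_single i]
    · rw [Polynomial.coeff_C_mul_X_pow, if_pos rfl]
    · intro m _ hm
      rw [Polynomial.coeff_C_mul_X_pow, if_neg (fun h => hm h.symm)]
    · intro h; exact absurd (Finset.mem_range.mpr (by omega)) h
  rw [hP0, Polynomial.coeff_zero] at hcoef
  have h6 := mul_eq_zero.mp hcoef.symm
  rcases h6 with h6 | h6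
  · exact absurd h6 (choose_ne ι (by omega) (by omega))
  · have : n - i = l := by omega
    rw [this] at h6
    exact h6

/-- counting the points of a set row by row -/
theorem rows (S : Finset (ZMod p × ZMod p)) (Y : Finset (ZMod p)) (r : ℕ)
    (h : ∀ y ∈ Y, r ≤ (univ.filter (fun x => (x, y) ∈ S)).card) : Y.card * r ≤ S.card := by
  classical
  have h1 : ∑ y ∈ Y, (univ.filter (fun x => (x, y) ∈ S)).card ≤ S.card := by
    have h2 : (S.filter (fun z => z.2 ∈ Y)).card
        = ∑ y ∈ Y, ((S.filter (fun z => z.2 ∈ Y)).filter (fun z => z.2 = y)).card :=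
      Finset.card_eq_sum_card_fiberwise (fun z hz => by
        rw [Finset.mem_coe, Finset.mem_filter] at hz; exact hz.2)
    have h3 : ∀ y ∈ Y, (univ.filter (fun x => (x, y) ∈ S)).card
        = ((S.filter (fun z => z.2 ∈ Y)).filter (fun z => z.2 = y)).card := by
      intro y hy
      apply Finset.card_bij (fun x _ => (x, y))
      · intro x hx
        rw [Finset.mem_filter] at hx
        simp [hx.2, hy]
      · intro a _ b _ hab
        exact (Prod.mk.inj hab).1
      · intro z hz
        rw [Finset.mem_filter, Finset.mem_filter] at hz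
        refine ⟨z.1, ?_, ?_⟩
        · rw [Finset.mem_filter]
          refine ⟨mem_univ _, ?_⟩
          rw [← hz.2]
          exact hz.1.1
        · rw [← hz.2]
    rw [Finset.sum_congr rfl h3, ← h2]
    exact Finset.card_le_card (Finset.filter_subset _ _)
  calc Y.card * r = ∑ y ∈ Y, r := by rw [Finset.sum_const, smul_eq_mul]
    _ ≤ ∑ y ∈ Y, (univ.filter (fun x => (x, y) ∈ S)).card := Finset.sum_le_sum h
    _ ≤ S.card := h1

open Classical in
/-- the case where the sums over the horizontal lines vanish -/
theorem case1 (ι : ZMod p →+* k) (hp : p ≠ 2) (c : ZMod p → ZMod p → k) (hc : Lin c)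
    (heven : ∀ x y, c (-x) (-y) = c x y) (h0 : c 0 0 = 0) (hne : ∃ x y, c x y ≠ 0)
    (hz : ∑ t, c t 0 = 0) :
    2 * p - 2 ≤ (univ.filter (fun z : ZMod p × ZMod p => c z.1 z.2 ≠ 0)).card := by
  have hprime : p.Prime := Fact.out
  have hp3 : 3 ≤ p := by
    have := hprime.two_le
    omega
  set S := univ.filter (fun z : ZMod p × ZMod p => c z.1 z.2 ≠ 0) with hS
  have hrow : ∀ y, ∑ x, c x y = 0 := by
    intro y
    have h := hc 0 y 1 0
    simp only [zero_add, mul_one, mul_zero, add_zero] at h
    rw [h, hz]
  -- the least moment which is not identically zero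
  have hex : ∃ j, ∃ y, ∑ x, c x y * ι x ^ j ≠ 0 := by
    by_contra hcon
    push Not at hcon
    obtain ⟨x0, y0, hxy⟩ := hne
    have h1 := vand ι (fun x => c x y0) p (fun l _ => hcon l y0) ⟨x0, hxy⟩
    have h2 : (univ.filter (fun x => c x y0 ≠ 0)).card ≤ p := by
      calc _ ≤ (univ : Finset (ZMod p)).card := Finset.card_le_card (Finset.filter_subset _ _)
        _ = p := by rw [Finset.card_univ, ZMod.card]
    omega
  obtain ⟨j, hj, hmin⟩ : ∃ j, (∃ y, ∑ x, c x y * ι x ^ j ≠ 0) ∧
      ∀ i < j, ∀ y, ∑ x, c x y * ι x ^ i = 0 := by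
    refine ⟨Nat.find hex, Nat.find_spec hex, ?_⟩
    intro i hi y
    by_contra hcon
    exact Nat.find_min hex hi ⟨y, hcon⟩
  have hj1 : 1 ≤ j := by
    by_contra hcon
    have : j = 0 := by omega
    subst this
    obtain ⟨y, hy⟩ := hj
    apply hy
    simpa using hrow y
  have hrowc : ∀ y, (∑ x, c x y * ι x ^ j ≠ 0) →
      j + 1 ≤ (univ.filter (fun x => (x, y) ∈ S)).card := by
    intro y hy
    have h1 := vand ι (fun x => c x y) j (fun l hl => hmin l hl y) (by
      by_contra hcon
      push Not at hcon
      apply hy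
      apply Finset.sum_eq_zero
      intro x _
      rw [hcon x, zero_mul])
    have h2 : (univ.filter (fun x => (x, y) ∈ S)) = univ.filter (fun x => c x y ≠ 0) := by
      ext x; simp [hS]
    rw [h2]; exact h1
  have hjp : j + 1 ≤ p := by
    obtain ⟨y, hy⟩ := hj
    have h1 := hrowc y hy
    have h2 : (univ.filter (fun x => (x, y) ∈ S)).card ≤ p := by
      calc _ ≤ (univ : Finset (ZMod p)).card := Finset.card_le_card (Finset.filter_subset _ _)
        _ = p := by rw [Finset.card_univ, ZMod.card]
    omega
  by_cases hjj : j + 2 ≤ p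
  · -- generic case
    have h1 := vand ι (fun y => ∑ x, c x y * ι x ^ j) (p - 1 - j) (by
      intro l hl
      have h2 := moment ι c hc j l (by omega)
      rw [Finset.sum_comm] at h2
      rw [← h2]
      apply Finset.sum_congr rfl
      intro y _
      rw [Finset.sum_mul]) hj
    have h3 := rows S (univ.filter (fun y => ∑ x, c x y * ι x ^ j ≠ 0)) (j + 1) (by
      intro y hy
      rw [Finset.mem_filter] at hy
      exact hrowc y hy.2)
    have h4 : (p - j) * (j + 1) ≤ S.card := by
      refine le_trans (Nat.mul_le_mul_right _ ?_) h3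
      omega
    refine le_trans ?_ h4
    obtain ⟨m, rfl⟩ : ∃ m, p = j + 2 + m := ⟨p - (j + 2), by omega⟩
    obtain ⟨i, rfl⟩ : ∃ i, j = i + 1 := ⟨j - 1, by omega⟩
    have e1 : i + 1 + 2 + m - (i + 1) = m + 2 := by omega
    rw [e1]
    have e2 : 2 * (i + 1 + 2 + m) - 2 = 2 * i + 2 * m + 4 := by omega
    rw [e2]
    nlinarith [Nat.zero_le (m * i)]
  · -- rows are constant
    have hjeq : j + 1 = p := by omega
    have hfull : ∀ x y, c x y ≠ 0 → ∀ x', c x' y ≠ 0 := by
      intro x y hxy
      have h1 := vand ι (fun x => c x y) j (fun l hl => hmin l hl y) ⟨x, hxy⟩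
      have h2 : (univ.filter (fun x => c x y ≠ 0)) = univ := by
        apply Finset.eq_univ_of_card
        rw [ZMod.card]
        apply le_antisymm
        · calc _ ≤ (univ : Finset (ZMod p)).card := Finset.card_le_card (Finset.filter_subset _ _)
            _ = p := by rw [Finset.card_univ, ZMod.card]
        · omega
      intro x'
      have h3 : x' ∈ univ.filter (fun x => c x y ≠ 0) := by rw [h2]; exact mem_univ _
      exact (Finset.mem_filter.mp h3).2
    obtain ⟨x0, y0, hxy⟩ := hne
    have hy0 : y0 ≠ 0 := by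
      intro h
      rw [h] at hxy
      exact hfull x0 0 hxy 0 h0
    have hneg : y0 ≠ -y0 := by
      intro h
      have h1 : (2 : ZMod p) * y0 = 0 := by
        have : y0 + y0 = 0 := by nth_rewrite 2 [h]; ring
        rw [two_mul]; exact this
      rcases mul_eq_zero.mp h1 with h2 | h2
      · have h3 : ((2 : ℕ) : ZMod p) = 0 := by exact_mod_cast h2
        rw [ZMod.natCast_eq_zero_iff] at h3
        have := Nat.le_of_dvd (by norm_num) h3
        omega
      · exact hy0 h2
    have h3 := rows S {y0, -y0} p (by
      intro y hy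
      have hyy : ∃ x, c x y ≠ 0 := by
        rw [Finset.mem_insert, Finset.mem_singleton] at hy
        rcases hy with rfl | rfl
        · exact ⟨x0, hxy⟩
        · exact ⟨-x0, by rw [heven]; exact hxy⟩
      obtain ⟨x, hx⟩ := hyy
      have h4 : (univ.filter (fun x => (x, y) ∈ S)) = univ := by
        apply Finset.filter_true_of_mem
        intro x' _
        simp only [hS, Finset.mem_filter, mem_univ, true_and]
        exact hfull x y hx x'
      rw [h4, Finset.card_univ, ZMod.card])
    rw [Finset.card_pair hneg] at h3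
    omega

/-- Jamison's theorem: a set meeting all lines has at least `2 p - 1` points -/
theorem jamison (S : Finset (ZMod p × ZMod p))
    (hS : ∀ x0 y0 v w : ZMod p, (v ≠ 0 ∨ w ≠ 0) → ∃ t : ZMod p, (x0 + t * v, y0 + t * w) ∈ S) :
    2 * p - 1 ≤ S.card := by
  classical
  have hprime : p.Prime := Fact.out
  obtain ⟨t0, ht0⟩ := hS 0 0 1 0 (Or.inl one_ne_zero)
  set s0 : ZMod p × ZMod p := (0 + t0 * 1, 0 + t0 * 0) with hs0
  by_contra hcon
  push Not at hcon
  set T := S.erase s0 with hT
  have hTc : T.card + 1 = S.card := Finset.card_erase_add_one ht0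
  set Q : MvPolynomial (Fin 2) (ZMod p) :=
    ∏ s ∈ T, (MvPolynomial.C (s.1 - s0.1) * MvPolynomial.X 0
      + MvPolynomial.C (s.2 - s0.2) * MvPolynomial.X 1 - MvPolynomial.C 1) with hQ
  have hdeg : Q.totalDegree ≤ T.card := by
    rw [hQ]
    refine (MvPolynomial.totalDegree_finsetProd _ _).trans ?_
    calc _ ≤ ∑ s ∈ T, 1 := by
          apply Finset.sum_le_sum
          intro s _
          refine (MvPolynomial.totalDegree_sub _ _).trans ?_
          apply max_le
          · refine (MvPolynomial.totalDegree_add _ _).trans ?_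
            apply max_le
            · refine (MvPolynomial.totalDegree_mul _ _).trans ?_
              rw [MvPolynomial.totalDegree_C, MvPolynomial.totalDegree_X]
            · refine (MvPolynomial.totalDegree_mul _ _).trans ?_
              rw [MvPolynomial.totalDegree_C, MvPolynomial.totalDegree_X]
          · rw [MvPolynomial.totalDegree_C]; exact Nat.zero_le _
      _ = T.card := by simp
  have hsum := MvPolynomial.sum_eval_eq_zero Q (by
    rw [ZMod.card, Fintype.card_fin]
    have := hprime.two_le
    omega)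
  have hone : ∑ x, MvPolynomial.eval x Q = MvPolynomial.eval 0 Q := by
    apply Finset.sum_eq_single 0
    · intro x _ hx
      rw [hQ, map_prod]
      have hx' : x 0 ≠ 0 ∨ x 1 ≠ 0 := by
        by_contra h
        push Not at h
        apply hx
        funext i
        fin_cases i
        · exact h.1
        · exact h.2
      -- a point of the line
      obtain ⟨u, hu⟩ : ∃ u : ZMod p × ZMod p, x 0 * (u.1 - s0.1) + x 1 * (u.2 - s0.2) = 1 := by
        rcases hx' with h | h
        · refine ⟨(s0.1 + (x 0)⁻¹, s0.2), ?_⟩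
          simp [h]
        · refine ⟨(s0.1, s0.2 + (x 1)⁻¹), ?_⟩
          simp [h]
      obtain ⟨t, ht⟩ := hS u.1 u.2 (x 1) (-(x 0)) (by
        rcases hx' with h | h
        · right; exact neg_ne_zero.mpr h
        · left; exact h)
      have hval : x 0 * ((u.1 + t * x 1) - s0.1) + x 1 * ((u.2 + t * (-(x 0))) - s0.2) = 1 := by
        rw [← hu]; ring
      apply Finset.prod_eq_zero (i := (u.1 + t * x 1, u.2 + t * (-(x 0))))
      · rw [hT, Finset.mem_erase]
        refine ⟨?_, ht⟩
        intro he
        rw [← he] at hval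
        simp at hval
      · simp only [map_sub, map_add, map_mul, MvPolynomial.eval_C, MvPolynomial.eval_X, map_one]
        rw [sub_eq_zero, ← hval]
        ring
    · intro h; exact absurd (mem_univ _) h
  rw [hone, hQ, map_prod] at hsum
  rw [Finset.prod_eq_zero_iff] at hsum
  obtain ⟨s, _, hs2⟩ := hsum
  simp at hs2

open Classical in
/-- **The main combinatorial statement.** -/
theorem comb (ι : ZMod p →+* k) (hp : p ≠ 2) (c : ZMod p → ZMod p → k) (hc : Lin c)
    (heven : ∀ x y, c (-x) (-y) = c x y) (h0 : c 0 0 = 0) (hne : ∃ x y, c x y ≠ 0) :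
    2 * p - 2 ≤ (univ.filter (fun z : ZMod p × ZMod p => c z.1 z.2 ≠ 0)).card := by
  by_cases hall : ∀ v w : ZMod p, (v ≠ 0 ∨ w ≠ 0) → ∑ t, c (t * v) (t * w) ≠ 0
  · have h1 := jamison (univ.filter (fun z : ZMod p × ZMod p => c z.1 z.2 ≠ 0)) (by
      intro x0 y0 v w hvw
      have h2 := hall v w hvw
      rw [← hc x0 y0 v w] at h2
      obtain ⟨t, _, ht⟩ := Finset.exists_ne_zero_of_sum_ne_zero h2
      exact ⟨t, by simp [ht]⟩)
    omega
  · push Not at hall
    obtain ⟨v, w, hvw, hz⟩ := hall
    -- a complementary vector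
    obtain ⟨a, b, hab⟩ : ∃ a b : ZMod p, v * b - w * a ≠ 0 := by
      rcases hvw with h | h
      · exact ⟨0, 1, by simpa using h⟩
      · exact ⟨-1, 0, by simpa using h⟩
    set c' : ZMod p → ZMod p → k := fun x y => c (x * v + y * a) (x * w + y * b) with hc'
    have hinj : Function.Injective
        (fun z : ZMod p × ZMod p => (z.1 * v + z.2 * a, z.1 * w + z.2 * b)) := by
      intro z z' hzz
      simp only [Prod.mk.injEq] at hzz
      obtain ⟨h1, h2⟩ := hzz
      have e1 : (v * b - w * a) * (z.1 - z'.1) = 0 := by linear_combination b * h1 - a * h2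
      have e2 : (v * b - w * a) * (z.2 - z'.2) = 0 := by linear_combination v * h2 - w * h1
      have f1 := (mul_eq_zero.mp e1).resolve_left hab
      have f2 := (mul_eq_zero.mp e2).resolve_left hab
      exact Prod.ext (sub_eq_zero.mp f1) (sub_eq_zero.mp f2)
    have hlin' : Lin c' := by
      intro x0 y0 v' w'
      have h := hc (x0 * v + y0 * a) (x0 * w + y0 * b) (v' * v + w' * a) (v' * w + w' * b)
      simp only [hc']
      have e1 : ∀ t : ZMod p, c ((x0 + t * v') * v + (y0 + t * w') * a)
          ((x0 + t * v') * w + (y0 + t * w') * b)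
          = c (x0 * v + y0 * a + t * (v' * v + w' * a)) (x0 * w + y0 * b + t * (v' * w + w' * b)) := by
        intro t; congr 1 <;> ring
      have e2 : ∀ t : ZMod p, c (t * v' * v + t * w' * a) (t * v' * w + t * w' * b)
          = c (t * (v' * v + w' * a)) (t * (v' * w + w' * b)) := by
        intro t; congr 1 <;> ring
      simp_rw [e1, e2]
      exact h
    have hsurj : Function.Surjective
        (fun z : ZMod p × ZMod p => (z.1 * v + z.2 * a, z.1 * w + z.2 * b)) :=
      Finite.surjective_of_injective hinj
    have h1 := case1 ι hp c' hlin' (by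
      intro x y
      simp only [hc']
      rw [← heven (x * v + y * a)]
      congr 1 <;> ring) (by simp [hc', h0]) (by
      obtain ⟨x, y, hxy⟩ := hne
      obtain ⟨z, hz'⟩ := hsurj (x, y)
      simp only [Prod.mk.injEq] at hz'
      exact ⟨z.1, z.2, by simp only [hc']; rw [hz'.1, hz'.2]; exact hxy⟩) (by
      simp only [hc', zero_mul, add_zero]
      exact hz)
    refine h1.trans ?_
    apply Finset.card_le_card_of_injOn
      (fun z : ZMod p × ZMod p => (z.1 * v + z.2 * a, z.1 * w + z.2 * b))
    · intro z hz'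
      simp only [coe_filter, mem_univ, true_and, Set.mem_ofPred_eq] at hz' ⊢
      exact hz'
    · exact hinj.injOn

end Pool.Agent.Helper23.SIC
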