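import Pool.Agent.Helper23.SIC.Par

/-!
# The final algebra: the place is trivial
-/

set_option autoImplicit false

namespace Pool.Agent.Helper23.SIC

open Finset

variable {L : Type*} [Field L] {p : ℕ} [Fact p.Prime]

/-- purely algebraic end of the proof -/
theorem alg_end {κ : Type*} [Field κ] [CharZero κ] (hp5 : 5 ≤ p) (S : Finset (ZMod p))
    (ub : ZMod p → κ) (R : ZMod p → ZMod p → Prop)
    (hR : ∀ i ∈ S, ∀ j ∈ S, ∀ k ∈ S, R i j → R i k → R j k)
    (hRs : ∀ i ∈ S, ∀ j ∈ S, R i j → R j i)
    (hRt : ∀ i ∈ S, ∀ j ∈ S, ∀ i' ∈ S, ∀ j' ∈ S, j - i = j' - i' → R i j → R i' j')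
    (hS : ∀ j, ub j ≠ 0 ↔ j ∈ S)
    (hsum : ∑ j, ub j = 1)
    (hcor : ∀ k, ∑ j, ub j * ub (j + k) = ((if k = 0 then 1 else 0) + 1) * ((p : κ) + 1)⁻¹)
    (huniq : ∀ i ∈ S, ∀ j ∈ S, ∀ i' ∈ S, ∀ j' ∈ S, j - i = j' - i' → ¬ R i j → i' = i)
    (hex : ∃ i ∈ S, ∃ j ∈ S, ¬ R i j) : False := by
  classical
  have hp : p.Prime := Fact.out
  set c : κ := ((p : κ) + 1)⁻¹ with hc
  have hc0 : c ≠ 0 := by
    rw [hc]
    apply inv_ne_zero
    exact_mod_cast Nat.succ_ne_zero p
  have hRr : ∀ i ∈ S, R i i := by
    obtain ⟨a, ha, b, hb, hab⟩ := hex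
    intro i hi
    by_contra h1
    -- the difference zero is unique
    have h2 := huniq i hi i hi a ha a ha (by ring) h1
    have h3 := huniq i hi i hi b hb b hb (by ring) h1
    rw [h2, h3] at hab
    -- R i i fails for the only element; contradiction with the correlations
    have hall : ∀ x ∈ S, x = i := fun x hx => huniq i hi i hi x hx x hx (by ring) h1
    have h5 := hcor 1
    have h6 : (1 : ZMod p) ≠ 0 := one_ne_zero
    rw [if_neg h6, zero_add, one_mul] at h5
    have h7 : ∑ j, ub j * ub (j + 1) = 0 := by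
      apply Finset.sum_eq_zero
      intro j _
      by_contra h8
      have h9 := hall j ((hS j).mp (left_ne_zero_of_mul h8))
      have h10 := hall (j + 1) ((hS _).mp (right_ne_zero_of_mul h8))
      rw [h9] at h10
      have h11 : (1 : ZMod p) = 0 := by linear_combination h10
      exact h6 h11
    rw [h7] at h5
    exact hc0 h5.symm
  -- products over different classes
  have hprod : ∀ i ∈ S, ∀ j ∈ S, ¬ R i j → ub i * ub j = c := by
    intro i hi j hj hij
    have hne : j - i ≠ 0 := by
      intro h
      have : j = i := by linear_combination h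
      rw [this] at hij
      exact hij (hRr i hi)
    have h1 := hcor (j - i)
    rw [if_neg hne, zero_add, one_mul] at h1
    rw [← h1, Finset.sum_eq_single i]
    · rw [add_sub_cancel]
    · intro x _ hx
      by_contra h2
      have hx1 := (hS x).mp (left_ne_zero_of_mul h2)
      have hx2 := (hS _).mp (right_ne_zero_of_mul h2)
      exact hx (huniq i hi j hj x hx1 _ hx2 (by ring) hij)
    · intro h; exact absurd (mem_univ _) h
  -- classes are singletons
  have hsing : ∀ i ∈ S, ∀ j ∈ S, i ≠ j → ¬ R i j := by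
    intro i hi i' hi' hne hR1
    obtain ⟨j0, hj0, hij0⟩ : ∃ j0 ∈ S, ¬ R i j0 := by
      by_contra h
      push Not at h
      obtain ⟨a, ha, b, hb, hab⟩ := hex
      exact hab (hR i hi a ha b hb (h a ha) (h b hb))
    have hti : ub i ≠ 0 := (hS i).mpr hi
    have htj : ub j0 ≠ 0 := (hS j0).mpr hj0
    have hcc := hprod i hi j0 hj0 hij0
    have v1 : ∀ n ∈ S, R i n → ub n = ub i := by
      intro n hn h
      have h1 : ¬ R n j0 := fun h2 => hij0 (hR n hn i hi j0 hj0 (hRs i hi n hn h) h2)
      have h2 := hprod n hn j0 hj0 h1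
      exact mul_right_cancel₀ htj (by rw [h2, hcc])
    have v2 : ∀ n ∈ S, ¬ R i n → ub n = ub j0 := by
      intro n hn h
      have h2 := hprod i hi n hn h
      exact mul_left_cancel₀ hti (by rw [h2, hcc])
    set l := i' - i with hl
    have hl0 : l ≠ 0 := by
      intro h
      apply hne
      have : i' - i = 0 := by rw [← hl]; exact h
      linear_combination -this
    have hterm : ∀ x, x ∈ S → x + l ∈ S → ub x = ub i ∧ ub (x + l) = ub i := by
      intro x hx hxl
      have hxR : R x (x + l) := hRt i hi i' hi' x hx _ hxl (by rw [hl]; ring) hR1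
      have hix : R i x := by
        by_contra h
        have := huniq i hi x hx i' hi' (x + l) hxl (by rw [hl]; ring) h
        exact hne this.symm
      have hixl : R i (x + l) := hR x hx i hi (x + l) hxl (hRs i hi x hx hix) hxR
      exact ⟨v1 x hx hix, v1 _ hxl hixl⟩
    set r := (univ.filter (fun x => x ∈ S ∧ x + l ∈ S)).card with hr
    have hsumr : ∑ x, ub x * ub (x + l) = (r : κ) * (ub i * ub i) := by
      rw [hr, ← nsmul_eq_mul, ← Finset.sum_const, Finset.sum_filter]
      apply Finset.sum_congr rfl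
      intro x _
      split_ifs with h
      · obtain ⟨h1, h2⟩ := hterm x h.1 h.2
        rw [h1, h2]
      · by_contra h3
        exact h ⟨(hS x).mp (left_ne_zero_of_mul h3), (hS _).mp (right_ne_zero_of_mul h3)⟩
    have hrc : (r : κ) * ub i = ub j0 := by
      have h1 := hcor l
      rw [if_neg hl0, zero_add, one_mul, hsumr, ← hcc] at h1
      exact mul_left_cancel₀ hti (by rw [← h1]; ring)
    have h0 := hcor 0
    rw [if_pos rfl] at h0
    simp only [add_zero] at h0
    set m := (S.filter (fun x => R i x)).card with hm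
    set n := (S.filter (fun x => ¬ R i x)).card with hn
    have hsum2 : ∑ x, ub x * ub x = (m : κ) * (ub i * ub i) + (n : κ) * (ub j0 * ub j0) := by
      have h1 : ∑ x, ub x * ub x = ∑ x ∈ S, ub x * ub x := by
        symm
        apply Finset.sum_subset (Finset.subset_univ S)
        intro x _ hx
        have : ub x = 0 := by
          by_contra h
          exact hx ((hS x).mp h)
        rw [this, zero_mul]
      rw [h1, ← Finset.sum_filter_add_sum_filter_not S (fun x => R i x)]
      congr 1
      · rw [hm, ← nsmul_eq_mul, ← Finset.sum_const]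
        apply Finset.sum_congr rfl
        intro x hx
        rw [Finset.mem_filter] at hx
        rw [v1 x hx.1 hx.2]
      · rw [hn, ← nsmul_eq_mul, ← Finset.sum_const]
        apply Finset.sum_congr rfl
        intro x hx
        rw [Finset.mem_filter] at hx
        rw [v2 x hx.1 hx.2]
    have hm2 : 2 ≤ m := by
      rw [hm]
      have h1 : ({i, i'} : Finset (ZMod p)) ⊆ S.filter (fun x => R i x) := by
        intro x hx
        rw [Finset.mem_insert, Finset.mem_singleton] at hx
        rw [Finset.mem_filter]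
        rcases hx with rfl | rfl
        · exact ⟨hi, hRr _ hi⟩
        · exact ⟨hi', hR1⟩
      calc 2 = ({i, i'} : Finset (ZMod p)).card := (Finset.card_pair hne).symm
        _ ≤ _ := Finset.card_le_card h1
    have hn1 : 1 ≤ n := by
      rw [hn]
      exact Finset.card_pos.mpr ⟨j0, by rw [Finset.mem_filter]; exact ⟨hj0, hij0⟩⟩
    have heq : (m : κ) + n * r ^ 2 = 2 * r := by
      have h2 : (m : κ) * (ub i * ub i) + (n : κ) * (ub j0 * ub j0) = 2 * (ub i * ub j0) := by
        rw [← hsum2, h0, hcc]; ring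
      rw [← hrc] at h2
      have h3 : ub i * ub i ≠ 0 := mul_ne_zero hti hti
      apply mul_right_cancel₀ h3
      linear_combination h2
    have heqN : m + n * r ^ 2 = 2 * r := by exact_mod_cast heq
    nlinarith [sq_nonneg ((r : ℤ) - 1), heqN, hm2, hn1, Nat.mul_le_mul hn1 (le_refl (r ^ 2)),
      (by nlinarith [sq_nonneg ((r : ℤ) - 1)] : (2 * (r : ℤ) ≤ r ^ 2 + 1)),
      (by have := sq_nonneg ((r : ℤ) - 1); zify; nlinarith : 2 * r ≤ r ^ 2 + 1)]
  -- the size of S
  have hdiff : ∀ l : ZMod p, ∃ j ∈ S, j + l ∈ S := by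
    intro l
    by_contra h
    push Not at h
    have h1 := hcor l
    have h2 : ∑ j, ub j * ub (j + l) = 0 := by
      apply Finset.sum_eq_zero
      intro j _
      by_contra h8
      exact h j ((hS j).mp (left_ne_zero_of_mul h8)) ((hS _).mp (right_ne_zero_of_mul h8))
    rw [h2] at h1
    have h3 : ((if l = 0 then (1 : κ) else 0) + 1) ≠ 0 := by
      split_ifs
      · norm_num
      · norm_num
    exact mul_ne_zero h3 hc0 h1.symm
  have hcard3 : 3 ≤ S.card := by
    by_contra h
    push Not at h
    have h1 : (univ : Finset (ZMod p)).card ≤ (S ×ˢ S).card := by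
      choose f hf1 hf2 using hdiff
      apply Finset.card_le_card_of_injOn (fun l => (f l, f l + l))
      · intro l _
        simp only [Finset.coe_product, Set.mem_prod, Finset.mem_coe]
        exact ⟨hf1 l, hf2 l⟩
      · intro l _ l' _ hll
        simp only [Prod.mk.injEq] at hll
        have := hll.2
        rw [hll.1] at this
        exact add_left_cancel this
    rw [Finset.card_univ, ZMod.card, Finset.card_product] at h1
    have h2 : S.card * S.card ≤ 2 * 2 := Nat.mul_le_mul (by omega) (by omega)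
    omega
  -- all values agree
  have hval : ∀ i ∈ S, ∀ j ∈ S, ub i = ub j := by
    intro i hi j hj
    by_cases hij : i = j
    · rw [hij]
    obtain ⟨k, hk, hki, hkj⟩ : ∃ k ∈ S, k ≠ i ∧ k ≠ j := by
      have h1 : (({i, j} : Finset (ZMod p))).card < S.card :=
        lt_of_le_of_lt (Finset.card_le_two) (by omega)
      obtain ⟨k, hk1, hk2⟩ := Finset.exists_mem_notMem_of_card_lt_card h1
      rw [Finset.mem_insert, Finset.mem_singleton, not_or] at hk2
      exact ⟨k, hk1, hk2.1, hk2.2⟩
    have h1 := hprod i hi k hk (hsing i hi k hk (Ne.symm hki))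
    have h2 := hprod j hj k hk (hsing j hj k hk (Ne.symm hkj))
    exact mul_right_cancel₀ ((hS k).mpr hk) (by rw [h1, h2])
  obtain ⟨i0, hi0⟩ : ∃ i, i ∈ S := by
    have : 0 < S.card := by omega
    exact Finset.card_pos.mp this
  obtain ⟨j0, hj0, hij0⟩ : ∃ j ∈ S, i0 ≠ j := by
    have h1 : (({i0} : Finset (ZMod p))).card < S.card := by rw [Finset.card_singleton]; omega
    obtain ⟨k, hk1, hk2⟩ := Finset.exists_mem_notMem_of_card_lt_card h1
    rw [Finset.mem_singleton] at hk2
    exact ⟨k, hk1, Ne.symm hk2⟩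
  have hsq : ub i0 * ub i0 = c := by
    have h1 := hprod i0 hi0 j0 hj0 (hsing i0 hi0 j0 hj0 hij0)
    rwa [← hval i0 hi0 j0 hj0] at h1
  have hs1 : (S.card : κ) * ub i0 = 1 := by
    rw [← hsum, ← nsmul_eq_mul, ← Finset.sum_const]
    have h1 : ∑ x, ub x = ∑ x ∈ S, ub x := by
      symm
      apply Finset.sum_subset (Finset.subset_univ S)
      intro x _ hx
      by_contra h
      exact hx ((hS x).mp h)
    rw [h1]
    apply Finset.sum_congr rfl
    intro x hx
    exact hval i0 hi0 x hx
  have hfin : (S.card : κ) ^ 2 = (p : κ) + 1 := by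
    have h1 : ((S.card : κ) ^ 2) * c = 1 := by
      rw [← hsq]
      calc (S.card : κ) ^ 2 * (ub i0 * ub i0) = ((S.card : κ) * ub i0) ^ 2 := by ring
        _ = 1 := by rw [hs1, one_pow]
    rw [hc] at h1
    have h2 : ((p : κ) + 1) ≠ 0 := by exact_mod_cast Nat.succ_ne_zero p
    field_simp at h1
    exact h1
  have hfinN : S.card ^ 2 = p + 1 := by exact_mod_cast hfin
  have hfac : p = (S.card - 1) * (S.card + 1) := by
    obtain ⟨s, hs⟩ : ∃ s, S.card = s + 3 := ⟨S.card - 3, by omega⟩
    rw [hs] at hfinN ⊢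
    have : s + 3 - 1 = s + 2 := by omega
    rw [this]
    nlinarith
  have h1 : (S.card - 1) ∣ p := ⟨_, hfac⟩
  rcases (Nat.dvd_prime hp).mp h1 with h2 | h2
  · omega
  · rw [h2] at hfac
    have h3 : S.card + 1 = 1 := by
      have : p * 1 = p * (S.card + 1) := by rw [mul_one]; exact hfac
      exact (Nat.eq_of_mul_eq_mul_left hp.pos this).symm
    omega

end Pool.Agent.Helper23.SIC
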