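import Pool.Agent.Helper23.SIC.Place

/-!
# Entries of rank one solutions are integral at all places of residue characteristic zero
-/

set_option autoImplicit false

namespace Pool.Agent.Helper23.SIC

open Finset

variable {L : Type*} [Field L] {p : ℕ} [Fact p.Prime]

theorem sic_trace {χ : AddChar (ZMod p) L} {w u : ZMod p → L} (hS : Sic χ w u) :
    ∑ j, w j * u j = 1 := by
  rw [← hS.zero, ov]
  apply Finset.sum_congr rfl
  intro x _
  rw [zero_mul, AddChar.map_zero_eq_one, mul_one, add_zero]

theorem sic_prod {χ : AddChar (ZMod p) L} {w u : ZMod p → L} (hS : Sic χ w u) (l b : ZMod p) :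
    (∑ x, w x * u (x + l) * χ (b * x)) * (∑ x, u x * w (x + l) * χ (-(b * x)))
      = if l = 0 ∧ b = 0 then 1 else ((p : L) + 1)⁻¹ := by
  have h1 : (∑ x, w x * u (x + l) * χ (b * x)) * (∑ x, u x * w (x + l) * χ (-(b * x)))
      = ov χ w u l b * ov χ w u (-l) (-b) * χ (l * b) := by
    rw [ov_neg, ov]
    have e : χ (-(l * b)) * χ (l * b) = 1 := by
      rw [← AddChar.map_add_eq_mul, neg_add_cancel, AddChar.map_zero_eq_one]
    linear_combination (-(∑ x, w x * u (x + l) * χ (b * x)) *
      (∑ x, u x * w (x + l) * χ (-(b * x)))) * e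
  rw [h1]
  split_ifs with h
  · rw [h.1, h.2, neg_zero, hS.zero, mul_zero, AddChar.map_zero_eq_one]; ring
  · rw [hS.flat l b h]
    have e : χ (-(l * b)) * χ (l * b) = 1 := by
      rw [← AddChar.map_add_eq_mul, neg_add_cancel, AddChar.map_zero_eq_one]
    linear_combination (((p : L) + 1)⁻¹) * e

theorem sic_quart [CharZero L] {χ : AddChar (ZMod p) L} (hχ : χ.IsPrimitive)
    {w u : ZMod p → L} (hS : Sic χ w u) : Quart w u := by
  classical
  have hp : p.Prime := Fact.out
  have hp0 : (p : L) ≠ 0 := by exact_mod_cast hp.ne_zero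
  have hp1 : (p : L) + 1 ≠ 0 := by exact_mod_cast Nat.succ_ne_zero p
  intro k l
  have h1 : ∑ b, (∑ x, w x * u (x + l) * χ (b * x)) * (∑ x, u x * w (x + l) * χ (-(b * x))) * χ (b * k)
      = (p : L) * ∑ j, w j * u (j + l) * (w (j + k + l) * u (j + k)) := by
    calc _ = ∑ b, ∑ x, ∑ y, w x * u (x + l) * (u y * w (y + l)) * χ (b * (x - y + k)) := by
          apply Finset.sum_congr rfl
          intro b _
          rw [Finset.sum_mul, Finset.sum_mul]
          apply Finset.sum_congr rfl
          intro x _
          rw [Finset.mul_sum, Finset.sum_mul]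
          apply Finset.sum_congr rfl
          intro y _
          have e : χ (b * x) * χ (-(b * y)) * χ (b * k) = χ (b * (x - y + k)) := by
            rw [← AddChar.map_add_eq_mul, ← AddChar.map_add_eq_mul]; congr 1; ring
          rw [← e]; ring
      _ = ∑ x, ∑ y, w x * u (x + l) * (u y * w (y + l)) * ∑ b, χ (b * (x - y + k)) := by
          rw [Finset.sum_comm]
          apply Finset.sum_congr rfl
          intro x _
          rw [Finset.sum_comm]
          apply Finset.sum_congr rfl
          intro y _
          rw [Finset.mul_sum]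
      _ = ∑ x, w x * u (x + l) * (u (x + k) * w (x + k + l)) * (p : L) := by
          apply Finset.sum_congr rfl
          intro x _
          rw [Finset.sum_eq_single (x + k)]
          · rw [sum_chi hχ, if_pos (by ring)]
          · intro y _ hy
            rw [sum_chi hχ, if_neg, mul_zero]
            intro h
            apply hy
            linear_combination -h
          · intro h; exact absurd (mem_univ _) h
      _ = _ := by
          rw [Finset.mul_sum]
          apply Finset.sum_congr rfl
          intro x _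
          ring
  have h2 : ∑ b, (∑ x, w x * u (x + l) * χ (b * x)) * (∑ x, u x * w (x + l) * χ (-(b * x))) * χ (b * k)
      = (p : L) * (((if k = 0 then 1 else 0) + (if l = 0 then 1 else 0)) * ((p : L) + 1)⁻¹) := by
    simp_rw [sic_prod hS]
    by_cases hl : l = 0
    · have h3 : ∀ b : ZMod p, (if l = 0 ∧ b = 0 then (1 : L) else ((p : L) + 1)⁻¹) * χ (b * k)
          = ((p : L) + 1)⁻¹ * χ (b * k) + (if b = 0 then (1 - ((p : L) + 1)⁻¹) else 0) := by
        intro b
        by_cases hb : b = 0
        · rw [if_pos ⟨hl, hb⟩, if_pos hb, hb, zero_mul, AddChar.map_zero_eq_one]; ring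
        · rw [if_neg (fun h => hb h.2), if_neg hb]; ring
      simp_rw [h3]
      rw [Finset.sum_add_distrib, ← Finset.mul_sum, sum_chi hχ, Finset.sum_ite_eq' univ (0 : ZMod p),
        if_pos (mem_univ _), if_pos hl]
      split_ifs
      · field_simp; ring
      · field_simp; ring
    · have h3 : ∀ b : ZMod p, (if l = 0 ∧ b = 0 then (1 : L) else ((p : L) + 1)⁻¹) * χ (b * k)
          = ((p : L) + 1)⁻¹ * χ (b * k) := by
        intro b
        rw [if_neg (fun h => hl h.1)]
      simp_rw [h3]
      rw [← Finset.mul_sum, sum_chi hχ, if_neg hl]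
      split_ifs <;> ring
  rw [h1] at h2
  exact mul_left_cancel₀ hp0 h2

/-- entries in terms of overlaps -/
theorem entry [CharZero L] {χ : AddChar (ZMod p) L} (hχ : χ.IsPrimitive) (w u : ZMod p → L)
    (x a : ZMod p) : (p : L) * (w x * u (x + a)) = ∑ b, ov χ w u a b * χ (-(b * x)) := by
  calc (p : L) * (w x * u (x + a)) = ∑ y, w y * u (y + a) * ∑ b, χ (b * (y - x)) := by
        rw [Finset.sum_eq_single x]
        · rw [sum_chi hχ, if_pos (sub_self x)]; ring
        · intro y _ hy
          rw [sum_chi hχ, if_neg (sub_ne_zero.mpr hy), mul_zero]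
        · intro h; exact absurd (mem_univ _) h
    _ = _ := by
        simp_rw [Finset.mul_sum]
        rw [Finset.sum_comm]
        apply Finset.sum_congr rfl
        intro b _
        rw [ov, Finset.sum_mul]
        apply Finset.sum_congr rfl
        intro y _
        have e : χ (b * y) * χ (-(b * x)) = χ (b * (y - x)) := by
          rw [← AddChar.map_add_eq_mul]; congr 1; ring
        rw [← e]; ring

theorem entry_le [CharZero L] {O : ValuationSubring L} (hO : CZ O) {χ : AddChar (ZMod p) L}
    (hχ : χ.IsPrimitive) (w u : ZMod p → L) (a : ZMod p) (Θ : O.ValueGroup)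
    (h : ∀ b, O.valuation (ov χ w u a b) ≤ Θ) (x : ZMod p) :
    O.valuation (w x * u (x + a)) ≤ Θ := by
  have hp : p.Prime := Fact.out
  have h1 := congrArg O.valuation (entry hχ w u x a)
  rw [map_mul O.valuation (p : L), hO p hp.ne_zero, one_mul] at h1
  rw [h1]
  apply Valuation.map_sum_le
  intro b _
  rw [map_mul, chi_val O χ, mul_one]
  exact h b

theorem col_false [CharZero L] {O : ValuationSubring L} (hO : CZ O) {χ : AddChar (ZMod p) L}
    (hχ : χ.IsPrimitive) (hp5 : 5 ≤ p) {w u : ZMod p → L} (hS : Sic χ w u) (a0 : ZMod p)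
    (Θ : O.ValueGroup) (hΘ : 1 < Θ) (h1 : ∀ b, O.valuation (ov χ w u a0 b) = Θ) : False := by
  have hΘ0 : Θ ≠ 0 := fun h => by
    rw [h] at hΘ; exact absurd hΘ (not_lt.mpr zero_le)
  have ha0 : a0 ≠ 0 := by
    intro h
    have h2 := h1 0
    rw [h, hS.zero, map_one] at h2
    rw [← h2] at hΘ
    exact lt_irrefl _ hΘ
  have hpv : O.valuation (((p : L) + 1)⁻¹) = 1 := by
    have := hO (p + 1) (by omega)
    push_cast at this
    rw [map_inv₀, this, inv_one]
  have h2 : ∀ b, O.valuation (ov χ w u (-a0) b) ≤ Θ⁻¹ := by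
    intro b
    have h3 := congrArg O.valuation (hS.flat a0 (-b) (fun h => ha0 h.1))
    rw [neg_neg, map_mul, map_mul, hpv, chi_val O χ, h1, one_mul] at h3
    exact (eq_inv_of_mul_eq_one_right h3).le
  have e1 := entry_le hO hχ w u a0 Θ (fun b => (h1 b).le)
  have e2 := entry_le hO hχ w u (-a0) Θ⁻¹ h2
  refine core_false hO hχ hp5 (sic_quart hχ hS) (sic_trace hS) a0 ?_ ?_
  · intro j
    calc O.valuation (w j * u j) * O.valuation (w (j + a0) * u (j + a0))
        = O.valuation (w j * u (j + a0)) * O.valuation (w (j + a0) * u j) := by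
          rw [← map_mul, ← map_mul]; congr 1; ring
      _ ≤ Θ * Θ⁻¹ := by
          apply mul_le_mul' (e1 j)
          have := e2 (j + a0)
          rwa [show j + a0 + -a0 = j by ring] at this
      _ = 1 := mul_inv_cancel₀ hΘ0
  · by_contra hcon
    push Not at hcon
    have h3 := h1 0
    have h4 : O.valuation (ov χ w u a0 0) ≤ 1 := by
      rw [ov]
      apply Valuation.map_sum_le
      intro x _
      rw [map_mul, chi_val O χ, mul_one]
      exact hcon x
    rw [h3] at h4
    exact absurd hΘ (not_lt.mpr h4)

end Pool.Agent.Helper23.SIC
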