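import Pool.Agent.Helper23.SIC.Integral

/-!
# Entries of solutions of the complexified SIC equations are algebraic
-/

set_option autoImplicit false

namespace Pool.Agent.Helper23.SIC

open Finset

variable {L : Type*} [Field L] {p : ℕ} [Fact p.Prime]

/-- overlaps after a shear and a Fourier transform, with phases -/
theorem ov_rotate' [CharZero L] {χ : AddChar (ZMod p) L} (hχ : χ.IsPrimitive)
    (w u : ZMod p → L) (q : ZMod p) :
    ∃ w' u' : ZMod p → L, ∀ a b, ov χ w' u' a b
      = χ (q * b ^ 2 - a * b) * ov χ w u (-b) (a - 2 * q * b) := by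
  have hp : p.Prime := Fact.out
  have hp0 : (p : L) ≠ 0 := by exact_mod_cast hp.ne_zero
  refine ⟨fun y => (p : L)⁻¹ * ∑ x, w x * χ (-(q * x ^ 2)) * χ (-(x * y)),
    fun y => ∑ x, u x * χ (q * x ^ 2) * χ (x * y), ?_⟩
  intro a b
  rw [ov]
  calc ∑ y, ((p : L)⁻¹ * ∑ x, w x * χ (-(q * x ^ 2)) * χ (-(x * y))) *
        (∑ x, u x * χ (q * x ^ 2) * χ (x * (y + a))) * χ (b * y)
      = ∑ y, ∑ x, ∑ x', ((p : L)⁻¹ * (w x * u x' * (χ (-(q * x ^ 2)) * χ (q * x' ^ 2) *
          χ (x' * a)))) * χ (y * (x' - x + b)) := by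
        apply Finset.sum_congr rfl
        intro y _
        rw [mul_assoc, mul_assoc, Finset.sum_mul, Finset.mul_sum]
        apply Finset.sum_congr rfl
        intro x _
        rw [Finset.sum_mul, Finset.mul_sum, Finset.mul_sum]
        apply Finset.sum_congr rfl
        intro x' _
        have e1 : χ (x' * a) * χ (y * (x' - x + b)) = χ (-(x * y)) * χ (x' * (y + a)) * χ (b * y) := by
          rw [← AddChar.map_add_eq_mul, ← AddChar.map_add_eq_mul, ← AddChar.map_add_eq_mul]
          congr 1; ring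
        calc _ = (p : L)⁻¹ * (w x * u x') * (χ (-(q * x ^ 2)) * χ (q * x' ^ 2)) *
              (χ (-(x * y)) * χ (x' * (y + a)) * χ (b * y)) := by ring
          _ = _ := by rw [← e1]; ring
    _ = ∑ x, ∑ x', ((p : L)⁻¹ * (w x * u x' * (χ (-(q * x ^ 2)) * χ (q * x' ^ 2) *
          χ (x' * a)))) * ∑ y, χ (y * (x' - x + b)) := by
        rw [Finset.sum_comm]
        apply Finset.sum_congr rfl
        intro x _
        rw [Finset.sum_comm]
        apply Finset.sum_congr rfl
        intro x' _
        rw [Finset.mul_sum]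
    _ = ∑ x, (w x * u (x - b) * (χ (-(q * x ^ 2)) * χ (q * (x - b) ^ 2) * χ ((x - b) * a))) := by
        apply Finset.sum_congr rfl
        intro x _
        rw [Finset.sum_eq_single (x - b)]
        · rw [sum_chi hχ, if_pos (by ring)]
          field_simp
        · intro y _ hy
          rw [sum_chi hχ, if_neg, mul_zero]
          intro h
          apply hy
          linear_combination h
        · intro h; exact absurd (mem_univ _) h
    _ = _ := by
        rw [ov, Finset.mul_sum]
        apply Finset.sum_congr rfl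
        intro x _
        have e1 : χ (-(q * x ^ 2)) * χ (q * (x - b) ^ 2) * χ ((x - b) * a)
            = χ (q * b ^ 2 - a * b) * χ ((a - 2 * q * b) * x) := by
          rw [← AddChar.map_add_eq_mul, ← AddChar.map_add_eq_mul, ← AddChar.map_add_eq_mul]
          congr 1; ring
        rw [e1, ← sub_eq_add_neg]
        ring

theorem sic_rotate [CharZero L] {χ : AddChar (ZMod p) L} (hχ : χ.IsPrimitive)
    {w u : ZMod p → L} (hS : Sic χ w u) (q : ZMod p) :
    ∃ w' u' : ZMod p → L, Sic χ w' u' ∧ ∀ a b, ov χ w' u' a b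
      = χ (q * b ^ 2 - a * b) * ov χ w u (-b) (a - 2 * q * b) := by
  obtain ⟨w', u', h⟩ := ov_rotate' hχ w u q
  refine ⟨w', u', ⟨?_, ?_⟩, h⟩
  · rw [h]
    have e1 : q * (0 : ZMod p) ^ 2 - 0 * 0 = 0 := by ring
    have e2 : (0 : ZMod p) - 2 * q * 0 = 0 := by ring
    rw [e1, e2, neg_zero, AddChar.map_zero_eq_one, hS.zero, one_mul]
  · intro a b hab
    rw [h, h]
    have hne : ¬ (-b = 0 ∧ a - 2 * q * b = 0) := by
      rintro ⟨h1, h2⟩
      apply hab
      have hb : b = 0 := neg_eq_zero.mp h1
      rw [hb, mul_zero, sub_zero] at h2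
      exact ⟨h2, hb⟩
    have h3 := hS.flat (-b) (a - 2 * q * b) hne
    have e1 : -(-b) = - -b := rfl
    have e2 : -(a - 2 * q * b) = -a - 2 * q * -b := by ring
    rw [e2] at h3
    calc χ (q * b ^ 2 - a * b) * ov χ w u (-b) (a - 2 * q * b) *
          (χ (q * (-b) ^ 2 - -a * -b) * ov χ w u (- -b) (-a - 2 * q * -b))
        = χ (q * b ^ 2 - a * b) * χ (q * (-b) ^ 2 - -a * -b) *
          (ov χ w u (-b) (a - 2 * q * b) * ov χ w u (- -b) (-a - 2 * q * -b)) := by ring
      _ = χ (q * b ^ 2 - a * b) * χ (q * (-b) ^ 2 - -a * -b) *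
          (χ (-(-b * (a - 2 * q * b))) * ((p : L) + 1)⁻¹) := by rw [h3]
      _ = _ := by
          rw [← mul_assoc, ← AddChar.map_add_eq_mul, ← AddChar.map_add_eq_mul]
          congr 2; ring

/-- composition of places -/
theorem exists_comp [CharZero L] (O : ValuationSubring L) (hO : CZ O) (p : ℕ) [Fact p.Prime] :
    ∃ B : ValuationSubring L, (p : L) ∈ B.nonunits ∧ ∀ x ∈ B, x ∈ O := by
  have hp : p.Prime := Fact.out
  have hcz := hO.charZero
  obtain ⟨C, hC⟩ := exists_val_char (IsLocalRing.ResidueField O) p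
  let B : ValuationSubring L :=
    { carrier := {z | z ∈ O ∧ rs O z ∈ C}
      mul_mem' := by
        rintro a b ⟨ha, ha'⟩ ⟨hb, hb'⟩
        refine ⟨O.mul_mem _ _ ha hb, ?_⟩
        rw [rs_mul O ha hb]
        exact C.mul_mem _ _ ha' hb'
      one_mem' := ⟨O.one_mem, by rw [rs_one]; exact C.one_mem⟩
      add_mem' := by
        rintro a b ⟨ha, ha'⟩ ⟨hb, hb'⟩
        refine ⟨O.add_mem _ _ ha hb, ?_⟩
        rw [rs_add O ha hb]
        exact C.add_mem _ _ ha' hb'
      zero_mem' := ⟨O.zero_mem, by rw [rs_zero]; exact C.zero_mem⟩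
      neg_mem' := by
        rintro a ⟨ha, ha'⟩
        refine ⟨O.neg_mem _ ha, ?_⟩
        rw [rs_neg O ha]
        exact C.neg_mem _ ha'
      mem_or_inv_mem' := by
        intro x
        by_cases hx0 : x = 0
        · left
          rw [hx0]
          exact ⟨O.zero_mem, by rw [rs_zero]; exact C.zero_mem⟩
        rcases lt_trichotomy (O.valuation x) 1 with h | h | h
        · left
          refine ⟨(mem_iff_le O).mpr h.le, ?_⟩
          have : rs O x = 0 := by
            by_contra h1
            exact absurd ((rs_ne_zero_val O ((mem_iff_le O).mpr h.le)).mp h1) (ne_of_lt h)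
          rw [this]
          exact C.zero_mem
        · rcases C.mem_or_inv_mem (rs O x) with h1 | h1
          · left
            exact ⟨(mem_iff_le O).mpr h.le, h1⟩
          · right
            refine ⟨inv_mem_of_val O h, ?_⟩
            rw [rs_inv O h]
            exact h1
        · right
          have h2 : O.valuation x⁻¹ < 1 := by
            rw [map_inv₀]
            exact inv_lt_one_of_one_lt₀ h
          refine ⟨(mem_iff_le O).mpr h2.le, ?_⟩
          have : rs O x⁻¹ = 0 := by
            by_contra h1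
            exact absurd ((rs_ne_zero_val O ((mem_iff_le O).mpr h2.le)).mp h1) (ne_of_lt h2)
          rw [this]
          exact C.zero_mem }
  have hB : ∀ x, x ∈ B ↔ x ∈ O ∧ rs O x ∈ C := fun x => Iff.rfl
  refine ⟨B, ?_, fun x hx => ((hB x).mp hx).1⟩
  have hpB : (p : L) ∈ B := nat_mem B p
  rw [ValuationSubring.mem_nonunits_iff]
  apply lt_of_le_of_ne ((B.valuation_le_one_iff _).mpr hpB)
  intro h1
  have h2 : ((p : L))⁻¹ ∈ B := inv_mem_of_val B h1
  have h3 := ((hB _).mp h2).2
  rw [rs_inv O (hO p hp.ne_zero), rs_nat] at h3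
  rw [ValuationSubring.mem_nonunits_iff] at hC
  have h4 := (C.valuation_le_one_iff _).mpr h3
  rw [map_inv₀] at h4
  have hp0 : (p : IsLocalRing.ResidueField O) ≠ 0 := by exact_mod_cast hp.ne_zero
  have h5 : C.valuation (p : IsLocalRing.ResidueField O) ≠ 0 := (Valuation.ne_zero_iff _).mpr hp0
  have h6 : (1 : C.ValueGroup) < (C.valuation (p : IsLocalRing.ResidueField O))⁻¹ :=
    (one_lt_inv₀ (zero_lt_iff.mpr h5)).mpr hC
  exact absurd h6 (not_lt.mpr h4)

/-- **The entries are integral at every place of residue characteristic zero.** -/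
theorem integral [CharZero L] {O : ValuationSubring L} (hO : CZ O) {χ : AddChar (ZMod p) L}
    (hχ : χ.IsPrimitive) (hp5 : 5 ≤ p) {w u : ZMod p → L} (hS : Sic χ w u) (x y : ZMod p) :
    w x * u y ∈ O := by
  have hp : p.Prime := Fact.out
  by_contra hcon
  obtain ⟨B, hB, hBO⟩ := exists_comp O hO p
  obtain ⟨x0, y0, hA0, hmem, v, v', hvv, hinv⟩ := red B (by omega) hB hχ hS
  set A0 := ov χ w u x0 y0 with hA
  have hmax : ∀ a b, O.valuation (ov χ w u a b) ≤ O.valuation A0 := by
    intro a b
    have h1 := hBO _ (hmem a b)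
    rw [mem_iff_le, map_div₀] at h1
    have h2 : O.valuation A0 ≠ 0 := (Valuation.ne_zero_iff _).mpr hA0
    calc O.valuation (ov χ w u a b)
        = O.valuation (ov χ w u a b) / O.valuation A0 * O.valuation A0 :=
          (div_mul_cancel₀ _ h2).symm
      _ ≤ 1 * O.valuation A0 := mul_le_mul' h1 le_rfl
      _ = _ := one_mul _
  have hΘ : 1 < O.valuation A0 := by
    by_contra h
    push Not at h
    apply hcon
    rw [mem_iff_le]
    have h1 := entry_le hO hχ w u (y - x) 1 (fun b => (hmax _ b).trans h) x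
    rwa [add_sub_cancel] at h1
  have hline : ∀ t : ℕ, rs B (ov χ w u (x0 + t * v) (y0 + t * v') / A0) = 1 := by
    intro t
    induction t with
    | zero =>
      rw [Nat.cast_zero, zero_mul, zero_mul, add_zero, add_zero, ← hA, div_self hA0, rs_one]
    | succ t ih =>
      rw [← ih, ← hinv (x0 + t * v) (y0 + t * v')]
      congr 3
      · push_cast; ring
      · push_cast; ring
  have hline2 : ∀ t : ZMod p, O.valuation (ov χ w u (x0 + t * v) (y0 + t * v')) = O.valuation A0 := by
    intro t
    have h1 := hline t.val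
    rw [ZMod.natCast_zmod_val] at h1
    have h2 : B.valuation (ov χ w u (x0 + t * v) (y0 + t * v') / A0) = 1 := by
      rw [← rs_ne_zero_val B (hmem _ _), h1]
      exact one_ne_zero
    have h3 := hBO _ (inv_mem_of_val B h2)
    apply le_antisymm (hmax _ _)
    rw [mem_iff_le, inv_div, map_div₀] at h3
    have h4 : O.valuation (ov χ w u (x0 + t * v) (y0 + t * v')) ≠ 0 := by
      intro h5
      rw [map_div₀, (Valuation.zero_iff _).mp h5, map_zero, zero_div] at h2
      exact zero_ne_one h2
    calc O.valuation A0 = O.valuation A0 / O.valuation (ov χ w u (x0 + t * v) (y0 + t * v'))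
          * O.valuation (ov χ w u (x0 + t * v) (y0 + t * v')) := (div_mul_cancel₀ _ h4).symm
      _ ≤ 1 * _ := mul_le_mul' h3 le_rfl
      _ = _ := one_mul _
  by_cases hv : v = 0
  · have hv' : v' ≠ 0 := by
      rcases hvv with h | h
      · exact absurd hv h
      · exact h
    apply col_false hO hχ hp5 hS x0 _ hΘ
    intro b
    have h1 := hline2 ((b - y0) * v'⁻¹)
    rw [hv, mul_zero, add_zero] at h1
    rw [← h1]
    congr 2
    rw [mul_assoc, inv_mul_cancel₀ hv', mul_one]; ring
  · have h2 : (2 : ZMod p) ≠ 0 := by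
      intro h
      have h3 : ((2 : ℕ) : ZMod p) = 0 := by exact_mod_cast h
      rw [ZMod.natCast_eq_zero_iff] at h3
      have := Nat.le_of_dvd (by norm_num) h3
      omega
    obtain ⟨w', u', hS', hov⟩ := sic_rotate hχ hS (v' * v⁻¹ * 2⁻¹)
    apply col_false hO hχ hp5 hS' (y0 - v' * v⁻¹ * x0) _ hΘ
    intro b
    rw [hov, map_mul, chi_val O χ, one_mul, ← hline2 ((-b - x0) * v⁻¹)]
    have e1 : -b = x0 + (-b - x0) * v⁻¹ * v := by
      rw [mul_assoc, inv_mul_cancel₀ hv, mul_one]; ring
    have e2 : y0 - v' * v⁻¹ * x0 - 2 * (v' * v⁻¹ * 2⁻¹) * b = y0 + (-b - x0) * v⁻¹ * v' := by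
      have h3 : (2 : ZMod p) * (v' * v⁻¹ * 2⁻¹) = v' * v⁻¹ := by
        rw [mul_comm, mul_assoc, inv_mul_cancel₀ h2, mul_one]
      rw [h3]; ring
    rw [e2, ← e1]

end Pool.Agent.Helper23.SIC
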