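import Pool.Agent.Helper23.SIC.Red

/-!
# Symmetric solutions at the places over `p`
-/

set_option autoImplicit false

namespace Pool.Agent.Helper23.SIC

open Finset

section lin

variable {p : ℕ} [Fact p.Prime]

/-- two vectors which are not proportional span the plane -/
theorem span_plane {v f : ZMod p × ZMod p} (hv : v ≠ 0) (hf : ∀ m : ZMod p, f ≠ (m * v.1, m * v.2))
    (g : ZMod p × ZMod p) : ∃ α β : ZMod p, g = (α * v.1 + β * f.1, α * v.2 + β * f.2) := by
  have hd : v.1 * f.2 - v.2 * f.1 ≠ 0 := by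
    intro hd
    by_cases h1 : v.1 = 0
    · have h2 : v.2 ≠ 0 := fun h => hv (Prod.ext h1 h)
      have h3 : f.1 = 0 := by
        rw [h1, zero_mul, zero_sub, neg_eq_zero] at hd
        exact (mul_eq_zero.mp hd).resolve_left h2
      apply hf (f.2 * v.2⁻¹)
      ext
      · rw [h3, h1, mul_zero]
      · simp [h2]
    · apply hf (f.1 * v.1⁻¹)
      ext
      · simp [h1]
      · apply mul_left_cancel₀ h1
        calc v.1 * f.2 = v.2 * f.1 := by linear_combination hd
          _ = (v.1 * v.1⁻¹) * (f.1 * v.2) := by rw [mul_inv_cancel₀ h1]; ring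
          _ = _ := by ring
  refine ⟨(g.1 * f.2 - g.2 * f.1) * (v.1 * f.2 - v.2 * f.1)⁻¹,
    (v.1 * g.2 - v.2 * g.1) * (v.1 * f.2 - v.2 * f.1)⁻¹, ?_⟩
  ext
  · show g.1 = _
    apply mul_left_cancel₀ hd
    calc (v.1 * f.2 - v.2 * f.1) * g.1
        = ((v.1 * f.2 - v.2 * f.1) * (v.1 * f.2 - v.2 * f.1)⁻¹) *
          ((v.1 * f.2 - v.2 * f.1) * g.1) := by rw [mul_inv_cancel₀ hd, one_mul]
      _ = _ := by ring
  · show g.2 = _
    apply mul_left_cancel₀ hd
    calc (v.1 * f.2 - v.2 * f.1) * g.2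
        = ((v.1 * f.2 - v.2 * f.1) * (v.1 * f.2 - v.2 * f.1)⁻¹) *
          ((v.1 * f.2 - v.2 * f.1) * g.2) := by rw [mul_inv_cancel₀ hd, one_mul]
      _ = _ := by ring

/-- a function on the plane which is invariant under a nonzero translation and under a linear map
without eigenvectors is constant -/
theorem const_of {κ : Type*} (s : ZMod p × ZMod p → κ) (F : (ZMod p × ZMod p) →+ (ZMod p × ZMod p))
    (hF : ∀ v, v ≠ 0 → ∀ m : ZMod p, F v ≠ (m * v.1, m * v.2)) (hs : ∀ g, s (F g) = s g)
    {v : ZMod p × ZMod p} (hv : v ≠ 0) (hper : ∀ g, s (g + v) = s g) (g : ZMod p × ZMod p) :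
    s g = s 0 := by
  have hinj : Function.Injective F := by
    rw [injective_iff_map_eq_zero]
    intro a ha
    by_contra h
    apply hF a h 0
    rw [ha, zero_mul, zero_mul]
    rfl
  have hsurj : Function.Surjective F := Finite.injective_iff_surjective.mp hinj
  have hper2 : ∀ g, s (g + F v) = s g := by
    intro g
    obtain ⟨g', rfl⟩ := hsurj g
    rw [← map_add, hs, hper, hs]
  have hmul : ∀ u : ZMod p × ZMod p, (∀ g, s (g + u) = s g) → ∀ (n : ℕ) g, s (g + n • u) = s g := by
    intro u hu n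
    induction n with
    | zero => intro g; rw [zero_smul, add_zero]
    | succ n ih => intro g; rw [succ_nsmul, ← add_assoc, hu, ih]
  have hmul2 : ∀ u : ZMod p × ZMod p, (∀ g, s (g + u) = s g) → ∀ (m : ZMod p) g,
      s (g + (m * u.1, m * u.2)) = s g := by
    intro u hu m g
    have h1 := hmul u hu m.val g
    have h2 : m.val • u = (m * u.1, m * u.2) := by
      ext
      · show m.val • u.1 = m * u.1
        rw [nsmul_eq_mul, ZMod.natCast_zmod_val]
      · show m.val • u.2 = m * u.2
        rw [nsmul_eq_mul, ZMod.natCast_zmod_val]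
    rw [← h2, h1]
  obtain ⟨α, β, h⟩ := span_plane hv (hF v hv) g
  have h1 : g = 0 + (α * v.1, α * v.2) + (β * (F v).1, β * (F v).2) := by
    rw [zero_add]; exact h
  rw [h1, hmul2 _ hper2, hmul2 _ hper]

/-- an endomorphism of order three of the plane over `F_p` has no eigenvector if `p ≡ 2 mod 3` -/
theorem no_eig (hp : p % 3 = 2) (F : (ZMod p × ZMod p) →+ (ZMod p × ZMod p))
    (h3 : ∀ g, F (F (F g)) = g) (h1 : ∃ g, F g ≠ g) :
    ∀ v, v ≠ 0 → ∀ m : ZMod p, F v ≠ (m * v.1, m * v.2) := by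
  have hpp : p.Prime := Fact.out
  have hsm : ∀ (m : ZMod p) (u : ZMod p × ZMod p), F (m * u.1, m * u.2) = (m * (F u).1, m * (F u).2) := by
    intro m u
    have h2 : ∀ u : ZMod p × ZMod p, m.val • u = (m * u.1, m * u.2) := by
      intro u
      ext
      · show m.val • u.1 = m * u.1
        rw [nsmul_eq_mul, ZMod.natCast_zmod_val]
      · show m.val • u.2 = m * u.2
        rw [nsmul_eq_mul, ZMod.natCast_zmod_val]
    rw [← h2, map_nsmul, h2]
  have hcube : ∀ m : ZMod p, m ^ 3 = 1 → m = 1 := by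
    intro m hm
    have hm0 : m ≠ 0 := by
      rintro rfl
      norm_num at hm
    have h4 := ZMod.pow_card_sub_one_eq_one hm0
    obtain ⟨k, hk⟩ : ∃ k, p = 3 * k + 2 := ⟨p / 3, by omega⟩
    have h5 : p - 1 = 3 * k + 1 := by omega
    rw [h5, pow_succ, pow_mul, hm, one_pow, one_mul] at h4
    exact h4
  intro v hv m hm
  -- the eigenvalue is one
  have hv3 : (m ^ 3 * v.1, m ^ 3 * v.2) = v := by
    have h4 := h3 v
    rw [hm, hsm, hm] at h4
    have h5 := hsm m (m * v.1, m * v.2)
    simp only at h4 h5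
    have h6 : F (m * (m * v.1), m * (m * v.2)) = (m ^ 3 * v.1, m ^ 3 * v.2) := by
      rw [h5, hsm, hm]
      ext <;> simp only <;> ring
    rw [← h6]
    exact h4
  have hm1 : m = 1 := by
    apply hcube
    by_cases hv1 : v.1 = 0
    · have hv2 : v.2 ≠ 0 := fun h => hv (Prod.ext hv1 h)
      have h4 : m ^ 3 * v.2 = v.2 := congrArg Prod.snd hv3
      exact mul_right_cancel₀ hv2 (by rw [h4, one_mul])
    · have h4 : m ^ 3 * v.1 = v.1 := congrArg Prod.fst hv3
      exact mul_right_cancel₀ hv1 (by rw [h4, one_mul])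
  have hFv : F v = v := by rw [hm, hm1, one_mul, one_mul]
  obtain ⟨f, hf⟩ := h1
  -- `f` is not a multiple of `v`
  have hfv : ∀ c : ZMod p, f ≠ (c * v.1, c * v.2) := by
    intro c hc
    apply hf
    rw [hc, hsm, hFv]
  obtain ⟨α, β, hα⟩ := span_plane hv hfv (F f)
  have hadd : ∀ a b : ZMod p, F (a * v.1 + b * f.1, a * v.2 + b * f.2)
      = ((a + b * α) * v.1 + b * β * f.1, (a + b * α) * v.2 + b * β * f.2) := by
    intro a b
    have h4 : (a * v.1 + b * f.1, a * v.2 + b * f.2)
        = (a * v.1, a * v.2) + ((b * f.1, b * f.2) : ZMod p × ZMod p) := rfl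
    rw [h4, map_add, hsm, hsm, hFv, hα]
    ext
    · show a * v.1 + b * (α * v.1 + β * f.1) = _
      ring
    · show a * v.2 + b * (α * v.2 + β * f.2) = _
      ring
  have hf3 := h3 f
  rw [hα, hadd, hadd] at hf3
  have hindep : ∀ a b : ZMod p, (a * v.1 + b * f.1, a * v.2 + b * f.2) = (0 : ZMod p × ZMod p) →
      a = 0 ∧ b = 0 := by
    intro a b hab
    have hb : b = 0 := by
      by_contra hb
      apply hfv (-a * b⁻¹)
      have e1 : a * v.1 + b * f.1 = 0 := congrArg Prod.fst hab
      have e2 : a * v.2 + b * f.2 = 0 := congrArg Prod.snd hab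
      ext
      · apply mul_left_cancel₀ hb
        show b * f.1 = b * (-a * b⁻¹ * v.1)
        calc b * f.1 = (b * b⁻¹) * (-a * v.1) := by
              rw [mul_inv_cancel₀ hb]; linear_combination e1
          _ = _ := by ring
      · apply mul_left_cancel₀ hb
        show b * f.2 = b * (-a * b⁻¹ * v.2)
        calc b * f.2 = (b * b⁻¹) * (-a * v.2) := by
              rw [mul_inv_cancel₀ hb]; linear_combination e2
          _ = _ := by ring
    refine ⟨?_, hb⟩
    by_contra ha
    apply hv
    have e1 : a * v.1 + b * f.1 = 0 := congrArg Prod.fst hab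
    have e2 : a * v.2 + b * f.2 = 0 := congrArg Prod.snd hab
    rw [hb, zero_mul, add_zero] at e1 e2
    exact Prod.ext ((mul_eq_zero.mp e1).resolve_left ha) ((mul_eq_zero.mp e2).resolve_left ha)
  have h5 := hindep (α + β * α + β * β * α) (β * β * β - 1) (by
    ext
    · have e1 := congrArg Prod.fst hf3
      simp only at e1
      show (α + β * α + β * β * α) * v.1 + (β * β * β - 1) * f.1 = 0
      linear_combination e1
    · have e2 := congrArg Prod.snd hf3
      simp only at e2
      show (α + β * α + β * β * α) * v.2 + (β * β * β - 1) * f.2 = 0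
      linear_combination e2)
  have hβ : β = 1 := by
    apply hcube
    linear_combination h5.2
  have h3ne : (3 : ZMod p) ≠ 0 := by
    intro h
    have h6 : ((3 : ℕ) : ZMod p) = 0 := by exact_mod_cast h
    rw [ZMod.natCast_eq_zero_iff] at h6
    have h7 := (Nat.prime_dvd_prime_iff_eq hpp Nat.prime_three).mp h6
    omega
  have hα0 : α = 0 := by
    have h6 := h5.1
    rw [hβ] at h6
    have h7 : 3 * α = 0 := by linear_combination h6
    exact (mul_eq_zero.mp h7).resolve_left h3ne
  apply hf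
  rw [hα, hα0, hβ]
  ext <;> simp

end lin

variable {L : Type*} [Field L] [CharZero L] (B : ValuationSubring L) {p : ℕ} [Fact p.Prime]

omit [CharZero L] in
theorem rs_root (hB : (p : L) ∈ B.nonunits) {c : L} (hc : c ^ p = 1) : c ∈ B ∧ rs B c = 1 := by
  have hp : p.Prime := Fact.out
  have hch := char_res B hB
  have h1 : B.valuation c ^ p = 1 := by rw [← map_pow, hc, map_one]
  have h2 : B.valuation c = 1 := by
    rcases lt_trichotomy (B.valuation c) 1 with h | h | h
    · exact absurd h1 (pow_lt_one₀ zero_le h hp.ne_zero).ne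
    · exact h
    · exact absurd h1 (one_lt_pow₀ h hp.ne_zero).ne'
  have h3 := mem_of_val B h2
  refine ⟨h3, ?_⟩
  have h4 : (rs B c - 1) ^ p = 0 := by
    rw [sub_pow_char, one_pow, ← rs_pow B h3, hc, rs_one, sub_self]
  exact sub_eq_zero.mp (pow_eq_zero_iff hp.ne_zero |>.mp h4)

/-- **Symmetric solutions**: if the overlaps are invariant, up to `p`-th roots of unity, under a
linear map without eigenvectors then they are congruent to `1` modulo all places over `p`. -/
theorem unit_of_symm (hp2 : p ≠ 2) (hB : (p : L) ∈ B.nonunits) {χ : AddChar (ZMod p) L}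
    (hχ : χ.IsPrimitive) {w u : ZMod p → L} (hS : Sic χ w u)
    (F : (ZMod p × ZMod p) →+ (ZMod p × ZMod p))
    (hF : ∀ v, v ≠ 0 → ∀ m : ZMod p, F v ≠ (m * v.1, m * v.2))
    (hov : ∀ g, ∃ c : L, c ^ p = 1 ∧ ov χ w u (F g).1 (F g).2 = c * ov χ w u g.1 g.2)
    (a b : ZMod p) : ov χ w u a b ∈ B ∧ rs B (ov χ w u a b) = 1 := by
  obtain ⟨x0, y0, hA0, hmem, v, v', hvw, hper⟩ := red B hp2 hB hχ hS
  set A0 := ov χ w u x0 y0 with hA0def
  have hconst := const_of (fun g : ZMod p × ZMod p => rs B (ov χ w u g.1 g.2 / A0)) F hF (by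
    intro g
    obtain ⟨c, hc, hcg⟩ := hov g
    obtain ⟨hc1, hc2⟩ := rs_root B hB hc
    show rs B (ov χ w u (F g).1 (F g).2 / A0) = _
    rw [hcg, mul_div_assoc, rs_mul B hc1 (hmem _ _), hc2, one_mul]) (v := (v, v')) (by
    intro h
    rcases hvw with h1 | h1
    · exact h1 (congrArg Prod.fst h)
    · exact h1 (congrArg Prod.snd h)) (by
    intro g
    exact hper g.1 g.2)
  have h1 : rs B (ov χ w u 0 0 / A0) = 1 := by
    have := hconst (x0, y0)
    simp only [← hA0def, div_self hA0, rs_one, Prod.fst_zero, Prod.snd_zero] at this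
    exact this.symm
  rw [hS.zero, one_div] at h1
  have hAinv : A0⁻¹ ∈ B := by
    have := hmem 0 0
    rwa [hS.zero, one_div] at this
  have hval : B.valuation A0⁻¹ = 1 := (rs_ne_zero_val B hAinv).mp (by rw [h1]; exact one_ne_zero)
  have hval' : B.valuation A0 = 1 := by
    rw [map_inv₀] at hval
    exact inv_eq_one.mp hval
  have hA0B : A0 ∈ B := mem_of_val B hval'
  have hrA : rs B A0 = 1 := by
    have := rs_mul B hAinv hA0B
    rw [inv_mul_cancel₀ hA0, rs_one, h1, one_mul] at this
    exact this.symm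
  have h2 : ov χ w u a b = ov χ w u a b / A0 * A0 := by field_simp
  have h3 : rs B (ov χ w u a b / A0) = 1 := by
    have h4 := hconst (a, b)
    simp only [Prod.fst_zero, Prod.snd_zero] at h4
    rw [h4, hS.zero, one_div, h1]
  constructor
  · rw [h2]; exact B.mul_mem _ _ (hmem _ _) hA0B
  · rw [h2, rs_mul B (hmem _ _) hA0B, h3, hrA, one_mul]

end Pool.Agent.Helper23.SIC
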