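import Pool.Agent.Helper23.SIC.Val

/-!
# Parallelograms of maximal entries
-/

set_option autoImplicit false

namespace Pool.Agent.Helper23.SIC

open Finset

variable {L : Type*} [Field L] {p : ℕ} [Fact p.Prime]

/-- parallelograms of maximal entries -/
def Good (O : ValuationSubring L) (w u : ZMod p → L) (k l j : ZMod p) : Prop :=
  O.valuation (w j * u (j + l) * (w (j + k + l) * u (j + k))) = 1

section good

variable {O : ValuationSubring L} {w u : ZMod p → L}

theorem Good.swap {k l j : ZMod p} (h : Good O w u k l j) : Good O w u l k j := by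
  have e : w j * u (j + k) * (w (j + l + k) * u (j + l))
      = w j * u (j + l) * (w (j + k + l) * u (j + k)) := by
    rw [show j + l + k = j + k + l by ring]; ring
  unfold Good at h ⊢
  rw [e]; exact h

theorem Good.neg {k l j : ZMod p} (h : Good O w u k l j) : Good O w u (-k) (-l) (j + k + l) := by
  have e : w (j + k + l) * u (j + k + l + -l) * (w (j + k + l + -k + -l) * u (j + k + l + -k))
      = w j * u (j + l) * (w (j + k + l) * u (j + k)) := by
    rw [show j + k + l + -l = j + k by ring, show j + k + l + -k + -l = j by ring,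
      show j + k + l + -k = j + l by ring]
    ring
  unfold Good at h ⊢
  rw [e]; exact h

theorem good_of_edges (hm : ∀ l, mu O w u l * mu O w u (-l) = 1) {k l j : ZMod p}
    (h1 : O.valuation (w j * u (j + l)) = mu O w u l)
    (h2 : O.valuation (w (j + k + l) * u (j + k)) = mu O w u (-l)) : Good O w u k l j := by
  unfold Good
  rw [map_mul, h1, h2, hm]

theorem Good.edges1 (hm : ∀ l, mu O w u l * mu O w u (-l) = 1) {k l j : ZMod p}
    (h : Good O w u k l j) : O.valuation (w j * u (j + l)) = mu O w u l ∧
      O.valuation (w (j + k + l) * u (j + k)) = mu O w u (-l) := by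
  unfold Good at h
  rw [map_mul] at h
  refine tight2 (mu_le O w u j l) ?_ (hm l) h
  have := mu_le O w u (j + k + l) (-l)
  rwa [show j + k + l + -l = j + k by ring] at this

theorem Good.edges2 (hm : ∀ l, mu O w u l * mu O w u (-l) = 1) {k l j : ZMod p}
    (h : Good O w u k l j) : O.valuation (w j * u (j + k)) = mu O w u k ∧
      O.valuation (w (j + k + l) * u (j + l)) = mu O w u (-k) := by
  have h1 := h.swap.edges1 hm
  rwa [show j + l + k = j + k + l by ring] at h1

end good

/-- the key step: the translates of an extreme parallelogram have the same levels -/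
theorem levels {O : ValuationSubring L} {w u : ZMod p → L}
    (hd : ∀ j, O.valuation (w j * u j) ≤ 1)
    (hm : ∀ l, mu O w u l * mu O w u (-l) = 1) (μ : O.ValueGroup) (hμ : 1 < μ)
    (hmax : ∀ k l j, k ≠ 0 → l ≠ 0 → Good O w u k l j → mu O w u k ≤ μ)
    {m l j0 j1 : ZMod p} (hl : l ≠ 0) (h0 : Good O w u m l j0)
    (h1 : Good O w u m l j1) (hmu : mu O w u m = μ) :
    O.valuation (w j0) ≤ O.valuation (w j1) := by
  have e0 := h0.edges1 hm
  have e1 := h1.edges1 hm
  have f1 := h1.edges2 hm
  have hB : O.valuation (u (j1 + m)) ≠ 0 := by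
    intro hz
    have h2 := f1.1
    rw [map_mul, hz, mul_zero, hmu] at h2
    rw [← h2] at hμ
    exact absurd hμ (not_lt.mpr zero_le)
  have key : O.valuation (w j0 * u (j1 + m)) ≤ μ := by
    have hg : Good O w u (m + (j1 - j0)) l j0 := by
      apply good_of_edges hm e0.1
      rw [show j0 + (m + (j1 - j0)) + l = j1 + m + l by ring,
        show j0 + (m + (j1 - j0)) = j1 + m by ring]
      exact e1.2
    by_cases hz : m + (j1 - j0) = 0
    · have h3 : j1 + m = j0 := by linear_combination hz
      rw [h3]
      exact (hd j0).trans hμ.le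
    · have h4 := hmax _ _ _ hz hl hg
      have h5 := (hg.edges2 hm).1
      rw [show j0 + (m + (j1 - j0)) = j1 + m by ring] at h5
      rw [h5]
      exact h4
  rw [← hmu, ← f1.1, map_mul, map_mul] at key
  exact le_of_mul_le_mul_right key (zero_lt_iff.mpr hB)

theorem good_mu [CharZero L] {O : ValuationSubring L} (hO : CZ O) {χ : AddChar (ZMod p) L}
    (hχ : χ.IsPrimitive) {w u : ZMod p → L} (hQ : Quart w u)
    (hd : ∀ j, O.valuation (w j * u j) ≤ 1) :
    ∀ k l j, k ≠ 0 → l ≠ 0 → Good O w u k l j → mu O w u k = 1 := by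
  classical
  have hcz := hO.charZero
  have hm := mu_mul hO hχ hQ hd
  by_contra hcon
  push Not at hcon
  obtain ⟨k0, l0, j0, hk0, hl0, hg0, hne⟩ := hcon
  have hex : ∃ k l j, k ≠ 0 ∧ l ≠ 0 ∧ Good O w u k l j ∧ 1 < mu O w u k := by
    rcases lt_or_gt_of_ne hne with hlt | hgt
    · refine ⟨-k0, -l0, j0 + k0 + l0, neg_ne_zero.mpr hk0, neg_ne_zero.mpr hl0, hg0.neg, ?_⟩
      by_contra h1
      push Not at h1
      have h2 : mu O w u k0 * mu O w u (-k0) < 1 :=
        lt_of_le_of_lt (mul_le_mul' le_rfl h1) (by rwa [mul_one])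
      rw [hm] at h2
      exact lt_irrefl _ h2
    · exact ⟨k0, l0, j0, hk0, hl0, hg0, hgt⟩
  obtain ⟨k1, l1, j1, hk1, hl1, hg1, hgt1⟩ := hex
  set S : Finset (ZMod p × ZMod p × ZMod p) :=
    univ.filter (fun t => t.1 ≠ 0 ∧ t.2.1 ≠ 0 ∧ Good O w u t.1 t.2.1 t.2.2) with hS
  obtain ⟨⟨k, l, i⟩, hmem, hmaxS⟩ := Finset.exists_max_image S (fun t => mu O w u t.1)
    ⟨(k1, l1, j1), by rw [hS, Finset.mem_filter]; exact ⟨mem_univ _, hk1, hl1, hg1⟩⟩
  rw [hS, Finset.mem_filter] at hmem
  obtain ⟨-, hk, hl, hg⟩ := hmem
  simp only at hk hl hg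
  have hμ : 1 < mu O w u k := lt_of_lt_of_le hgt1 (hmaxS (k1, l1, j1) (by
    rw [hS, Finset.mem_filter]; exact ⟨mem_univ _, hk1, hl1, hg1⟩))
  have hmax : ∀ k' l' j', k' ≠ 0 → l' ≠ 0 → Good O w u k' l' j' → mu O w u k' ≤ mu O w u k := by
    intro k' l' j' h1 h2 h3
    exact hmaxS (k', l', j') (by rw [hS, Finset.mem_filter]; exact ⟨mem_univ _, h1, h2, h3⟩)
  have E1 := hg.edges1 hm
  have E2 := hg.edges2 hm
  set D := w i * u (i + l) * (w (i + k + l) * u (i + k)) with hD
  have hvD : O.valuation D = 1 := hg
  have hD0 : D ≠ 0 := by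
    intro h0
    rw [h0, map_zero] at hvD
    exact zero_ne_one hvD
  have hwi : w i ≠ 0 := left_ne_zero_of_mul (left_ne_zero_of_mul hD0)
  have huil : u (i + l) ≠ 0 := right_ne_zero_of_mul (left_ne_zero_of_mul hD0)
  have hwikl : w (i + k + l) ≠ 0 := left_ne_zero_of_mul (right_ne_zero_of_mul hD0)
  have huik : u (i + k) ≠ 0 := right_ne_zero_of_mul (right_ne_zero_of_mul hD0)
  let lev : L → L → IsLocalRing.ResidueField O := fun x c =>
    if O.valuation x = O.valuation c then rs O (x / c) else 0
  have lev_ne : ∀ x c, c ≠ 0 → (lev x c ≠ 0 ↔ O.valuation x = O.valuation c) := by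
    intro x c hc
    simp only [lev]
    split_ifs with h
    · simp only [h, iff_true]
      exact (rs_div_ne O hc h.le).mpr h
    · simp [h]
  have lev_eq : ∀ x c, O.valuation x = O.valuation c → lev x c = rs O (x / c) := by
    intro x c h
    simp only [lev, h, if_true]
  set F : ZMod p → IsLocalRing.ResidueField O := fun j =>
    lev (w j) (w i) * lev (u (j + l)) (u (i + l)) with hF
  set G : ZMod p → IsLocalRing.ResidueField O := fun j =>
    lev (u j) (u (i + k)) * lev (w (j + l)) (w (i + k + l)) with hG
  have bad : ∀ j, O.valuation (w j) = O.valuation (w i) → O.valuation (u j) = O.valuation (u (i + k)) →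
      False := by
    intro j h1 h2
    have h3 := hd j
    rw [map_mul, h1, h2, ← map_mul, E2.1] at h3
    exact absurd hμ (not_lt.mpr h3)
  -- nonzero terms
  have nz : ∀ m j, F j * G (j + m) ≠ 0 → O.valuation (w j) = O.valuation (w i) ∧
      O.valuation (u (j + l)) = O.valuation (u (i + l)) ∧
      O.valuation (u (j + m)) = O.valuation (u (i + k)) ∧
      O.valuation (w (j + m + l)) = O.valuation (w (i + k + l)) := by
    intro m j h
    have h1 := left_ne_zero_of_mul h
    have h2 := right_ne_zero_of_mul h
    simp only [hF] at h1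
    simp only [hG] at h2
    exact ⟨(lev_ne _ _ hwi).mp (left_ne_zero_of_mul h1), (lev_ne _ _ huil).mp (right_ne_zero_of_mul h1),
      (lev_ne _ _ huik).mp (left_ne_zero_of_mul h2), (lev_ne _ _ hwikl).mp (right_ne_zero_of_mul h2)⟩
  have good_lev : ∀ m j, O.valuation (w j) = O.valuation (w i) →
      O.valuation (u (j + l)) = O.valuation (u (i + l)) →
      O.valuation (u (j + m)) = O.valuation (u (i + k)) →
      O.valuation (w (j + m + l)) = O.valuation (w (i + k + l)) → Good O w u m l j := by
    intro m j h1 h2 h3 h4
    unfold Good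
    rw [map_mul, map_mul, map_mul, h1, h2, h3, h4, ← map_mul, ← map_mul, ← map_mul]
    exact hvD
  obtain ⟨j, hj1, hj2⟩ := two_tao (chiRes_prim O hO hχ) F G
    ⟨i, by
      simp only [hF]
      exact mul_ne_zero ((lev_ne _ _ hwi).mpr rfl) ((lev_ne _ _ huil).mpr rfl)⟩
    ⟨i + k, by
      simp only [hG]
      exact mul_ne_zero ((lev_ne _ _ huik).mpr rfl) ((lev_ne _ _ hwikl).mpr rfl)⟩
    (by
      intro m
      by_cases hex : ∃ j0, F j0 * G (j0 + m) ≠ 0
      · obtain ⟨j0, hj0⟩ := hex
        obtain ⟨a1, a2, a3, a4⟩ := nz m j0 hj0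
        have hm0 : m ≠ 0 := by
          intro h0
          rw [h0, add_zero] at a3
          exact bad j0 a1 a3
        have g0 : Good O w u m l j0 := good_lev m j0 a1 a2 a3 a4
        have hmum : mu O w u m = mu O w u k := by
          rw [← (g0.edges2 hm).1, map_mul, a1, a3, ← map_mul, E2.1]
        have hterm : ∀ j, F j * G (j + m)
            = rs O (w j * u (j + l) * (w (j + m + l) * u (j + m)) / D) := by
          intro j
          by_cases hgj : Good O w u m l j
          · have b1 : O.valuation (w j) = O.valuation (w i) := by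
              rw [← a1]
              exact le_antisymm (levels hd hm _ hμ hmax hl hgj g0 hmum)
                (levels hd hm _ hμ hmax hl g0 hgj hmum)
            have hA : O.valuation (w i) ≠ 0 := (Valuation.ne_zero_iff _).mpr hwi
            have hB : O.valuation (u (i + k)) ≠ 0 := (Valuation.ne_zero_iff _).mpr huik
            have b3 : O.valuation (u (j + m)) = O.valuation (u (i + k)) := by
              have h5 := (hgj.edges2 hm).1
              rw [hmum, ← E2.1, map_mul, map_mul, b1] at h5
              exact mul_left_cancel₀ hA h5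
            have b2 : O.valuation (u (j + l)) = O.valuation (u (i + l)) := by
              have h5 := (hgj.edges1 hm).1
              rw [← E1.1, map_mul, map_mul, b1] at h5
              exact mul_left_cancel₀ hA h5
            have b4 : O.valuation (w (j + m + l)) = O.valuation (w (i + k + l)) := by
              have h5 := (hgj.edges1 hm).2
              rw [← E1.2, map_mul, map_mul, b3] at h5
              exact mul_right_cancel₀ hB h5
            simp only [hF, hG]
            rw [lev_eq _ _ b1, lev_eq _ _ b2, lev_eq _ _ b3, lev_eq _ _ b4,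
              ← rs_mul O (div_mem_of_le O hwi b1.le) (div_mem_of_le O huil b2.le),
              ← rs_mul O (div_mem_of_le O huik b3.le) (div_mem_of_le O hwikl b4.le),
              ← rs_mul O (O.mul_mem _ _ (div_mem_of_le O hwi b1.le) (div_mem_of_le O huil b2.le))
                (O.mul_mem _ _ (div_mem_of_le O huik b3.le) (div_mem_of_le O hwikl b4.le))]
            congr 1
            rw [hD]
            field_simp
          · have hle : O.valuation (w j * u (j + l) * (w (j + m + l) * u (j + m))) ≤ 1 := by
              rw [← hm l, map_mul]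
              apply mul_le_mul' (mu_le O w u j l)
              have := mu_le O w u (j + m + l) (-l)
              rwa [show j + m + l + -l = j + m by ring] at this
            have hlt : O.valuation (w j * u (j + l) * (w (j + m + l) * u (j + m))) < O.valuation D := by
              rw [hvD]
              exact lt_of_le_of_ne hle hgj
            rw [rs_div_zero O hD0 hlt]
            by_contra h6
            obtain ⟨c1, c2, c3, c4⟩ := nz m j h6
            exact hgj (good_lev m j c1 c2 c3 c4)
        simp_rw [hterm]
        rw [← rs_sum O]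
        · rw [← Finset.sum_div, hQ m l, if_neg hm0, if_neg hl, add_zero, zero_mul, zero_div, rs_zero]
        · intro j _
          apply div_mem_of_le O hD0
          rw [hvD, ← hm l, map_mul]
          apply mul_le_mul' (mu_le O w u j l)
          have := mu_le O w u (j + m + l) (-l)
          rwa [show j + m + l + -l = j + m by ring] at this
      · push Not at hex
        exact Finset.sum_eq_zero (fun j _ => hex j))
  simp only [hF] at hj1
  simp only [hG] at hj2
  exact bad j ((lev_ne _ _ hwi).mp (left_ne_zero_of_mul hj1))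
    ((lev_ne _ _ huik).mp (left_ne_zero_of_mul hj2))

end Pool.Agent.Helper23.SIC
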