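import Pool.Agent.Helper23.SIC.Core

/-!
# No place of residue characteristic zero at which an entry has a pole
-/

set_option autoImplicit false

namespace Pool.Agent.Helper23.SIC

open Finset

variable {L : Type*} [Field L] {p : ℕ} [Fact p.Prime]

theorem core_false [CharZero L] {O : ValuationSubring L} (hO : CZ O) {χ : AddChar (ZMod p) L}
    (hχ : χ.IsPrimitive) (hp5 : 5 ≤ p) {w u : ZMod p → L} (hQ : Quart w u)
    (htr : ∑ j, w j * u j = 1) (a0 : ZMod p)
    (h1 : ∀ j, O.valuation (w j * u j) * O.valuation (w (j + a0) * u (j + a0)) ≤ 1)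
    (h2 : ∃ j, 1 < O.valuation (w j * u (j + a0))) : False := by
  classical
  have hcz := hO.charZero
  have hd := diag_le hO hχ hQ a0 h1
  have hm := mu_mul hO hχ hQ hd
  have hgood := good_mu hO hχ hQ hd
  have hmem : ∀ j, w j * u j ∈ O := fun j => (mem_iff_le O).mpr (hd j)
  set S : Finset (ZMod p) := univ.filter (fun j => O.valuation (w j * u j) = 1) with hS
  have memS : ∀ j, j ∈ S ↔ O.valuation (w j * u j) = 1 := by
    intro j; rw [hS, Finset.mem_filter]; exact ⟨fun h => h.2, fun h => ⟨mem_univ _, h⟩⟩
  have mu0 : mu O w u 0 = 1 := by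
    obtain ⟨j, hj⟩ := mu_ex O w u 0
    rw [add_zero] at hj
    have h3 : mu O w u 0 ≤ 1 := by rw [← hj]; exact hd j
    have h4 := hm 0
    rw [neg_zero] at h4
    exact (tight2 h3 h3 (one_mul 1) h4).1
  -- entries between elements of `S`
  have hent : ∀ i ∈ S, ∀ j ∈ S, O.valuation (w i * u j) = mu O w u (j - i) := by
    intro i hi j hj
    rw [memS] at hi hj
    have h3 := mu_le' O w u i j
    have h4 := mu_le' O w u j i
    have h5 := hm (j - i)
    rw [show -(j - i) = i - j by ring] at h5
    refine (tight2 h3 h4 h5 ?_).1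
    rw [map_mul] at hi hj ⊢
    rw [map_mul]
    calc O.valuation (w i) * O.valuation (u j) * (O.valuation (w j) * O.valuation (u i))
        = (O.valuation (w i) * O.valuation (u i)) * (O.valuation (w j) * O.valuation (u j)) := by
          ac_rfl
      _ = 1 := by rw [hi, hj, one_mul]
  have hRw : ∀ i ∈ S, ∀ j ∈ S, (mu O w u (j - i) = 1 ↔ O.valuation (w i) = O.valuation (w j)) := by
    intro i hi j hj
    have h3 := hent i hi j hj
    rw [map_mul] at h3
    have h4 := (memS j).mp hj
    rw [map_mul] at h4
    have h5 : O.valuation (u j) ≠ 0 := right_ne_zero_of_mul_eq_one h4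
    constructor
    · intro h6
      rw [h6, ← h4] at h3
      exact mul_right_cancel₀ h5 h3
    · intro h6
      rw [← h3, h6, h4]
  refine alg_end (κ := IsLocalRing.ResidueField O) hp5 S (fun j => rs O (w j * u j))
    (fun i j => mu O w u (j - i) = 1) ?_ ?_ ?_ ?_ ?_ ?_ ?_ ?_
  · intro i hi j hj k hk hij hik
    rw [hRw i hi j hj] at hij
    rw [hRw i hi k hk] at hik
    rw [hRw j hj k hk, ← hij, hik]
  · intro i hi j hj hij
    rw [hRw i hi j hj] at hij
    rw [hRw j hj i hi, hij]
  · intro i _ j _ i' _ j' _ hdiff hij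
    rw [← hdiff]; exact hij
  · intro j
    rw [rs_ne_zero_val O (hmem j), memS]
  · rw [← rs_sum O _ _ (fun j _ => hmem j), htr, rs_one]
  · intro k
    have h3 := hQ k 0
    have h4 : ∀ j, rs O (w j * u j) * rs O (w (j + k) * u (j + k))
        = rs O (w j * u (j + 0) * (w (j + k + 0) * u (j + k))) := by
      intro j
      rw [add_zero, add_zero, rs_mul O (hmem j) (hmem (j + k))]
    simp_rw [h4]
    rw [← rs_sum O, h3, if_pos rfl]
    · have hpv : O.valuation ((p : L) + 1) = 1 := by
        have := hO (p + 1) (by omega)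
        push_cast at this
        exact this
      have hi1 : ((if k = 0 then (1 : L) else 0) + 1) ∈ O := by
        apply O.add_mem _ _ _ O.one_mem
        split_ifs
        · exact O.one_mem
        · exact O.zero_mem
      have hi2 : (if k = 0 then (1 : L) else 0) ∈ O := by
        split_ifs
        · exact O.one_mem
        · exact O.zero_mem
      rw [rs_mul O hi1 (inv_mem_of_val O hpv), rs_inv O hpv, rs_add O hi2 O.one_mem, rs_one,
        rs_add O (nat_mem O p) O.one_mem, rs_nat, rs_one]
      congr 2
      split_ifs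
      · rw [rs_one]
      · rw [rs_zero]
    · intro j _
      rw [add_zero, add_zero]
      exact O.mul_mem _ _ (hmem j) (hmem (j + k))
  · intro i hi j hj i' hi' j' hj' hdiff hnR
    by_contra hne
    have hl : j - i ≠ 0 := by
      intro h
      apply hnR
      simp only [h]
      exact mu0
    have hk : i' - i ≠ 0 := sub_ne_zero.mpr hne
    apply hnR
    apply hgood (j - i) (i' - i) i hl hk
    apply Good.swap
    apply good_of_edges hm
    · rw [add_sub_cancel]
      exact hent i hi j hj
    · have e1 : i + (i' - i) + (j - i) = j' := by linear_combination hdiff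
      have e2 : i + (i' - i) = i' := by ring
      rw [e1, e2, hent j' hj' i' hi']
      congr 1
      linear_combination hdiff
  · obtain ⟨j, hj⟩ := exists_one hO hQ a0
    have h3 : O.valuation (w j * u j) * O.valuation (w (j + a0) * u (j + a0))
        = O.valuation (w j * u (j + a0) * (w (j + a0) * u j)) := by
      rw [← map_mul]; congr 1; ring
    rw [← h3] at hj
    have h4 : O.valuation (w j * u j) = 1 := by
      apply le_antisymm (hd j)
      calc (1 : O.ValueGroup) ≤ _ := hj
        _ ≤ O.valuation (w j * u j) * 1 := mul_le_mul' le_rfl (hd (j + a0))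
        _ = _ := mul_one _
    have h5 : O.valuation (w (j + a0) * u (j + a0)) = 1 := by
      apply le_antisymm (hd (j + a0))
      calc (1 : O.ValueGroup) ≤ _ := hj
        _ ≤ 1 * O.valuation (w (j + a0) * u (j + a0)) := mul_le_mul' (hd j) le_rfl
        _ = _ := one_mul _
    refine ⟨j, (memS j).mpr h4, j + a0, (memS _).mpr h5, ?_⟩
    simp only [add_sub_cancel_left]
    obtain ⟨j1, hj1⟩ := h2
    intro h6
    have h7 := mu_le O w u j1 a0
    rw [h6] at h7
    exact absurd hj1 (not_lt.mpr h7)

end Pool.Agent.Helper23.SIC
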