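import Pool.Agent.Helper23.SIC.Cls6
import Pool.Agent.Helper23.SIC.Abs

/-!
# Reduction of the overlaps modulo a place over `p`
-/

set_option autoImplicit false

namespace Pool.Agent.Helper23.SIC

open Finset

section rs

variable {L : Type*} [Field L] (B : ValuationSubring L)

open Classical in
/-- the residue of an element of the field, zero if it is not integral -/
noncomputable def rs (x : L) : IsLocalRing.ResidueField B :=
  if h : x ∈ B then IsLocalRing.residue B ⟨x, h⟩ else 0

theorem rs_of {x : L} (h : x ∈ B) : rs B x = IsLocalRing.residue B ⟨x, h⟩ := by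
  rw [rs, dif_pos h]

theorem rs_add {x y : L} (hx : x ∈ B) (hy : y ∈ B) : rs B (x + y) = rs B x + rs B y := by
  rw [rs_of B hx, rs_of B hy, rs_of B (B.add_mem _ _ hx hy), ← map_add]
  rfl

theorem rs_mul {x y : L} (hx : x ∈ B) (hy : y ∈ B) : rs B (x * y) = rs B x * rs B y := by
  rw [rs_of B hx, rs_of B hy, rs_of B (B.mul_mem _ _ hx hy), ← map_mul]
  rfl

theorem rs_zero : rs B (0 : L) = 0 := by
  rw [rs_of B B.zero_mem]
  exact map_zero (IsLocalRing.residue B)

theorem rs_one : rs B (1 : L) = 1 := by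
  rw [rs_of B B.one_mem]
  exact map_one (IsLocalRing.residue B)

theorem nat_mem (n : ℕ) : (n : L) ∈ B := natCast_mem B n

theorem rs_nat (n : ℕ) : rs B (n : L) = (n : IsLocalRing.ResidueField B) := by
  rw [rs_of B (nat_mem B n)]
  exact map_natCast (IsLocalRing.residue B) n

theorem rs_sum {α : Type*} (s : Finset α) (f : α → L) (hf : ∀ i ∈ s, f i ∈ B) :
    rs B (∑ i ∈ s, f i) = ∑ i ∈ s, rs B (f i) := by
  classical
  induction s using Finset.induction_on with
  | empty => simp [rs_zero]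
  | insert a s ha ih =>
    rw [Finset.sum_insert ha, Finset.sum_insert ha,
      rs_add B (hf a (Finset.mem_insert_self _ _))
        (sum_mem (fun i hi => hf i (Finset.mem_insert_of_mem hi))),
      ih (fun i hi => hf i (Finset.mem_insert_of_mem hi))]

theorem rs_eq_zero {x : L} (hx : x ∈ B) : rs B x = 0 ↔ x ∈ B.nonunits := by
  rw [rs_of B hx, IsLocalRing.residue_eq_zero_iff, ← ValuationSubring.coe_mem_nonunits_iff]

theorem rs_eq_zero_val {x : L} (hx : x ∈ B) : rs B x = 0 ↔ B.valuation x < 1 := by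
  rw [rs_eq_zero B hx, ValuationSubring.mem_nonunits_iff]

theorem rs_ne_zero_val {x : L} (hx : x ∈ B) : rs B x ≠ 0 ↔ B.valuation x = 1 := by
  rw [ne_eq, rs_eq_zero_val B hx, not_lt]
  rw [← B.valuation_le_one_iff] at hx
  exact ⟨fun h => le_antisymm hx h, fun h => h.ge⟩

theorem rs_pow {x : L} (hx : x ∈ B) (n : ℕ) : rs B (x ^ n) = rs B x ^ n := by
  induction n with
  | zero => rw [pow_zero, pow_zero, rs_one]
  | succ n ih => rw [pow_succ, pow_succ, rs_mul B (pow_mem hx n) hx, ih]

theorem rs_sub {x y : L} (hx : x ∈ B) (hy : y ∈ B) : rs B (x - y) = rs B x - rs B y := by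
  have h := rs_add B (sub_mem hx hy) hy
  rw [sub_add_cancel] at h
  rw [h]; ring

theorem inv_mem_of_val {x : L} (hx : B.valuation x = 1) : x⁻¹ ∈ B := by
  rw [← B.valuation_le_one_iff, map_inv₀, hx, inv_one]

theorem mem_of_val {x : L} (hx : B.valuation x = 1) : x ∈ B := by
  rw [← B.valuation_le_one_iff, hx]

theorem rs_inv {x : L} (hx : B.valuation x = 1) : rs B x⁻¹ = (rs B x)⁻¹ := by
  have h0 : x ≠ 0 := by intro h; rw [h, map_zero] at hx; exact zero_ne_one hx
  have h1 : rs B x⁻¹ * rs B x = 1 := by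
    rw [← rs_mul B (inv_mem_of_val B hx) (mem_of_val B hx), inv_mul_cancel₀ h0, rs_one]
  exact eq_inv_of_mul_eq_one_left h1

end rs

section chi

variable {L : Type*} [Field L] (B : ValuationSubring L) {p : ℕ} [Fact p.Prime]

theorem chi_pow (χ : AddChar (ZMod p) L) (t : ZMod p) : χ t ^ p = 1 := by
  rw [← AddChar.map_nsmul_eq_pow]
  have : p • t = 0 := by simp
  rw [this, AddChar.map_zero_eq_one]

theorem chi_val (χ : AddChar (ZMod p) L) (t : ZMod p) : B.valuation (χ t) = 1 := by
  have hp : p.Prime := Fact.out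
  have h1 : B.valuation (χ t) ^ p = 1 := by rw [← map_pow, chi_pow, map_one]
  rcases lt_trichotomy (B.valuation (χ t)) 1 with h | h | h
  · exact absurd h1 (pow_lt_one₀ zero_le h hp.ne_zero).ne
  · exact h
  · exact absurd h1 (one_lt_pow₀ h hp.ne_zero).ne'

theorem chi_mem (χ : AddChar (ZMod p) L) (t : ZMod p) : χ t ∈ B := mem_of_val B (chi_val B χ t)

theorem char_res (hB : (p : L) ∈ B.nonunits) : CharP (IsLocalRing.ResidueField B) p := by
  have hp : p.Prime := Fact.out
  apply (CharP.charP_iff_prime_eq_zero hp).mpr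
  rw [← rs_nat B, rs_eq_zero B (nat_mem B p)]
  exact hB

theorem rs_chi (hB : (p : L) ∈ B.nonunits) (χ : AddChar (ZMod p) L) (t : ZMod p) :
    rs B (χ t) = 1 := by
  have hp : p.Prime := Fact.out
  have := char_res B hB
  have h1 : (rs B (χ t) - 1) ^ p = 0 := by
    rw [sub_pow_char, one_pow, ← rs_pow B (chi_mem B χ t), chi_pow, rs_one, sub_self]
  exact sub_eq_zero.mp (pow_eq_zero_iff hp.ne_zero |>.mp h1)

omit [Fact p.Prime] in
theorem val_p1 (hB : (p : L) ∈ B.nonunits) : B.valuation ((p : L) + 1) = 1 := by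
  rw [add_comm]
  exact B.valuation.map_one_add_of_lt (B.mem_nonunits_iff.mp hB)

omit [Fact p.Prime] in
theorem rs_p1 (hB : (p : L) ∈ B.nonunits) : rs B ((p : L) + 1)⁻¹ = 1 := by
  rw [rs_inv B (val_p1 B hB), rs_add B (nat_mem B p) B.one_mem, rs_one,
    (rs_eq_zero B (nat_mem B p)).mpr hB, zero_add, inv_one]

end chi

section red

variable {L : Type*} [Field L] [CharZero L] (B : ValuationSubring L) {p : ℕ} [Fact p.Prime]

/-- the equations of a Weyl-Heisenberg covariant maximal equiangular tight frame for the overlap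
function of a pair of vectors -/
structure Sic (χ : AddChar (ZMod p) L) (w u : ZMod p → L) : Prop where
  zero : ov χ w u 0 0 = 1
  flat : ∀ a b, ¬ (a = 0 ∧ b = 0) →
    ov χ w u a b * ov χ w u (-a) (-b) = χ (-(a * b)) * ((p : L) + 1)⁻¹

/-- **Reduction modulo `p`.**  The overlaps, normalised by one of largest absolute value at a place
over `p`, are modulo this place invariant under a nonzero translation. -/
theorem red (hp2 : p ≠ 2) (hB : (p : L) ∈ B.nonunits) {χ : AddChar (ZMod p) L}
    (hχ : χ.IsPrimitive) {w u : ZMod p → L} (hS : Sic χ w u) :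
    ∃ x0 y0 : ZMod p, ov χ w u x0 y0 ≠ 0 ∧
      (∀ x y, ov χ w u x y / ov χ w u x0 y0 ∈ B) ∧
      ∃ v v' : ZMod p, (v ≠ 0 ∨ v' ≠ 0) ∧ ∀ x y,
        rs B (ov χ w u (x + v) (y + v') / ov χ w u x0 y0)
          = rs B (ov χ w u x y / ov χ w u x0 y0) := by
  have hp : p.Prime := Fact.out
  have hch := char_res B hB
  have hpk : (p : IsLocalRing.ResidueField B) = 0 := CharP.cast_eq_zero _ p
  let ι : ZMod p →+* IsLocalRing.ResidueField B := ZMod.castHom (dvd_refl p) _
  obtain ⟨z0, _, hz0⟩ := Finset.exists_max_image (univ : Finset (ZMod p × ZMod p))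
    (fun z => B.valuation (ov χ w u z.1 z.2)) ⟨(0, 0), mem_univ _⟩
  set A0 := ov χ w u z0.1 z0.2 with hA0
  have hA0ne : A0 ≠ 0 := by
    intro h
    have h1 := hz0 (0, 0) (mem_univ _)
    rw [h, map_zero] at h1
    simp only at h1
    rw [hS.zero, map_one] at h1
    exact absurd h1 (not_le.mpr zero_lt_one)
  have hmem : ∀ x y, ov χ w u x y / A0 ∈ B := by
    intro x y
    rw [← B.valuation_le_one_iff, map_div₀]
    exact div_le_one_of_le₀ (hz0 (x, y) (mem_univ _)) zero_le
  refine ⟨z0.1, z0.2, hA0ne, hmem, ?_⟩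
  have h1A : A0⁻¹ ∈ B := by
    have := hmem 0 0
    rwa [hS.zero, one_div] at this
  apply cls ι hp2 (fun x y => rs B (ov χ w u x y / A0)) _ (rs B A0⁻¹ ^ 2)
  · intro x y
    rw [← rs_mul B (hmem _ _) (hmem _ _)]
    by_cases hxy : x = 0 ∧ y = 0
    · rw [hxy.1, hxy.2, neg_zero, hS.zero, one_div, rs_mul B h1A h1A, sq]
    · have e1 : ov χ w u x y / A0 * (ov χ w u (-x) (-y) / A0)
          = χ (-(x * y)) * (((p : L) + 1)⁻¹ * (A0⁻¹ * A0⁻¹)) := by
        rw [div_mul_div_comm, hS.flat x y hxy]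
        field_simp
      rw [e1, rs_mul B (chi_mem B χ _) (B.mul_mem _ _ (inv_mem_of_val B (val_p1 B hB))
        (B.mul_mem _ _ h1A h1A)), rs_chi B hB, one_mul,
        rs_mul B (inv_mem_of_val B (val_p1 B hB)) (B.mul_mem _ _ h1A h1A), rs_p1 B hB, one_mul,
        rs_mul B h1A h1A, sq]
  · intro c d x0 y0 v v'
    by_cases hvw : v ≠ 0 ∨ v' ≠ 0
    · have h1 := SD_line hχ (fun a b => FF_SD hχ w u c d a b) x0 y0 v v' hvw
      have h2 : ∀ x y, FF χ (ov χ w u) c d x y / (A0 * A0)
          = χ (x * (y - d)) * ((ov χ w u x y / A0) * (ov χ w u (c - x) (d - y) / A0)) := by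
        intro x y
        rw [FF]
        field_simp
      have h3 : ∀ x y, rs B (FF χ (ov χ w u) c d x y / (A0 * A0))
          = rs B (ov χ w u x y / A0) * rs B (ov χ w u (c - x) (d - y) / A0) := by
        intro x y
        rw [h2, rs_mul B (chi_mem B χ _) (B.mul_mem _ _ (hmem _ _) (hmem _ _)), rs_chi B hB,
          one_mul, rs_mul B (hmem _ _) (hmem _ _)]
      have h4 : ∀ x y, FF χ (ov χ w u) c d x y / (A0 * A0) ∈ B := by
        intro x y
        rw [h2]
        exact B.mul_mem _ _ (chi_mem B χ _) (B.mul_mem _ _ (hmem _ _) (hmem _ _))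
      have h5 := congrArg (fun z => rs B (z / (A0 * A0))) h1
      simp only [Finset.sum_div] at h5
      rw [rs_sum B _ _ (fun t _ => h4 _ _), rs_sum B _ _ (fun t _ => by
        rw [mul_div_assoc]; exact B.mul_mem _ _ (chi_mem B χ _) (h4 _ _))] at h5
      simp only [h3] at h5
      rw [h5]
      apply Finset.sum_congr rfl
      intro t _
      rw [mul_div_assoc, rs_mul B (chi_mem B χ _) (h4 _ _), rs_chi B hB, one_mul, h3]
    · push Not at hvw
      rw [hvw.1, hvw.2]
      simp only [mul_zero, add_zero, Finset.sum_const, Finset.card_univ, ZMod.card, nsmul_eq_mul]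
      rw [hpk, zero_mul, zero_mul]

end red

end Pool.Agent.Helper23.SIC
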