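import Pool.Agent.Helper23.SIC.Tao

/-!
# Functions on `F_p` with zero correlation have a common point in their supports
-/

set_option autoImplicit false

namespace Pool.Agent.Helper23.SIC

open Finset

section two

variable {k : Type*} [Field k] [CharZero k] {p : ℕ} [Fact p.Prime]

theorem corr_ft {χ : AddChar (ZMod p) k} (f g : ZMod p → k)
    (h : ∀ m, ∑ j, f j * g (j + m) = 0) (b : ZMod p) :
    (∑ x, f x * χ (x * b)) * (∑ y, g y * χ (y * (-b))) = 0 := by
  have h1 : (∑ x, f x * χ (x * b)) * (∑ y, g y * χ (y * (-b)))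
      = ∑ x, ∑ m, f x * g (x + m) * χ (-(m * b)) := by
    rw [Finset.sum_mul]
    apply Finset.sum_congr rfl
    intro x _
    rw [← Equiv.sum_comp (Equiv.addLeft x), Finset.mul_sum]
    apply Finset.sum_congr rfl
    intro m _
    simp only [Equiv.coe_addLeft]
    have e : χ (x * b) * χ ((x + m) * (-b)) = χ (-(m * b)) := by
      rw [← AddChar.map_add_eq_mul]; congr 1; ring
    rw [← e]; ring
  rw [h1, Finset.sum_comm]
  apply Finset.sum_eq_zero
  intro m _
  rw [← Finset.sum_mul, h m, zero_mul]

theorem two_tao {χ : AddChar (ZMod p) k} (hχ : χ.IsPrimitive) (f g : ZMod p → k)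
    (hf : ∃ x, f x ≠ 0) (hg : ∃ x, g x ≠ 0) (h : ∀ m, ∑ j, f j * g (j + m) = 0) :
    ∃ j, f j ≠ 0 ∧ g j ≠ 0 := by
  classical
  by_contra hcon
  push Not at hcon
  have t1 := tao hχ f hf
  have t2 := tao hχ g hg
  have d1 : (univ.filter (fun x => f x ≠ 0)).card + (univ.filter (fun x => g x ≠ 0)).card ≤ p := by
    rw [← Finset.card_union_of_disjoint]
    · calc _ ≤ (univ : Finset (ZMod p)).card := Finset.card_le_univ _
        _ = p := by rw [Finset.card_univ, ZMod.card]
    · rw [Finset.disjoint_filter]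
      intro x _ h1 h2
      exact h2 (hcon x h1)
  have e2 : (univ.filter (fun b => ∑ x, g x * χ (x * b) ≠ 0)).card
      = (univ.filter (fun b => ∑ x, g x * χ (x * (-b)) ≠ 0)).card := by
    apply Finset.card_bij (fun b _ => -b)
    · intro b hb
      rw [Finset.mem_filter] at hb ⊢
      refine ⟨mem_univ _, ?_⟩
      simp only [neg_neg]
      exact hb.2
    · intro a _ b _ hab
      exact neg_injective hab
    · intro b hb
      rw [Finset.mem_filter] at hb
      exact ⟨-b, by rw [Finset.mem_filter]; exact ⟨mem_univ _, hb.2⟩, by simp⟩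
  have d2 : (univ.filter (fun b => ∑ x, f x * χ (x * b) ≠ 0)).card
      + (univ.filter (fun b => ∑ x, g x * χ (x * (-b)) ≠ 0)).card ≤ p := by
    rw [← Finset.card_union_of_disjoint]
    · calc _ ≤ (univ : Finset (ZMod p)).card := Finset.card_le_univ _
        _ = p := by rw [Finset.card_univ, ZMod.card]
    · rw [Finset.disjoint_filter]
      intro b _ h1 h2
      rcases mul_eq_zero.mp (corr_ft (χ := χ) f g h b) with h3 | h3
      · exact h1 h3
      · exact h2 h3
  omega

end two

section ord

variable {Γ : Type*} [LinearOrderedCommGroupWithZero Γ]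

theorem tight2 {a b x y : Γ} (ha : a ≤ x) (hb : b ≤ y) (hxy : x * y = 1) (hab : a * b = 1) :
    a = x ∧ b = y := by
  have hx : x ≠ 0 := left_ne_zero_of_mul_eq_one hxy
  have hy : y ≠ 0 := right_ne_zero_of_mul_eq_one hxy
  have ha0 : a ≠ 0 := left_ne_zero_of_mul_eq_one hab
  have hb0 : b ≠ 0 := right_ne_zero_of_mul_eq_one hab
  constructor
  · by_contra hne
    have hlt : a < x := lt_of_le_of_ne ha hne
    have h1 : a * b < x * b := mul_lt_mul_of_pos_right hlt (zero_lt_iff.mpr hb0)
    have h2 : x * b ≤ x * y := mul_le_mul_right hb x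
    rw [hab] at h1
    rw [hxy] at h2
    exact absurd (h1.trans_le h2) (lt_irrefl _)
  · by_contra hne
    have hlt : b < y := lt_of_le_of_ne hb hne
    have h1 : a * b < a * y := mul_lt_mul_of_pos_left hlt (zero_lt_iff.mpr ha0)
    have h2 : a * y ≤ x * y := mul_le_mul_left ha y
    rw [hab] at h1
    rw [hxy] at h2
    exact absurd (h1.trans_le h2) (lt_irrefl _)

end ord

end Pool.Agent.Helper23.SIC
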