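import Pool.Agent.Helper23.SIC.TwoTao

/-!
# Vectors over a valued field of residue characteristic zero satisfying the quartic SIC equations
-/

set_option autoImplicit false

namespace Pool.Agent.Helper23.SIC

open Finset

variable {L : Type*} [Field L] {p : ℕ} [Fact p.Prime]

/-- the natural numbers have valuation one -/
def CZ (O : ValuationSubring L) : Prop := ∀ n : ℕ, n ≠ 0 → O.valuation (n : L) = 1

/-- the quartic equations -/
def Quart (w u : ZMod p → L) : Prop :=
  ∀ k l, ∑ j, w j * u (j + l) * (w (j + k + l) * u (j + k))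
    = ((if k = 0 then 1 else 0) + (if l = 0 then 1 else 0)) * ((p : L) + 1)⁻¹

section basics

variable (O : ValuationSubring L)

theorem CZ.charZero (hO : CZ O) : CharZero (IsLocalRing.ResidueField O) := by
  apply charZero_of_inj_zero
  intro n hn
  by_contra h0
  have h1 := hO n h0
  have h2 : rs O (n : L) ≠ 0 := (rs_ne_zero_val O (nat_mem O n)).mpr h1
  rw [rs_nat] at h2
  exact h2 hn

theorem mem_iff_le {x : L} : x ∈ O ↔ O.valuation x ≤ 1 := (O.valuation_le_one_iff x).symm

theorem div_mem_of_le {x M : L} (hM : M ≠ 0) (h : O.valuation x ≤ O.valuation M) : x / M ∈ O := by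
  rw [mem_iff_le, map_div₀]
  exact div_le_one_of_le₀ h zero_le

theorem rs_div_ne {x M : L} (hM : M ≠ 0) (h : O.valuation x ≤ O.valuation M) :
    rs O (x / M) ≠ 0 ↔ O.valuation x = O.valuation M := by
  rw [rs_ne_zero_val O (div_mem_of_le O hM h), map_div₀]
  have h1 : O.valuation M ≠ 0 := (Valuation.ne_zero_iff _).mpr hM
  exact div_eq_one_iff_eq h1

theorem rs_div_zero {x M : L} (hM : M ≠ 0) (h : O.valuation x < O.valuation M) :
    rs O (x / M) = 0 := by
  by_contra h0
  exact absurd ((rs_div_ne O hM h.le).mp h0) (ne_of_lt h)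

theorem rs_neg {x : L} (hx : x ∈ O) : rs O (-x) = - rs O x := by
  have h1 := rs_add O hx (O.neg_mem x hx)
  rw [add_neg_cancel, rs_zero] at h1
  exact (neg_eq_of_add_eq_zero_right h1.symm).symm

/-- the character of the residue field -/
noncomputable def chiRes (χ : AddChar (ZMod p) L) : AddChar (ZMod p) (IsLocalRing.ResidueField O) where
  toFun t := rs O (χ t)
  map_zero_eq_one' := by rw [AddChar.map_zero_eq_one, rs_one]
  map_add_eq_mul' a b := by rw [AddChar.map_add_eq_mul, rs_mul O (chi_mem O χ a) (chi_mem O χ b)]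

theorem chiRes_apply (χ : AddChar (ZMod p) L) (t : ZMod p) : chiRes O χ t = rs O (χ t) := rfl

theorem chiRes_prim (hO : CZ O) {χ : AddChar (ZMod p) L} (hχ : χ.IsPrimitive) :
    (chiRes O χ).IsPrimitive := by
  have hp : p.Prime := Fact.out
  have := hO.charZero
  intro a ha h1
  have h2 : ∀ x, chiRes O χ (x * a) = 1 := by
    intro x
    have := DFunLike.congr_fun h1 x
    rwa [AddChar.mulShift_apply, AddChar.one_apply, mul_comm] at this
  have h3 : ∑ x, chiRes O χ (x * a) = (p : IsLocalRing.ResidueField O) := by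
    simp_rw [h2]
    rw [Finset.sum_const, Finset.card_univ, ZMod.card, nsmul_eq_mul, mul_one]
  have h4 : ∑ x, chiRes O χ (x * a) = 0 := by
    have h5 := sum_chi hχ a
    rw [if_neg ha] at h5
    simp_rw [chiRes_apply]
    rw [← rs_sum O _ _ (fun x _ => chi_mem O χ _), h5, rs_zero]
  rw [h3] at h4
  exact hp.ne_zero (by exact_mod_cast h4)

end basics

/-- the constants have valuation at most one -/
theorem const_le {O : ValuationSubring L} (hO : CZ O) (k l : ZMod p) :
    O.valuation (((if k = 0 then 1 else 0) + (if l = 0 then 1 else 0)) * ((p : L) + 1)⁻¹) ≤ 1 := by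
  have h1 : O.valuation (((p : L) + 1)⁻¹) = 1 := by
    have := hO (p + 1) (by omega)
    push_cast at this
    rw [map_inv₀, this, inv_one]
  rw [map_mul, h1, mul_one]
  rw [← mem_iff_le]
  apply O.add_mem
  · split_ifs
    · exact O.one_mem
    · exact O.zero_mem
  · split_ifs
    · exact O.one_mem
    · exact O.zero_mem

/-- the correlation vanishes modulo the place if the normalising factor is large -/
theorem corr_zero {O : ValuationSubring L} (hO : CZ O) {w u : ZMod p → L} (hQ : Quart w u)
    (M1 M2 : L) (hM : 1 < O.valuation (M1 * M2)) (l m : ZMod p)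
    (h1 : ∀ j, O.valuation (w j * u (j + l)) ≤ O.valuation M1)
    (h2 : ∀ j, O.valuation (w (j + l) * u j) ≤ O.valuation M2) :
    ∑ j, rs O (w j * u (j + l) / M1) * rs O (w (j + m + l) * u (j + m) / M2) = 0 := by
  have hM0 : M1 * M2 ≠ 0 := by
    intro h0
    rw [h0, map_zero] at hM
    exact absurd hM (not_lt.mpr zero_le)
  have hM1 : M1 ≠ 0 := left_ne_zero_of_mul hM0
  have hM2 : M2 ≠ 0 := right_ne_zero_of_mul hM0
  have e1 : ∀ j, rs O (w j * u (j + l) / M1) * rs O (w (j + m + l) * u (j + m) / M2)
      = rs O (w j * u (j + l) * (w (j + m + l) * u (j + m)) / (M1 * M2)) := by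
    intro j
    rw [← rs_mul O (div_mem_of_le O hM1 (h1 j)) (div_mem_of_le O hM2 (h2 (j + m)))]
    congr 1
    field_simp
  simp_rw [e1]
  rw [← rs_sum O]
  · rw [← Finset.sum_div, hQ m l]
    apply rs_div_zero O hM0
    exact lt_of_le_of_lt (const_le hO m l) hM
  · intro j _
    apply div_mem_of_le O hM0
    rw [map_mul, map_mul]
    exact mul_le_mul' (h1 j) (h2 (j + m))

/-- the diagonal entries are integral -/
theorem diag_le [CharZero L] {O : ValuationSubring L} (hO : CZ O) {χ : AddChar (ZMod p) L}
    (hχ : χ.IsPrimitive) {w u : ZMod p → L} (hQ : Quart w u) (a0 : ZMod p)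
    (h1 : ∀ j, O.valuation (w j * u j) * O.valuation (w (j + a0) * u (j + a0)) ≤ 1) :
    ∀ j, O.valuation (w j * u j) ≤ 1 := by
  have := hO.charZero
  obtain ⟨z, _, hz⟩ := Finset.exists_max_image (univ : Finset (ZMod p))
    (fun j => O.valuation (w j * u j)) ⟨0, mem_univ _⟩
  intro j
  refine (hz j (mem_univ _)).trans ?_
  by_contra hcon
  push Not at hcon
  set M := w z * u z with hM
  have hM0 : M ≠ 0 := by
    intro h0
    simp only [h0, map_zero] at hcon
    exact absurd hcon (not_lt.mpr zero_le)
  have hMM : 1 < O.valuation (M * M) := by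
    rw [map_mul]
    calc (1 : O.ValueGroup) = 1 * 1 := (one_mul 1).symm
      _ < _ := mul_lt_mul'' hcon hcon zero_le zero_le
  obtain ⟨j, hj1, hj2⟩ := two_tao (chiRes_prim O hO hχ) (fun j => rs O (w j * u j / M))
    (fun j => rs O (w (j + a0) * u (j + a0) / M))
    ⟨z, (rs_div_ne O hM0 (hz z (mem_univ _))).mpr rfl⟩
    ⟨z - a0, by
      simp only [sub_add_cancel]
      exact (rs_div_ne O hM0 (hz z (mem_univ _))).mpr rfl⟩
    (by
      intro m
      have h := corr_zero hO hQ M M hMM 0 (m + a0) (fun j => by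
        rw [add_zero]; exact hz j (mem_univ _)) (fun j => by
        rw [add_zero]; exact hz j (mem_univ _))
      rw [← h]
      apply Finset.sum_congr rfl
      intro j _
      rw [add_zero, add_zero, add_assoc])
  rw [rs_div_ne O hM0 (hz _ (mem_univ _))] at hj1 hj2
  have h3 := h1 j
  rw [hj1, hj2, ← map_mul] at h3
  exact absurd hMM (not_lt.mpr h3)

/-- maximal entries of the columns -/
noncomputable def mu (O : ValuationSubring L) (w u : ZMod p → L) (l : ZMod p) : O.ValueGroup :=
  (univ : Finset (ZMod p)).sup' ⟨0, mem_univ _⟩ (fun j => O.valuation (w j * u (j + l)))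

theorem mu_le (O : ValuationSubring L) (w u : ZMod p → L) (j l : ZMod p) :
    O.valuation (w j * u (j + l)) ≤ mu O w u l :=
  Finset.le_sup' (fun j => O.valuation (w j * u (j + l))) (mem_univ j)

theorem mu_ex (O : ValuationSubring L) (w u : ZMod p → L) (l : ZMod p) :
    ∃ j, O.valuation (w j * u (j + l)) = mu O w u l := by
  obtain ⟨j, _, hj⟩ := Finset.exists_mem_eq_sup' (s := (univ : Finset (ZMod p)))
    ⟨0, mem_univ _⟩ (fun j => O.valuation (w j * u (j + l)))
  exact ⟨j, hj.symm⟩

theorem mu_le' (O : ValuationSubring L) (w u : ZMod p → L) (i j : ZMod p) :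
    O.valuation (w i * u j) ≤ mu O w u (j - i) := by
  have := mu_le O w u i (j - i)
  rwa [add_sub_cancel] at this

/-- some term of the correlation at shift `0` has valuation at least one -/
theorem exists_one {O : ValuationSubring L} (hO : CZ O) {w u : ZMod p → L} (hQ : Quart w u)
    (l : ZMod p) : ∃ j, 1 ≤ O.valuation (w j * u (j + l) * (w (j + l) * u j)) := by
  by_contra hcon
  push Not at hcon
  have h1 := hQ 0 l
  have h2 : O.valuation (∑ j, w j * u (j + l) * (w (j + 0 + l) * u (j + 0))) < 1 := by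
    apply Valuation.map_sum_lt _ one_ne_zero
    intro j _
    rw [add_zero]
    exact hcon j
  rw [h1, if_pos rfl, map_mul] at h2
  have h3 : O.valuation (((p : L) + 1)⁻¹) = 1 := by
    have := hO (p + 1) (by omega)
    push_cast at this
    rw [map_inv₀, this, inv_one]
  have h4 : O.valuation ((1 : L) + if l = 0 then 1 else 0) = 1 := by
    split_ifs
    · have := hO 2 (by norm_num)
      rw [show ((1 : L) + 1) = ((2 : ℕ) : L) by norm_num]
      exact this
    · rw [add_zero, map_one]
  rw [h3, h4, one_mul] at h2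
  exact lt_irrefl _ h2

theorem mu_mul [CharZero L] {O : ValuationSubring L} (hO : CZ O) {χ : AddChar (ZMod p) L}
    (hχ : χ.IsPrimitive) {w u : ZMod p → L} (hQ : Quart w u)
    (hd : ∀ j, O.valuation (w j * u j) ≤ 1) (l : ZMod p) : mu O w u l * mu O w u (-l) = 1 := by
  have := hO.charZero
  have hneg : ∀ j, O.valuation (w (j + l) * u j) ≤ mu O w u (-l) := by
    intro j
    have := mu_le' O w u (j + l) j
    rwa [show j - (j + l) = -l by ring] at this
  apply le_antisymm
  · by_contra hcon
    push Not at hcon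
    obtain ⟨j1, hj1⟩ := mu_ex O w u l
    obtain ⟨j2, hj2⟩ := mu_ex O w u (-l)
    set M1 := w j1 * u (j1 + l) with hM1
    set M2 := w j2 * u (j2 + -l) with hM2
    have hMM : 1 < O.valuation (M1 * M2) := by rwa [map_mul, hj1, hj2]
    have hM0 : M1 * M2 ≠ 0 := by
      intro h0
      rw [h0, map_zero] at hMM
      exact absurd hMM (not_lt.mpr zero_le)
    have hM10 : M1 ≠ 0 := left_ne_zero_of_mul hM0
    have hM20 : M2 ≠ 0 := right_ne_zero_of_mul hM0
    have b1 : ∀ j, O.valuation (w j * u (j + l)) ≤ O.valuation M1 := by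
      intro j; rw [hj1]; exact mu_le O w u j l
    have b2 : ∀ j, O.valuation (w (j + l) * u j) ≤ O.valuation M2 := by
      intro j; rw [hj2]; exact hneg j
    obtain ⟨j, hf, hg⟩ := two_tao (chiRes_prim O hO hχ) (fun j => rs O (w j * u (j + l) / M1))
      (fun j => rs O (w (j + l) * u j / M2))
      ⟨j1, (rs_div_ne O hM10 (b1 j1)).mpr rfl⟩
      ⟨j2 - l, by
        have h5 := b2 (j2 - l)
        apply (rs_div_ne O hM20 h5).mpr
        rw [sub_add_cancel, hM2, ← sub_eq_add_neg]⟩
      (fun m => corr_zero hO hQ M1 M2 hMM l m b1 b2)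
    rw [rs_div_ne O hM10 (b1 j)] at hf
    rw [rs_div_ne O hM20 (b2 j)] at hg
    have h6 : O.valuation (w j * u j) * O.valuation (w (j + l) * u (j + l)) = O.valuation (M1 * M2) := by
      calc O.valuation (w j * u j) * O.valuation (w (j + l) * u (j + l))
          = O.valuation (w j * u j * (w (j + l) * u (j + l))) := (map_mul _ _ _).symm
        _ = O.valuation ((w j * u (j + l)) * (w (j + l) * u j)) := by congr 1; ring
        _ = O.valuation M1 * O.valuation M2 := by
            rw [map_mul _ (w j * u (j + l)) (w (j + l) * u j), hf, hg]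
        _ = _ := (map_mul _ _ _).symm
    have h7 : O.valuation (w j * u j) * O.valuation (w (j + l) * u (j + l)) ≤ 1 :=
      mul_le_one' (hd j) (hd (j + l))
    rw [h6] at h7
    exact absurd hMM (not_lt.mpr h7)
  · obtain ⟨j, hj⟩ := exists_one hO hQ l
    refine hj.trans ?_
    rw [map_mul]
    exact mul_le_mul' (mu_le O w u j l) (hneg j)

end Pool.Agent.Helper23.SIC
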